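import Pool.Agent.H3.SH.Defs

/-!
# SH Der: derivations (copies of `Pool.Agent.GA.AlgD.exists_derivation`, `...der_aeval`, `Pool.Agent.GL.spA_der`)
-/

set_option autoImplicit false

open MvPolynomial

open scoped TensorProduct

namespace Pool.Agent.H3.SH

theorem exists_derivation {K M : Type*} [Field K] [Field M] [CharZero K] [Algebra K M] {ι : Type*} {a : ι → M} (ha : AlgebraicIndependent K a) (v : ι → M) :
    ∃ D : Derivation K M M, ∀ i, D (a i) = v i := by
  classical
  obtain ⟨s, hs, hB⟩ := exists_isTranscendenceBasis_superset (R := K) (A := M) (s := Set.range a)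
    ((algebraicIndependent_subtype_range ha.injective).2 ha)
  let φ : MvPolynomial s K →ₐ[K] M := MvPolynomial.aeval ((↑) : s → M)
  let : Algebra (MvPolynomial s K) M := φ.toRingHom.toAlgebra
  have hφ : ∀ p : MvPolynomial s K, algebraMap (MvPolynomial s K) M p = φ p := fun p => rfl
  have : IsScalarTower K (MvPolynomial s K) M := IsScalarTower.of_algebraMap_eq fun q => by
    rw [hφ, AlgHom.commutes]
  have hinj : Function.Injective (algebraMap (MvPolynomial s K) M) := hB.1
  have : FaithfulSMul (MvPolynomial s K) M := (faithfulSMul_iff_algebraMap_injective _ _).2 hinj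
  let : Algebra (FractionRing (MvPolynomial s K)) M := FractionRing.liftAlgebra (MvPolynomial s K) M
  have : IsScalarTower (MvPolynomial s K) (FractionRing (MvPolynomial s K)) M :=
    FractionRing.isScalarTower_liftAlgebra (MvPolynomial s K) M
  have : Algebra.IsAlgebraic (MvPolynomial s K) M := by
    have h1 := hB.isAlgebraic
    refine ⟨fun z => ?_⟩
    have h2 := h1.isAlgebraic z
    refine h2.of_ringHom_of_comp_eq (hB.1.aevalEquiv : MvPolynomial s K →+* _) (RingHom.id M) ?_ ?_ ?_
    · exact hB.1.aevalEquiv.surjective
    · exact Function.injective_id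
    · ext p <;> simp [hφ, φ]
  have : Algebra.IsAlgebraic (FractionRing (MvPolynomial s K)) M :=
    (IsFractionRing.comap_isAlgebraic_iff (A := MvPolynomial s K) (K := FractionRing (MvPolynomial s K)) (C := M)).1 inferInstance
  have : CharZero (FractionRing (MvPolynomial s K)) :=
    charZero_of_injective_algebraMap (algebraMap K (FractionRing (MvPolynomial s K))).injective
  have : Algebra.FormallyEtale (FractionRing (MvPolynomial s K)) M := Algebra.FormallyEtale.of_isSeparable _ _
  have : Algebra.FormallyEtale (MvPolynomial s K) (FractionRing (MvPolynomial s K)) :=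
    Algebra.FormallyEtale.of_isLocalization (nonZeroDivisors (MvPolynomial s K))
  have : Algebra.FormallyEtale (MvPolynomial s K) M := Algebra.FormallyEtale.comp _ (FractionRing (MvPolynomial s K)) _
  -- the derivation of the polynomials with values in `M`
  let w : s → M := fun b => if h : ∃ i, a i = b then v h.choose else 0
  let δ : Derivation K (MvPolynomial s K) M := MvPolynomial.mkDerivation K w
  let l : Ω[MvPolynomial s K⁄K] →ₗ[MvPolynomial s K] M := δ.liftKaehlerDifferential
  let e := KaehlerDifferential.tensorKaehlerEquivOfFormallyEtale K (MvPolynomial s K) M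
  let l' : Ω[M⁄K] →ₗ[M] M := (l.liftBaseChange M).comp e.symm.toLinearMap
  refine ⟨l'.compDer (KaehlerDifferential.D K M), fun i => ?_⟩
  have hi : a i = algebraMap (MvPolynomial s K) M (MvPolynomial.X ⟨a i, hs ⟨i, rfl⟩⟩) := by
    rw [hφ]
    simp [φ]
  rw [hi]
  change l.liftBaseChange M (e.symm (KaehlerDifferential.D K M (algebraMap (MvPolynomial s K) M (MvPolynomial.X ⟨a i, hs ⟨i, rfl⟩⟩)))) = _
  rw [KaehlerDifferential.tensorKaehlerEquivOfFormallyEtale_symm_D_algebraMap, LinearMap.liftBaseChange_tmul, one_smul]
  change δ.liftKaehlerDifferential (KaehlerDifferential.D K (MvPolynomial s K) (MvPolynomial.X ⟨a i, hs ⟨i, rfl⟩⟩)) = _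
  rw [Derivation.liftKaehlerDifferential_comp_D, MvPolynomial.mkDerivation_X]
  have h1 : ∃ j, a j = a i := ⟨i, rfl⟩
  change w ⟨a i, _⟩ = v i
  have h2 : w ⟨a i, hs ⟨i, rfl⟩⟩ = v h1.choose := dif_pos h1
  rw [h2, ha.injective h1.choose_spec]

theorem der_aeval {M K : Type*} [Field M] [Field K] [Algebra K M] {σ : Type*} [Fintype σ] (D : Derivation K M M) (y : σ → M) (R : MvPolynomial σ K) :
    D (aeval y R) = ∑ s, aeval y (pderiv s R) * D (y s) := by
  classical
  induction R using MvPolynomial.induction_on with
  | C a => simp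
  | add p q hp hq =>
    rw [map_add, map_add, hp, hq, ← Finset.sum_add_distrib]
    refine Finset.sum_congr rfl fun s _ => ?_
    rw [map_add, map_add, add_mul]
  | mul_X p i hp =>
    rw [map_mul, aeval_X, D.leibniz, hp, smul_eq_mul, smul_eq_mul]
    have h1 : ∀ s, aeval y (pderiv s (p * X i)) * D (y s) = y i * (aeval y (pderiv s p) * D (y s)) + if s = i then aeval y p * D (y i) else 0 := by
      intro s
      rw [pderiv_mul, map_add, map_mul, map_mul, pderiv_X, aeval_X]
      split_ifs with h
      · subst h
        simp
        ring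
      · rw [Pi.single_eq_of_ne (Ne.symm h)]
        simp
        ring
    rw [Finset.sum_congr rfl fun s _ => h1 s, Finset.sum_add_distrib, ← Finset.mul_sum, Finset.sum_ite_eq' Finset.univ i, if_pos (Finset.mem_univ i)]
    ring

private theorem spA_smooth {k A E : Type*} [Field k] [CharZero k] [CommRing A] [IsDomain A] [Field E] [Algebra k A] [Algebra k E] [Algebra A E] [IsScalarTower k A E]
    (hinj : Function.Injective (algebraMap A E)) : Algebra.FormallySmooth A E := by
  have : FaithfulSMul A E := (faithfulSMul_iff_algebraMap_injective A E).2 hinj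
  let K := FractionRing A
  let _ : Algebra K E := FractionRing.liftAlgebra A E
  have : IsScalarTower A K E := FractionRing.isScalarTower_liftAlgebra A E
  have : CharZero E := charZero_of_injective_algebraMap (algebraMap k E).injective
  have : CharZero A := charZero_of_injective_algebraMap (algebraMap k A).injective
  have : CharZero K := charZero_of_injective_algebraMap (FaithfulSMul.algebraMap_injective A K)
  have h1 : Algebra.FormallySmooth A K := .of_isLocalization (nonZeroDivisors A)
  obtain ⟨s, hs⟩ := exists_isTranscendenceBasis K E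
  have h2 : Algebra.IsAlgebraic (IntermediateField.adjoin K (Set.range ((↑) : s → E))) E := hs.isAlgebraic_field
  have h3 : Algebra.IsSeparable (IntermediateField.adjoin K (Set.range ((↑) : s → E))) E := inferInstance
  have h4 : Algebra.FormallySmooth K E := .of_algebraicIndependent_of_isSeparable hs.1
  exact .comp A K E

private theorem spA_ext {k A E : Type*} [Field k] [CharZero k] [CommRing A] [IsDomain A] [Field E] [Algebra k A] [Algebra k E] [Algebra A E] [IsScalarTower k A E]
    (hinj : Function.Injective (algebraMap A E)) (d : Derivation k A E) : ∃ D : Derivation k E E, ∀ a, D (algebraMap A E a) = d a := by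
  have := spA_smooth (k := k) (A := A) (E := E) hinj
  have h1 : Function.Injective (KaehlerDifferential.mapBaseChange k A E) := by
    rw [← LinearMap.ker_eq_bot, LinearMap.ker_eq_bot']
    intro x hx
    obtain ⟨y, hy⟩ := (Algebra.H1Cotangent.exact_δ_mapBaseChange k A E x).1 hx
    rw [← hy, Subsingleton.elim y 0, map_zero]
  obtain ⟨p, hp⟩ := LinearMap.exists_leftInverse_of_injective (KaehlerDifferential.mapBaseChange k A E) (LinearMap.ker_eq_bot.2 h1)
  let l : Ω[A⁄k] →ₗ[A] E := d.liftKaehlerDifferential
  let l' : Ω[E⁄k] →ₗ[E] E := (l.liftBaseChange E).comp p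
  refine ⟨l'.compDer (KaehlerDifferential.D k E), fun a => ?_⟩
  have h2 : p (KaehlerDifferential.D k E (algebraMap A E a)) = 1 ⊗ₜ[A] KaehlerDifferential.D k A a := by
    have h3 := LinearMap.congr_fun hp (1 ⊗ₜ[A] KaehlerDifferential.D k A a)
    rw [LinearMap.comp_apply, KaehlerDifferential.mapBaseChange_tmul, one_smul, KaehlerDifferential.map_D, LinearMap.id_apply] at h3
    exact h3
  change l.liftBaseChange E (p (KaehlerDifferential.D k E (algebraMap A E a))) = _
  rw [h2, LinearMap.liftBaseChange_tmul, one_smul]
  exact Derivation.liftKaehlerDifferential_comp_D d a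

/-- If `V` satisfies the linearised equation of every algebraic relation of `x` over `k`, then there is a derivation over `k` with `D (x b) = V b`. -/
theorem spA_der {k σ E : Type*} [Fintype σ] [Field k] [CharZero k] [Field E] [Algebra k E] (x V : σ → E)
    (h : ∀ R : MvPolynomial σ k, aeval x R = 0 → ∑ b, aeval x (pderiv b R) * V b = 0) :
    ∃ D : Derivation k E E, ∀ b, D (x b) = V b := by
  classical
  let ψ : MvPolynomial σ k →ₐ[k] E := aeval x
  let δ : MvPolynomial σ k → E := fun R => ∑ b, ψ (pderiv b R) * V b
  have hδ : ∀ R R', ψ R = ψ R' → δ R = δ R' := by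
    intro R R' hRR
    have h1 := h (R - R') (by
      show ψ (R - R') = 0
      rw [map_sub, hRR, sub_self])
    have h2 : δ R - δ R' = 0 := by
      rw [← h1, ← Finset.sum_sub_distrib]
      refine Finset.sum_congr rfl fun b _ => ?_
      show ψ (pderiv b R) * V b - ψ (pderiv b R') * V b = ψ (pderiv b (R - R')) * V b
      rw [map_sub, map_sub, sub_mul]
    exact sub_eq_zero.1 h2
  have hadd : ∀ R R', δ (R + R') = δ R + δ R' := by
    intro R R'
    rw [← Finset.sum_add_distrib]
    refine Finset.sum_congr rfl fun b _ => ?_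
    rw [map_add, map_add, add_mul]
  have hmul : ∀ R R', δ (R * R') = ψ R * δ R' + ψ R' * δ R := by
    intro R R'
    rw [Finset.mul_sum, Finset.mul_sum, ← Finset.sum_add_distrib]
    refine Finset.sum_congr rfl fun b _ => ?_
    rw [Derivation.leibniz, smul_eq_mul, smul_eq_mul, map_add, map_mul, map_mul]
    ring
  have hX : ∀ b, δ (X b) = V b := by
    intro b
    show ∑ b', ψ (pderiv b' (X b)) * V b' = V b
    rw [Finset.sum_eq_single b]
    · rw [pderiv_X_self, map_one, one_mul]
    · intro b' _ hb
      rw [pderiv_X_of_ne hb.symm, map_zero, zero_mul]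
    · intro hb
      exact absurd (Finset.mem_univ b) hb
  have hsmul : ∀ (c : k) R, δ (c • R) = c • δ R := by
    intro c R
    rw [Finset.smul_sum]
    refine Finset.sum_congr rfl fun b _ => ?_
    rw [(pderiv b).map_smul, map_smul, smul_mul_assoc]
  let A : Subalgebra k E := ψ.range
  let r : A → MvPolynomial σ k := fun a => a.2.choose
  have hr : ∀ a : A, ψ (r a) = a := fun a => a.2.choose_spec
  let d : Derivation k A E := Derivation.mk'
    { toFun := fun a => δ (r a)
      map_add' := fun a b => by
        rw [← hadd]
        refine hδ _ _ ?_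
        rw [map_add, hr, hr, hr]
        rfl
      map_smul' := fun c a => by
        rw [RingHom.id_apply, ← hsmul]
        refine hδ _ _ ?_
        rw [map_smul, hr, hr]
        rfl }
    (fun a b => by
      show δ (r (a * b)) = (a : E) * δ (r b) + (b : E) * δ (r a)
      rw [← hr a, ← hr b, ← hmul]
      refine hδ _ _ ?_
      rw [map_mul, hr, hr, hr]
      rfl)
  have hd : ∀ R, d ⟨ψ R, R, rfl⟩ = δ R := fun R => hδ _ _ (hr ⟨ψ R, R, rfl⟩)
  obtain ⟨D, hD⟩ := spA_ext (A := A) (E := E) Subtype.val_injective d
  have hD' : ∀ R, D (ψ R) = δ R := fun R => (hD ⟨ψ R, R, rfl⟩).trans (hd R)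
  refine ⟨D, fun b => ?_⟩
  have h1 := hD' (X b)
  rw [hX] at h1
  have h2 : ψ (X b) = x b := aeval_X x b
  rw [h2] at h1
  exact h1

/-- an element killed by all derivations is a constant -/
theorem const_of_der {L E : Type} [Field L] [IsAlgClosed L] [CharZero L] [Field E] [Algebra L E] {x : E}
    (h : ∀ D : Derivation L E E, D x = 0) : ∃ c : L, algebraMap L E c = x := by
  by_cases hx : IsAlgebraic L x
  · have h0 : IsIntegral L x := hx.isIntegral
    obtain ⟨c, hc⟩ := minpoly.mem_range_of_degree_eq_one L x (IsAlgClosed.degree_eq_one_of_irreducible L (minpoly.irreducible h0))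
    exact ⟨c, hc⟩
  · have hx' : Transcendental L x := hx
    have ha : AlgebraicIndependent L (fun _ : Unit => x) := by
      rw [algebraicIndependent_unique_type_iff]
      exact hx'
    obtain ⟨D, hD⟩ := exists_derivation ha (fun _ => (1 : E))
    have h1 := hD ()
    rw [h D] at h1
    exact absurd h1 zero_ne_one

/-- tangent vectors at a generic point of `F = 0` are values of derivations -/
theorem exists_der_gen {L E : Type} [Field L] [CharZero L] [Field E] [Algebra L E] {n : ℕ} {F : MvPolynomial (Fin n) L} {xi : Fin n → E}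
    (hg : Gen F xi) {u : Fin n → E} (hu : ∑ i, aeval xi (pderiv i F) * u i = 0) : ∃ D : Derivation L E E, ∀ i, D (xi i) = u i := by
  refine spA_der xi u fun R hR => ?_
  obtain ⟨Q, rfl⟩ := (hg R).1 hR
  have hF : aeval xi F = 0 := (hg F).2 dvd_rfl
  have h1 : ∀ b, aeval xi (pderiv b (F * Q)) * u b = aeval xi Q * (aeval xi (pderiv b F) * u b) := by
    intro b
    rw [pderiv_mul, map_add, map_mul, map_mul, hF]
    ring
  rw [Finset.sum_congr rfl fun b _ => h1 b, ← Finset.mul_sum, hu, mul_zero]

end Pool.Agent.H3.SH
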