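import Pool.Agent.H3.SH.Tra

/-!
# SH TraG: transfer from the generic point, general form

If the polynomials `Ph k ∈ L[x][y]` have no common zero `y` over `Ω` for `x = xi` (the generic point), then (Nullstellensatz over `E`,
denominators cleared) some `b ∈ L[x]`, not divisible by `F`, is such that they have no common zero `y ∈ L^τ` for `x = R`, `F (R) = 0`,
`b (R) ≠ 0`.
-/

set_option autoImplicit false

open MvPolynomial

namespace Pool.Agent.H3.SH

section
variable {L : Type} [Field L] {ι : Type} {E : Type} [Field E] [Algebra L E] {τ : Type}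

private theorem TraG_clear {xi : ι → E}
    (hfrac : ∀ e : E, ∃ a b : MvPolynomial ι L, aeval xi b ≠ 0 ∧ e * aeval xi b = aeval xi a) (g : MvPolynomial τ E) :
    ∃ b : MvPolynomial ι L, aeval xi b ≠ 0 ∧ ∃ g' : MvPolynomial τ (MvPolynomial ι L),
      map (aeval xi : MvPolynomial ι L →ₐ[L] E).toRingHom g' = C (aeval xi b) * g := by
  induction g using MvPolynomial.induction_on with
  | C e =>
    obtain ⟨a, b, hb, hab⟩ := hfrac e
    refine ⟨b, hb, C a, ?_⟩
    rw [map_C, ← C_mul, mul_comm, hab]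
    rfl
  | add p q hp hq =>
    obtain ⟨b, hb, p', hp'⟩ := hp
    obtain ⟨c, hc, q', hq'⟩ := hq
    refine ⟨b * c, by rw [map_mul]; exact mul_ne_zero hb hc, C c * p' + C b * q', ?_⟩
    rw [map_add, map_mul, map_mul, hp', hq', map_C, map_C]
    simp only [AlgHom.toRingHom_eq_coe, RingHom.coe_coe, map_mul]
    ring
  | mul_X p i hp =>
    obtain ⟨b, hb, p', hp'⟩ := hp
    refine ⟨b, hb, p' * X i, ?_⟩
    rw [map_mul, hp', map_X]
    ring

private theorem TraG_ideal {xi : ι → E}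
    (hfrac : ∀ e : E, ∃ a b : MvPolynomial ι L, aeval xi b ≠ 0 ∧ e * aeval xi b = aeval xi a)
    (I' : Ideal (MvPolynomial τ (MvPolynomial ι L))) {g : MvPolynomial τ E}
    (hg : g ∈ I'.map (map (aeval xi : MvPolynomial ι L →ₐ[L] E).toRingHom)) :
    ∃ b : MvPolynomial ι L, aeval xi b ≠ 0 ∧ ∃ g' ∈ I',
      map (aeval xi : MvPolynomial ι L →ₐ[L] E).toRingHom g' = C (aeval xi b) * g := by
  unfold Ideal.map at hg
  induction hg using Submodule.span_induction with
  | mem x hx =>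
    obtain ⟨g', hg', rfl⟩ := hx
    refine ⟨1, by simp, g', hg', by simp⟩
  | zero => exact ⟨1, by simp, 0, I'.zero_mem, by simp⟩
  | add p q _ _ hp hq =>
    obtain ⟨b, hb, p', hpI, hp'⟩ := hp
    obtain ⟨c, hc, q', hqI, hq'⟩ := hq
    refine ⟨b * c, by rw [map_mul]; exact mul_ne_zero hb hc, C c * p' + C b * q', ?_, ?_⟩
    · exact I'.add_mem (I'.mul_mem_left _ hpI) (I'.mul_mem_left _ hqI)
    · rw [map_add, map_mul, map_mul, hp', hq', map_C, map_C]
      simp only [AlgHom.toRingHom_eq_coe, RingHom.coe_coe, map_mul]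
      ring
  | smul a p _ hp =>
    obtain ⟨b, hb, p', hpI, hp'⟩ := hp
    obtain ⟨c, hc, a', ha'⟩ := TraG_clear hfrac a
    refine ⟨c * b, by rw [map_mul]; exact mul_ne_zero hc hb, a' * p', I'.mul_mem_left _ hpI, ?_⟩
    rw [map_mul, hp', ha', smul_eq_mul, map_mul, C_mul]
    ring

end

theorem tra_gen {L : Type} [Field L] {ι : Type} {F : MvPolynomial ι L} {E : Type} [Field E] [Algebra L E] {xi : ι → E}
    (hg : Gen F xi) (hfrac : ∀ e : E, ∃ a b : MvPolynomial ι L, aeval xi b ≠ 0 ∧ e * aeval xi b = aeval xi a)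
    {Ω : Type} [Field Ω] [IsAlgClosed Ω] [Algebra E Ω] [Algebra L Ω] [IsScalarTower L E Ω] {τ : Type} [Finite τ] {κ : Type}
    (Ph : κ → MvPolynomial τ (MvPolynomial ι L))
    (hNL : ∀ y : τ → Ω, ∃ k, eval₂ (aeval (fun i => algebraMap E Ω (xi i)) : MvPolynomial ι L →ₐ[L] Ω).toRingHom y (Ph k) ≠ 0) :
    ∃ b : MvPolynomial ι L, ¬ F ∣ b ∧ ∀ R : ι → L, eval R F = 0 → eval R b ≠ 0 → ∀ y : τ → L,
      ∃ k, eval y (map (eval R) (Ph k)) ≠ 0 := by
  classical
  set Φ : MvPolynomial τ (MvPolynomial ι L) →+* MvPolynomial τ E :=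
    map (aeval xi : MvPolynomial ι L →ₐ[L] E).toRingHom with hΦ
  let I' : Ideal (MvPolynomial τ (MvPolynomial ι L)) := Ideal.span (Set.range Ph)
  have h1 : (1 : MvPolynomial τ E) ∈ (I'.map Φ).radical := by
    rw [← vanishingIdeal_zeroLocus_eq_radical (K := Ω) (I'.map Φ), mem_vanishingIdeal_iff]
    intro y hy
    exfalso
    obtain ⟨k, hk⟩ := hNL y
    apply hk
    have h2 := hy (Φ (Ph k)) (Ideal.mem_map_of_mem _ (Ideal.subset_span ⟨k, rfl⟩))
    rw [hΦ, aeval_def, eval₂_map] at h2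
    rw [← h2]
    congr 1
    refine MvPolynomial.ringHom_ext ?_ ?_
    · intro c
      simp only [AlgHom.toRingHom_eq_coe, RingHom.coe_coe, RingHom.comp_apply, aeval_C]
      rw [← IsScalarTower.algebraMap_apply]
    · intro i
      simp
  have h2 : (1 : MvPolynomial τ E) ∈ I'.map Φ := by
    obtain ⟨k, hk⟩ := h1
    rwa [one_pow] at hk
  obtain ⟨b, hb, g', hg', hgg⟩ := TraG_ideal hfrac I' h2
  rw [mul_one] at hgg
  refine ⟨b, fun h => hb ((hg b).2 h), fun R hR hbR y => ?_⟩
  by_contra hcon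
  push Not at hcon
  apply hbR
  let Ψ : MvPolynomial τ (MvPolynomial ι L) →+* L := (eval y).comp (map (eval R))
  have hker : ∀ D, Φ D = 0 → Ψ D = 0 := by
    intro D hD
    have h1 : map (eval R) D = 0 := by
      ext d
      rw [coeff_map, coeff_zero]
      have h2 : coeff d (Φ D) = 0 := by rw [hD, coeff_zero]
      rw [hΦ, coeff_map] at h2
      obtain ⟨q, hq⟩ := (hg (coeff d D)).1 h2
      rw [hq, map_mul, hR, zero_mul]
    change eval y (map (eval R) D) = 0
    rw [h1, map_zero]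
  have hI : Ψ g' = 0 := by
    have h1 : I' ≤ RingHom.ker Ψ := by
      rw [Ideal.span_le]
      rintro x ⟨k, rfl⟩
      exact hcon k
    exact h1 hg'
  have h3 : Ψ (g' - C b) = 0 := hker _ (by
    rw [map_sub, hΦ, hgg, map_C]
    exact sub_self _)
  rw [map_sub, hI, zero_sub, neg_eq_zero] at h3
  have h4 : Ψ (C b) = eval R b := by
    change eval y (map (eval R) (C b)) = _
    rw [map_C, eval_C]
  rw [← h4, h3]

end Pool.Agent.H3.SH
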