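import Pool.Agent.H3.SH.Ext
import Pool.Agent.H3.SH.Der
import Pool.Agent.H3.SH.TraG

/-!
# SH Ber: Bertini's theorem for the sections of `X` with `span (P, u_0, .., u_4)` (note 5778 (2))

`ber_gen`: the generic section is smooth.  `x = s_0 P + ∑ s_(k+1) u_k`, `N = grad F (x)`.  Euler (`IsHomogeneous.sum_X_mul_pderiv`):
`F (x) = 0`.  Derivations of `Ω` over `L` with prescribed values `D (u (k, i))` (`exists_derivation`), `der_aeval`:
`0 = D (F (x)) = N . D x = ∑_k s_(k+1) N . D u_k`.  With `D u_k = e_j` for one `k`: `s_(k+1) N_j = 0`.  If `N = 0`, then `x = 0`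
(`smooth_ext`), so `s_(k+1) ≠ 0` for some `k` (`P ≠ 0`), `u_k` is in the span of `P` and the other four `u_l`, and `D x = 0` for `D u_k = w`, `D u_l = 0`
gives `s_(k+1) w ∈ span (P, u_0, .., u_4)`, which has dimension `≤ 5 < n`, for all `w`: contradiction.  If `s = (s_0, 0, .., 0)`: `x = s_0 P`,
`grad F (P) . u_0 = 0` (homogeneity), apply `D` with `D u_0 = e_j`: `grad F (P) = 0`: contradiction to smoothness at `P ≠ 0`.

`exists_d1`: `E = FractionRing (MvPolynomial (Fin 5 × Fin n) L)`, `Ω = AlgebraicClosure E`, generic `u`; `tra_gen` with `F := 0` (`Gen 0 u`),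
`ι = Fin 5 × Fin n`, `τ = Fin 6`, for every `j : Fin 6` the polynomials `N (x) . P`, `N (x) . u_k` (`x = y_0 P + ∑ y_(k+1) u_k`) and `y_j - 1`; it gives `b_j ≠ 0`;
`Δ = ∏ b_j`.  A singular `s ≠ 0` can be scaled to `s_j = 1`.
-/

set_option autoImplicit false

open MvPolynomial

namespace Pool.Agent.H3.SH

/-- the point `s_0 P + ∑ s_(k+1) u_k` -/
def sec {A : Type} [CommRing A] {n : ℕ} (P : Fin n → A) (u : Fin 5 × Fin n → A) (s : Fin 6 → A) : Fin n → A :=
  fun i => s 0 * P i + ∑ k : Fin 5, s k.succ * u (k, i)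

section basics

variable {L A B : Type} [Field L] [CommRing A] [Algebra L A] [CommRing B] [Algebra L B] {n : ℕ}

private theorem ber_hom {m : ℕ} {G : MvPolynomial (Fin n) L} (hG : G.IsHomogeneous m) (c : A) (a : Fin n → A) :
    aeval (fun i => c * a i) G = c ^ m * aeval a G := by
  rw [aeval_def, aeval_def, eval₂_eq', eval₂_eq', Finset.mul_sum]
  refine Finset.sum_congr rfl fun d hd => ?_
  have h1 : ∑ i, d i = m := by
    have h := hG (mem_support_iff.1 hd)
    rw [Finsupp.weight_apply, Finsupp.sum_fintype _ _ fun i => by simp] at h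
    simpa using h
  simp only [mul_pow]
  rw [Finset.prod_mul_distrib, Finset.prod_pow_eq_pow_sum, h1]
  ring

private theorem sec_map (φ : A →ₐ[L] B) (P : Fin n → A) (u : Fin 5 × Fin n → A) (s : Fin 6 → A) (i : Fin n) :
    φ (sec P u s i) = sec (fun i => φ (P i)) (fun p => φ (u p)) (fun j => φ (s j)) i := by
  simp only [sec, map_add, map_mul, map_sum]

private theorem sec_mul (c : A) (P : Fin n → A) (u : Fin 5 × Fin n → A) (s : Fin 6 → A) :
    sec P u (fun j => c * s j) = fun i => c * sec P u s i := by
  funext i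
  simp only [sec, mul_add, Finset.mul_sum, mul_assoc]

private theorem ber_map (φ : A →ₐ[L] B) (F : MvPolynomial (Fin n) L) (P : Fin n → A) (u : Fin 5 × Fin n → A) (s : Fin 6 → A)
    (w : Fin n → A) :
    φ (∑ i, aeval (sec P u s) (pderiv i F) * w i) =
      ∑ i, aeval (sec (fun i => φ (P i)) (fun p => φ (u p)) (fun j => φ (s j))) (pderiv i F) * φ (w i) := by
  rw [map_sum]
  refine Finset.sum_congr rfl fun i _ => ?_
  rw [map_mul, comp_aeval_apply]
  congr 3
  funext i
  exact sec_map φ P u s i

end basics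

theorem ber_gen {L Ω : Type} [Field L] [IsAlgClosed L] [CharZero L] [Field Ω] [Algebra L Ω] {n : ℕ} (hn : 6 ≤ n)
    {F : MvPolynomial (Fin n) L} (hF : F.IsHomogeneous 7) (hs : Pool.Agent.H8.SD.Smooth L F) {P : Fin n → L} (hP0 : P ≠ 0)
    (hP : eval P F = 0) {u : Fin 5 × Fin n → Ω} (hu : AlgebraicIndependent L u) {s : Fin 6 → Ω} (hs0 : s ≠ 0)
    (h0 : ∑ i, aeval (sec (fun i => algebraMap L Ω (P i)) u s) (pderiv i F) * algebraMap L Ω (P i) = 0)
    (h1 : ∀ k, ∑ i, aeval (sec (fun i => algebraMap L Ω (P i)) u s) (pderiv i F) * u (k, i) = 0) : False := by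
  classical
  have : CharZero Ω := charZero_of_injective_algebraMap (algebraMap L Ω).injective
  set P' : Fin n → Ω := fun i => algebraMap L Ω (P i) with hP'
  set x : Fin n → Ω := sec P' u s with hx
  set N : Fin n → Ω := fun i => aeval x (pderiv i F) with hN
  have hxi : ∀ i, x i = s 0 * P' i + ∑ k : Fin 5, s k.succ * u (k, i) := fun i => rfl
  -- `N` is orthogonal to `x`
  have hdot : ∀ (c : Ω) (d : Fin 5 → Ω), ∑ i, N i * (c * P' i + ∑ k, d k * u (k, i)) = 0 := by
    intro c d
    have e1 : ∀ i, N i * (c * P' i + ∑ k, d k * u (k, i)) =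
        c * (N i * P' i) + ∑ k, d k * (N i * u (k, i)) := by
      intro i
      rw [mul_add, Finset.mul_sum]
      congr 1
      · ring
      · exact Finset.sum_congr rfl fun k _ => by ring
    rw [Finset.sum_congr rfl fun i _ => e1 i, Finset.sum_add_distrib, ← Finset.mul_sum, Finset.sum_comm]
    have e2 : ∀ k, ∑ i, d k * (N i * u (k, i)) = 0 := by
      intro k
      rw [← Finset.mul_sum]
      have := h1 k
      change ∑ i, N i * u (k, i) = 0 at this
      rw [this, mul_zero]
    rw [Finset.sum_congr rfl fun k _ => e2 k, Finset.sum_const_zero, add_zero]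
    change ∑ i, N i * P' i = 0 at h0
    rw [h0, mul_zero]
  have hNx : ∑ i, N i * x i = 0 := hdot (s 0) fun k => s k.succ
  -- Euler
  have hFx : aeval x F = 0 := by
    have e1 := hF.sum_X_mul_pderiv
    have e2 := congrArg (aeval x) e1
    rw [map_sum, map_nsmul] at e2
    have e3 : ∑ i, aeval x (X i * pderiv i F) = ∑ i, N i * x i := by
      refine Finset.sum_congr rfl fun i _ => ?_
      rw [map_mul, aeval_X, mul_comm]
    rw [e3, hNx] at e2
    have e4 : (7 : Ω) * aeval x F = 0 := by
      have e5 := e2.symm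
      rw [nsmul_eq_mul] at e5
      exact_mod_cast e5
    exact (mul_eq_zero.1 e4).resolve_left (by norm_num)
  -- derivations
  have hDx : ∀ (D : Derivation L Ω Ω) (i : Fin n), D (x i) =
      (D (s 0) * P' i + ∑ k, D (s k.succ) * u (k, i)) + ∑ k, s k.succ * D (u (k, i)) := by
    intro D i
    rw [hxi, map_add, D.leibniz, map_sum]
    have e1 : D (P' i) = 0 := D.map_algebraMap (P i)
    have e2 : ∀ k : Fin 5, D (s k.succ * u (k, i)) = D (s k.succ) * u (k, i) + s k.succ * D (u (k, i)) := by
      intro k
      rw [D.leibniz, smul_eq_mul, smul_eq_mul]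
      ring
    rw [e1, Finset.sum_congr rfl fun k _ => e2 k, Finset.sum_add_distrib, smul_zero, smul_eq_mul, zero_add]
    ring
  have hD0 : ∀ D : Derivation L Ω Ω, ∑ i, N i * ∑ k, s k.succ * D (u (k, i)) = 0 := by
    intro D
    have e1 := der_aeval D x F
    rw [hFx, map_zero] at e1
    have e2 : ∑ i, N i * D (x i) = 0 := e1.symm
    rw [Finset.sum_congr rfl fun i _ => by rw [hDx D i, mul_add], Finset.sum_add_distrib,
      hdot (D (s 0)) fun k => D (s k.succ), zero_add] at e2
    exact e2
  have hsN : ∀ (k : Fin 5) (j : Fin n), s k.succ * N j = 0 := by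
    intro k j
    obtain ⟨D, hD⟩ := exists_derivation hu fun p => if p = (k, j) then (1 : Ω) else 0
    have e1 := hD0 D
    have e2 : ∀ i, ∑ l : Fin 5, s l.succ * D (u (l, i)) = if i = j then s k.succ else 0 := by
      intro i
      simp only [hD, Prod.mk.injEq]
      by_cases hij : i = j
      · rw [if_pos hij, Finset.sum_eq_single k]
        · rw [if_pos ⟨rfl, hij⟩, mul_one]
        · intro l _ hl
          rw [if_neg (fun h => hl h.1), mul_zero]
        · intro h
          exact absurd (Finset.mem_univ k) h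
      · rw [if_neg hij]
        refine Finset.sum_eq_zero fun l _ => ?_
        rw [if_neg (fun h => hij h.2), mul_zero]
    rw [Finset.sum_congr rfl fun i _ => by rw [e2 i], Finset.sum_eq_single j, if_pos rfl, mul_comm] at e1
    · exact e1
    · intro i _ hi
      rw [if_neg hi, mul_zero]
    · intro h
      exact absurd (Finset.mem_univ j) h
  by_cases hNz : ∀ j, N j = 0
  · -- `x = 0`
    have hx0 : x = 0 := by
      by_contra hne
      obtain ⟨i, hi⟩ := smooth_ext hs x hne
      exact hi (hNz i)
    obtain ⟨k, hk⟩ : ∃ k : Fin 5, s k.succ ≠ 0 := by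
      by_contra hcon
      push Not at hcon
      have e1 : s 0 ≠ 0 := by
        intro h
        apply hs0
        funext j
        refine Fin.cases h hcon j
      apply hP0
      funext i
      have e2 : x i = 0 := congrFun hx0 i
      rw [hxi, Finset.sum_eq_zero fun k _ => by rw [hcon k, zero_mul], add_zero] at e2
      have e3 := (mul_eq_zero.1 e2).resolve_left e1
      exact (map_eq_zero _).1 e3
    let T : (Fin 6 → Ω) →ₗ[Ω] (Fin n → Ω) :=
      { toFun := fun c => sec P' u c
        map_add' := fun c d => by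
          funext i
          simp only [sec, Pi.add_apply, add_mul, Finset.sum_add_distrib]
          ring
        map_smul' := fun a c => by
          rw [RingHom.id_apply]
          exact sec_mul a P' u c }
    have hT : ∀ c, T c = sec P' u c := fun c => rfl
    have hsurj : Function.Surjective T := by
      intro w
      obtain ⟨D, hD⟩ := exists_derivation hu fun p => if p.1 = k then w p.2 else 0
      have e1 : ∀ i, (D (s 0) * P' i + ∑ l, D (s l.succ) * u (l, i)) + s k.succ * w i = 0 := by
        intro i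
        have e2 := hDx D i
        have e3 : x i = 0 := congrFun hx0 i
        rw [e3, map_zero] at e2
        have e4 : ∑ l : Fin 5, s l.succ * D (u (l, i)) = s k.succ * w i := by
          rw [Finset.sum_eq_single k]
          · rw [hD, if_pos rfl]
          · intro l _ hl
            rw [hD, if_neg hl, mul_zero]
          · intro h
            exact absurd (Finset.mem_univ k) h
        rw [e4] at e2
        exact e2.symm
      refine ⟨fun j => (-(s k.succ)⁻¹) * D (s j), ?_⟩
      rw [hT, sec_mul]
      funext i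
      have e2 := e1 i
      have e3 : sec P' u (fun j => D (s j)) i = -(s k.succ * w i) := by
        simp only [sec]
        linear_combination e2
      rw [e3]
      field_simp
    have hrk := LinearMap.finrank_range_add_finrank_ker T
    rw [LinearMap.range_eq_top.2 hsurj, finrank_top, Module.finrank_fin_fun, Module.finrank_fin_fun] at hrk
    have hker : 1 ≤ Module.finrank Ω (LinearMap.ker T) := by
      rw [Submodule.one_le_finrank_iff]
      intro h
      have e1 : s ∈ LinearMap.ker T := by
        rw [LinearMap.mem_ker, hT]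
        exact hx0
      rw [h, Submodule.mem_bot] at e1
      exact hs0 e1
    omega
  · -- `x = s_0 P`
    push Not at hNz
    obtain ⟨j, hj⟩ := hNz
    have hsz : ∀ k : Fin 5, s k.succ = 0 := fun k => (mul_eq_zero.1 (hsN k j)).resolve_right hj
    have hxs : x = fun i => s 0 * P' i := by
      funext i
      rw [hxi, Finset.sum_eq_zero fun k _ => by rw [hsz k, zero_mul], add_zero]
    have hNi : ∀ i, N i = s 0 ^ 6 * algebraMap L Ω (eval P (pderiv i F)) := by
      intro i
      change aeval x (pderiv i F) = _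
      rw [hxs, ber_hom (hF.pderiv (i := i))]
      congr 1
      have e1 := comp_aeval_apply (R := L) (f := P) (Algebra.ofId L Ω) (pderiv i F)
      have e1' : aeval P (pderiv i F) = eval P (pderiv i F) := by rw [MvPolynomial.aeval_eq_eval]
      rw [e1'] at e1
      exact e1.symm
    have hs6 : s 0 ^ 6 ≠ 0 := by
      intro h
      apply hj
      rw [hNi, h, zero_mul]
    have e1 : ∑ i, algebraMap L Ω (eval P (pderiv i F)) * u (0, i) = 0 := by
      have e2 := h1 0
      change ∑ i, N i * u (0, i) = 0 at e2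
      rw [Finset.sum_congr rfl fun i _ => by rw [hNi i, mul_assoc], ← Finset.mul_sum] at e2
      exact (mul_eq_zero.1 e2).resolve_left hs6
    obtain ⟨D, hD⟩ := exists_derivation hu fun p => if p = (0, j) then (1 : Ω) else 0
    have e2 := congrArg D e1
    rw [map_sum, map_zero] at e2
    have e3 : ∀ i, D (algebraMap L Ω (eval P (pderiv i F)) * u (0, i)) =
        if i = j then algebraMap L Ω (eval P (pderiv j F)) else 0 := by
      intro i
      rw [D.leibniz, D.map_algebraMap, hD, smul_zero, add_zero, smul_eq_mul]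
      by_cases hij : i = j
      · rw [hij, if_pos rfl, if_pos rfl, mul_one]
      · rw [if_neg (fun h => hij (Prod.mk.inj h).2), if_neg hij, mul_zero]
    rw [Finset.sum_congr rfl fun i _ => e3 i, Finset.sum_ite_eq' Finset.univ j, if_pos (Finset.mem_univ j)] at e2
    apply hj
    rw [hNi, e2, mul_zero]

theorem exists_d1 {L : Type} [Field L] [IsAlgClosed L] [CharZero L] {n : ℕ} (hn : 6 ≤ n) {F : MvPolynomial (Fin n) L}
    (hF : F.IsHomogeneous 7) (hs : Pool.Agent.H8.SD.Smooth L F) {P : Fin n → L} (hP0 : P ≠ 0) (hP : eval P F = 0) :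
    ∃ Δ : MvPolynomial (Fin 5 × Fin n) L, Δ ≠ 0 ∧ ∀ u : Fin 5 × Fin n → L, eval u Δ ≠ 0 → ∀ s : Fin 6 → L, s ≠ 0 →
      ¬ (∑ i, eval (sec P u s) (pderiv i F) * P i = 0 ∧ ∀ k, ∑ i, eval (sec P u s) (pderiv i F) * u (k, i) = 0) := by
  classical
  let ι : Type := Fin 5 × Fin n
  let Q : Type := MvPolynomial ι L
  let E : Type := FractionRing Q
  let Ω : Type := AlgebraicClosure E
  let xi : ι → E := fun p => algebraMap Q E (X p)
  have hxi : ∀ p : MvPolynomial ι L, aeval xi p = algebraMap Q E p := by
    intro p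
    have h1 : (aeval xi : MvPolynomial ι L →ₐ[L] E) = IsScalarTower.toAlgHom L Q E := by
      refine MvPolynomial.algHom_ext fun i => ?_
      rw [aeval_X]
      rfl
    rw [h1]
    rfl
  have hg : Gen (0 : MvPolynomial ι L) xi := by
    intro G
    rw [hxi, map_eq_zero_iff _ (IsFractionRing.injective Q E), zero_dvd_iff]
  have hfrac : ∀ e : E, ∃ a b : MvPolynomial ι L, aeval xi b ≠ 0 ∧ e * aeval xi b = aeval xi a := by
    intro e
    obtain ⟨a, b, hb, he⟩ := IsFractionRing.div_surjective (A := Q) e
    have hb' : aeval xi b ≠ 0 := by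
      rw [hxi]
      exact fun h => nonZeroDivisors.ne_zero hb ((map_eq_zero_iff _ (IsFractionRing.injective Q E)).1 h)
    refine ⟨a, b, hb', ?_⟩
    rw [hxi, hxi, ← he, div_mul_cancel₀]
    rw [← hxi]
    exact hb'
  let u0 : ι → Ω := fun p => algebraMap E Ω (xi p)
  have hu0 : AlgebraicIndependent L u0 := by
    rw [algebraicIndependent_iff_injective_aeval, injective_iff_map_eq_zero]
    intro p hp
    have h1 : aeval u0 p = algebraMap E Ω (aeval xi p) := by
      have := comp_aeval_apply (R := L) (f := xi) (IsScalarTower.toAlgHom L E Ω) p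
      exact this.symm
    rw [h1, map_eq_zero, hxi, map_eq_zero_iff _ (IsFractionRing.injective Q E)] at hp
    exact hp
  let A : Type := MvPolynomial (Fin 6) (MvPolynomial ι L)
  let PA : Fin n → A := fun i => algebraMap L A (P i)
  let uA : ι → A := fun p => C (X p)
  let NA : Fin n → A := fun i => aeval (sec PA uA (fun j => (X j : A))) (pderiv i F)
  let Ph : Fin 6 → Option (Option (Fin 5)) → A := fun j κ =>
    match κ with
    | none => (X j : A) - 1
    | some none => ∑ i, NA i * PA i
    | some (some k) => ∑ i, NA i * uA (k, i)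
  have hex : ∀ j : Fin 6, ∃ b : MvPolynomial ι L, ¬ (0 : MvPolynomial ι L) ∣ b ∧ ∀ R : ι → L,
      eval R (0 : MvPolynomial ι L) = 0 → eval R b ≠ 0 → ∀ y : Fin 6 → L,
      ∃ k, eval y (map (eval R) (Ph j k)) ≠ 0 := by
    intro j
    refine tra_gen hg hfrac (Ω := Ω) (Ph j) fun y => ?_
    by_contra hcon
    push Not at hcon
    let Θ : A →ₐ[L] Ω := aevalTower (aeval u0 : MvPolynomial ι L →ₐ[L] Ω) y
    have hΘ : ∀ a : A, eval₂ (aeval (fun i => algebraMap E Ω (xi i)) : MvPolynomial ι L →ₐ[L] Ω).toRingHom y a = Θ a :=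
      fun a => rfl
    have hX : (fun j => Θ (X j)) = y := by
      funext j
      exact aevalTower_X _ _ j
    have hu : (fun p => Θ (uA p)) = u0 := by
      funext p
      change Θ (C (X p)) = u0 p
      rw [aevalTower_C, aeval_X]
    have hPP : (fun i => Θ (PA i)) = fun i => algebraMap L Ω (P i) := by
      funext i
      exact Θ.commutes (P i)
    refine ber_gen hn hF hs hP0 hP hu0 (s := y) ?_ ?_ ?_
    · intro hy
      have h1 := hcon none
      rw [hΘ] at h1
      change Θ (X j - 1) = 0 at h1
      rw [map_sub, map_one, sub_eq_zero] at h1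
      have h2 := congrFun hX j
      change Θ (X j) = y j at h2
      rw [h2, hy] at h1
      exact zero_ne_one h1
    · have h1 := hcon (some none)
      rw [hΘ] at h1
      change Θ (∑ i, aeval (sec PA uA (fun j => (X j : A))) (pderiv i F) * PA i) = 0 at h1
      rw [ber_map, hX, hu, hPP] at h1
      have h2 : ∀ i, Θ (PA i) = algebraMap L Ω (P i) := fun i => Θ.commutes (P i)
      simp only [h2] at h1
      exact h1
    · intro k
      have h1 := hcon (some (some k))
      rw [hΘ] at h1
      change Θ (∑ i, aeval (sec PA uA (fun j => (X j : A))) (pderiv i F) * uA (k, i)) = 0 at h1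
      rw [ber_map Θ F PA uA (fun j => (X j : A)) fun i => uA (k, i), hX, hu, hPP] at h1
      have h2 : ∀ i, Θ (uA (k, i)) = u0 (k, i) := fun i => congrFun hu (k, i)
      simp only [h2] at h1
      exact h1
  choose b hb1 hb2 using hex
  refine ⟨∏ j, b j, ?_, ?_⟩
  · rw [Finset.prod_ne_zero_iff]
    intro j _ h
    exact hb1 j (by rw [h])
  · intro u hu s hs0 ⟨h0, h1⟩
    obtain ⟨j, hj⟩ := Function.ne_iff.1 hs0
    rw [Pi.zero_apply] at hj
    have hbj : eval u (b j) ≠ 0 := by
      rw [map_prod, Finset.prod_ne_zero_iff] at hu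
      exact hu j (Finset.mem_univ j)
    obtain ⟨κ, hκ⟩ := hb2 j u (map_zero _) hbj fun l => (s j)⁻¹ * s l
    apply hκ
    let Ψ : A →ₐ[L] L := aevalTower (aeval u : MvPolynomial ι L →ₐ[L] L) fun l => (s j)⁻¹ * s l
    have hΨ : ∀ a : A, eval (fun l => (s j)⁻¹ * s l) (map (eval u) a) = Ψ a := by
      intro a
      rw [eval_map]
      rfl
    have hX : (fun j => Ψ (X j)) = fun l => (s j)⁻¹ * s l := by
      funext l
      exact aevalTower_X _ _ l
    have hu' : (fun p => Ψ (uA p)) = u := by
      funext p
      change Ψ (C (X p)) = u p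
      rw [aevalTower_C, aeval_X]
    have hPP : (fun i => Ψ (PA i)) = P := by
      funext i
      exact Ψ.commutes (P i)
    have hsc : ∀ i, aeval (sec P u fun l => (s j)⁻¹ * s l) (pderiv i F) = (s j)⁻¹ ^ 6 * eval (sec P u s) (pderiv i F) := by
      intro i
      rw [sec_mul, ber_hom (hF.pderiv (i := i))]
      have e1 : aeval (sec P u s) (pderiv i F) = eval (sec P u s) (pderiv i F) := by
        rw [MvPolynomial.aeval_eq_eval]
      rw [e1]
    rw [hΨ]
    match κ with
    | none =>
      change Ψ (X j - 1) = 0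
      have h2 := congrFun hX j
      change Ψ (X j) = _ at h2
      rw [map_sub, map_one, h2, inv_mul_cancel₀ hj, sub_self]
    | some none =>
      change Ψ (∑ i, aeval (sec PA uA (fun j => (X j : A))) (pderiv i F) * PA i) = 0
      rw [ber_map, hX, hu', hPP]
      have h2 : ∀ i, Ψ (PA i) = P i := fun i => congrFun hPP i
      simp only [h2, hsc, mul_assoc]
      rw [← Finset.mul_sum, h0, mul_zero]
    | some (some k) =>
      change Ψ (∑ i, aeval (sec PA uA (fun j => (X j : A))) (pderiv i F) * uA (k, i)) = 0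
      rw [ber_map Ψ F PA uA (fun j => (X j : A)) fun i => uA (k, i), hX, hu', hPP]
      have h2 : ∀ i, Ψ (uA (k, i)) = u (k, i) := fun i => congrFun hu' (k, i)
      simp only [h2, hsc, mul_assoc]
      rw [← Finset.mul_sum, h1 k, mul_zero]

end Pool.Agent.H3.SH
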