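import Mathlib

/-!
# SH FinU: a point on finitely many lines

If only finitely many of the lines through `P` in a set are given and the space has dimension at least six, then some subspace `U ∋ P` of dimension five
contains none of them.
-/

set_option autoImplicit false

namespace Pool.Agent.H3.SH

private theorem finU_step {L V : Type} [Field L] [AddCommGroup V] [Module L V] [FiniteDimensional L V] {P : V} (hP : P ≠ 0)
    (H : Submodule L V) (hPH : P ∈ H) (k : ℕ) (h1 : 1 ≤ k) (hk : k ≤ Module.finrank L H) :
    ∃ U : Submodule L V, U ≤ H ∧ P ∈ U ∧ Module.finrank L U = k := by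
  induction k, h1 using Nat.le_induction with
  | base =>
    exact ⟨L ∙ P, (Submodule.span_singleton_le_iff_mem P H).2 hPH, Submodule.mem_span_singleton_self P, finrank_span_singleton hP⟩
  | succ k hk1 ih =>
    obtain ⟨U, hUH, hPU, hU⟩ := ih (by omega)
    have hlt : U < H := by
      refine lt_of_le_of_ne hUH ?_
      rintro rfl
      omega
    obtain ⟨x, hxH, hxU⟩ := SetLike.exists_of_lt hlt
    have hx0 : x ≠ 0 := by
      rintro rfl
      exact hxU U.zero_mem
    refine ⟨U ⊔ L ∙ x, sup_le hUH ((Submodule.span_singleton_le_iff_mem x H).2 hxH), Submodule.mem_sup_left hPU, ?_⟩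
    have h2 := Submodule.finrank_sup_add_finrank_inf_eq U (L ∙ x)
    have h3 : U ⊓ L ∙ x = ⊥ := by
      rw [eq_bot_iff]
      rintro y ⟨hy1, hy2⟩
      obtain ⟨c, rfl⟩ := Submodule.mem_span_singleton.1 hy2
      by_cases hc : c = 0
      · simp [hc]
      · exact absurd ((Submodule.smul_mem_iff U hc).1 hy1) hxU
    rw [h3, finrank_bot, add_zero, hU, finrank_span_singleton hx0] at h2
    exact h2

theorem exists_U {L V : Type} [Field L] [Infinite L] [AddCommGroup V] [Module L V] [FiniteDimensional L V] (hV : 6 ≤ Module.finrank L V)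
    {P : V} (hP : P ≠ 0) {S : Set (Submodule L V)} (hS : S.Finite) (h2 : ∀ W ∈ S, Module.finrank L W = 2 ∧ P ∈ W) :
    ∃ U : Submodule L V, Module.finrank L U = 5 ∧ P ∈ U ∧ ∀ W ∈ S, ¬ W ≤ U := by
  classical
  -- the functionals which vanish at `P`
  let A : Submodule L (Module.Dual L V) := LinearMap.ker (Module.Dual.eval L V P)
  let s : Finset (Subspace L A) := hS.toFinset.image fun W => (W.dualAnnihilator).comap A.subtype
  have htop : (⊤ : Subspace L A) ∉ s := by
    intro h
    obtain ⟨W, hW, hWt⟩ := Finset.mem_image.1 h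
    rw [Set.Finite.mem_toFinset] at hW
    obtain ⟨hW2, hPW⟩ := h2 W hW
    -- a functional which vanishes at `P` but not on `W`
    have hlt : L ∙ P < W := by
      refine lt_of_le_of_ne ((Submodule.span_singleton_le_iff_mem P W).2 hPW) ?_
      intro h3
      rw [← h3, finrank_span_singleton hP] at hW2
      omega
    obtain ⟨x, hxW, hxP⟩ := SetLike.exists_of_lt hlt
    obtain ⟨f, hf1, hf2⟩ := Submodule.exists_le_ker_of_notMem hxP
    have hfA : f ∈ A := by
      rw [LinearMap.mem_ker, Module.Dual.eval_apply]
      exact hf2 (Submodule.mem_span_singleton_self P)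
    have h4 : (⟨f, hfA⟩ : A) ∈ (W.dualAnnihilator).comap A.subtype := by
      rw [hWt]
      exact Submodule.mem_top
    exact hf1 ((Submodule.mem_dualAnnihilator f).1 h4 x hxW)
  have h5 := Subspace.biUnion_ne_univ_of_top_notMem htop
  obtain ⟨f, hf⟩ := (Set.ne_univ_iff_exists_notMem _).1 h5
  have hfW : ∀ W ∈ S, ¬ W ≤ LinearMap.ker (f : Module.Dual L V) := by
    intro W hW hle
    apply hf
    rw [Set.mem_iUnion₂]
    refine ⟨(W.dualAnnihilator).comap A.subtype, Finset.mem_image.2 ⟨W, hS.mem_toFinset.2 hW, rfl⟩, ?_⟩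
    rw [SetLike.mem_coe, Submodule.mem_comap, Submodule.mem_dualAnnihilator]
    exact fun w hw => hle hw
  have hPf : P ∈ LinearMap.ker (f : Module.Dual L V) := by
    have := f.2
    rwa [LinearMap.mem_ker, Module.Dual.eval_apply] at this
  have hfin : 5 ≤ Module.finrank L (LinearMap.ker (f : Module.Dual L V)) := by
    have h6 := LinearMap.finrank_range_add_finrank_ker (f : Module.Dual L V)
    have h7 : Module.finrank L (LinearMap.range (f : Module.Dual L V)) ≤ 1 := by
      refine (Submodule.finrank_le _).trans ?_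
      rw [Module.finrank_self]
    omega
  obtain ⟨U, hU1, hU2, hU3⟩ := finU_step hP _ hPf 5 (by norm_num) hfin
  exact ⟨U, hU3, hU2, fun W hW hWU => hfW W hW (hWU.trans hU1)⟩

end Pool.Agent.H3.SH
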