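import Pool.Agent.H3.SH.Slc
import Pool.Agent.H3.SH.FinU

/-!
# SH Cor: a point on finitely many lines, all `n ≥ 5`
-/

set_option autoImplicit false

open MvPolynomial

namespace Pool.Agent.H3.SH

variable {K L : Type} [Field K] [Field L] [Algebra K L]

theorem main_all_fin [CharZero K] [IsAlgClosed L] (hR : Roots K L) {n : ℕ} (hn : 6 ≤ n) {F : MvPolynomial (Fin n) K}
    (hF : F.IsHomogeneous 7) (hsm : Pool.Agent.H8.SD.Smooth L F) {P : Fin n → K} (hP0 : P ≠ 0) (hP : eval P F = 0)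
    (hfin : {W : Submodule L (Fin n → L) | Module.finrank L W = 2 ∧ pt L P ∈ W ∧ ∀ x ∈ W, aeval x F = 0}.Finite)
    {G : MvPolynomial (Fin n) L} (hG : ∀ q : Fin n → K, eval q F = 0 → eval (pt L q) G = 0) : map (algebraMap K L) F ∣ G := by
  have : Infinite L := IsAlgClosed.instInfinite
  have hP0' : pt L P ≠ 0 := by
    intro h
    apply hP0
    funext i
    exact (map_eq_zero_iff (algebraMap K L) (algebraMap K L).injective).1 (congrFun h i)
  obtain ⟨U, hU1, hU2, hU3⟩ := exists_U (L := L) (V := Fin n → L) (by simpa using hn) hP0' hfin (fun W hW => ⟨hW.1, hW.2.1⟩)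
  refine main_all hR hn hF hsm hP0 hP ⟨U, hU1, hU2, fun W hW2 hPW hWU => ?_⟩ hG
  by_contra hcon
  push Not at hcon
  exact hU3 W ⟨hW2, hPW, hcon⟩ hWU

end Pool.Agent.H3.SH
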