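import Pool.Agent.H3.SH.Defs

/-!
# SH Ext: smoothness over extension fields; the generic point

`smooth_ext`: the ideal of the `pderiv i F` has only the zero `0` over `L`, so it contains powers of the variables (Nullstellensatz).
`exists_gen`: `E = FractionRing (L[x] / (F))`.
-/

set_option autoImplicit false

open MvPolynomial

namespace Pool.Agent.H3.SH

theorem smooth_ext {L E : Type} [Field L] [IsAlgClosed L] [Field E] [Algebra L E] {n : ℕ} {F : MvPolynomial (Fin n) L}
    (hs : Pool.Agent.H8.SD.Smooth L F) (y : Fin n → E) (hy : y ≠ 0) : ∃ i, aeval y (pderiv i F) ≠ 0 := by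
  by_contra hcon
  push Not at hcon
  refine hy (funext fun j => ?_)
  set I : Ideal (MvPolynomial (Fin n) L) := Ideal.span (Set.range fun i => pderiv i F) with hI
  have hIy : ∀ p ∈ I, aeval y p = 0 := by
    have h1 : I ≤ RingHom.ker (aeval y : MvPolynomial (Fin n) L →ₐ[L] E).toRingHom := by
      rw [hI, Ideal.span_le]
      rintro _ ⟨i, rfl⟩
      exact hcon i
    intro p hp
    exact h1 hp
  have hX : (X j : MvPolynomial (Fin n) L) ∈ I.radical := by
    rw [← vanishingIdeal_zeroLocus_eq_radical (K := L) I, mem_vanishingIdeal_iff]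
    intro x hx
    have hx0 : x = 0 := by
      by_contra hne
      obtain ⟨i, hi⟩ := hs x hne
      exact hi ((mem_zeroLocus_iff.1 hx) _ (Ideal.subset_span ⟨i, rfl⟩))
    rw [aeval_X, hx0]
    rfl
  obtain ⟨m, hm⟩ := hX
  have h2 := hIy _ hm
  rw [map_pow, aeval_X] at h2
  have hm0 : m ≠ 0 := by
    rintro rfl
    rw [pow_zero] at h2
    exact one_ne_zero h2
  exact (pow_eq_zero_iff hm0).1 h2

theorem exists_gen {L : Type} [Field L] {n : ℕ} {F : MvPolynomial (Fin n) L} (hF : Irreducible F) :
    ∃ (E : Type) (_ : Field E) (_ : Algebra L E) (xi : Fin n → E), Gen F xi ∧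
      ∀ e : E, ∃ a b : MvPolynomial (Fin n) L, aeval xi b ≠ 0 ∧ e * aeval xi b = aeval xi a := by
  have hprime : (Ideal.span {F} : Ideal (MvPolynomial (Fin n) L)).IsPrime :=
    (Ideal.span_singleton_prime hF.ne_zero).2 hF.prime
  set A : Type := MvPolynomial (Fin n) L ⧸ (Ideal.span {F} : Ideal (MvPolynomial (Fin n) L)) with hA
  have : IsDomain A := Ideal.Quotient.isDomain _
  let E : Type := FractionRing A
  let xi : Fin n → E := fun i => algebraMap A E (Ideal.Quotient.mk _ (X i))
  have hxi : ∀ p : MvPolynomial (Fin n) L, aeval xi p = algebraMap A E (Ideal.Quotient.mk _ p) := by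
    intro p
    have h1 : (aeval xi : MvPolynomial (Fin n) L →ₐ[L] E) =
        (IsScalarTower.toAlgHom L A E).comp (Ideal.Quotient.mkₐ L _) := by
      refine MvPolynomial.algHom_ext fun i => ?_
      rw [aeval_X]
      rfl
    rw [h1]
    rfl
  refine ⟨E, inferInstance, inferInstance, xi, ?_, ?_⟩
  · intro G
    rw [hxi, map_eq_zero_iff _ (IsFractionRing.injective A E), Ideal.Quotient.eq_zero_iff_mem,
      Ideal.mem_span_singleton]
  · intro e
    obtain ⟨a, b, hb, he⟩ := IsFractionRing.div_surjective (A := A) e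
    obtain ⟨a', rfl⟩ := Ideal.Quotient.mk_surjective a
    obtain ⟨b', rfl⟩ := Ideal.Quotient.mk_surjective b
    have hb' : aeval xi b' ≠ 0 := by
      rw [hxi]
      exact fun h => nonZeroDivisors.ne_zero hb
        ((map_eq_zero_iff _ (IsFractionRing.injective A E)).1 h)
    refine ⟨a', b', hb', ?_⟩
    rw [hxi, hxi, ← he, div_mul_cancel₀]
    rw [← hxi]
    exact hb'

end Pool.Agent.H3.SH
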