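import Pool.Agent.H3.SH.Der
import Pool.Agent.H3.SH.Ext

/-!
# SH Cst: the constants of the derivations which kill `s`

`exists_cst`: `C` = the subfield of the `z ∈ Ω` with `D z = 0` for all `D : Derivation L Ω Ω` with `D s = 0`.  It is algebraically closed: a
root `z ∈ Ω` of a polynomial over `C` is killed by these `D` (characteristic 0; compare `Pool.Agent.GA.AlgD.eq_zero_of_isAlgebraic`).
`exists_W`: for every tangent vector `u` (`∑ ∂_i F (xi) u_i = 0`) there is `D` with `D xi = u` (`exists_der_gen`); the tangent space has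
dimension `m` (`grad F (xi) ≠ 0`, `smooth_ext`; `xi ≠ 0`); let `u_1, ..., u_m` be a basis, `D_j xi = u_j`; the kernel of
`x ↦ ∑ x_j D_j s` has dimension `≥ m - 1`; `W` = the set of the `∑ x_j u_j` for `x` in this kernel.
-/

set_option autoImplicit false

open MvPolynomial

namespace Pool.Agent.H3.SH

/-- The constants of the derivations which kill `s`. -/
private def cF {L Ω : Type} [Field L] [Field Ω] [Algebra L Ω] (s : Ω) : IntermediateField L Ω where
  carrier := {z | ∀ D : Derivation L Ω Ω, D s = 0 → D z = 0}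
  mul_mem' := by
    intro a b ha hb D hD
    rw [D.leibniz, ha D hD, hb D hD, smul_zero, smul_zero, add_zero]
  add_mem' := by
    intro a b ha hb D hD
    rw [map_add, ha D hD, hb D hD, add_zero]
  algebraMap_mem' := fun r D _ => D.map_algebraMap r
  inv_mem' := by
    intro a ha D hD
    rw [D.leibniz_inv, ha D hD, smul_zero]

private theorem der_C_aux {L C Ω : Type} [Field L] [Field C] [Field Ω] [Algebra L C] [Algebra C Ω] [Algebra L Ω]
    (D : Derivation L Ω Ω) (h : ∀ z : C, D (algebraMap C Ω z) = 0) : ∃ D' : Derivation C Ω Ω, ∀ x, D' x = D x := by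
  have hs : ∀ (c : C) (x : Ω), D (c • x) = c • D x := by
    intro c x
    rw [Algebra.smul_def, D.leibniz, h c, smul_zero, add_zero, smul_eq_mul, Algebra.smul_def]
  exact ⟨Derivation.mk' { toFun := D, map_add' := map_add D, map_smul' := hs } fun a b => D.leibniz a b, fun x => rfl⟩

theorem exists_cst {L Ω : Type} [Field L] [CharZero L] [Field Ω] [IsAlgClosed Ω] [Algebra L Ω] (s : Ω) :
    ∃ (C : Type) (_ : Field C) (_ : Algebra L C) (_ : Algebra C Ω) (_ : IsScalarTower L C Ω), IsAlgClosed C ∧
      (∃ s' : C, algebraMap C Ω s' = s) ∧ ∀ D : Derivation L Ω Ω, D s = 0 → ∀ z : C, D (algebraMap C Ω z) = 0 := by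
  refine ⟨(cF s : IntermediateField L Ω), inferInstance, inferInstance, inferInstance, inferInstance, ?_,
    ⟨⟨s, fun D hD => hD⟩, rfl⟩, fun D hD z => z.2 D hD⟩
  have hch : CharZero (cF s : IntermediateField L Ω) :=
    charZero_of_injective_algebraMap (algebraMap L (cF s : IntermediateField L Ω)).injective
  refine IsAlgClosed.of_exists_root _ fun p hm hirr => ?_
  have hdeg : (p.map (algebraMap (cF s : IntermediateField L Ω) Ω)).degree ≠ 0 := by
    rw [Polynomial.degree_map]
    exact hirr.degree_pos.ne'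
  obtain ⟨z, hz⟩ := IsAlgClosed.exists_root _ hdeg
  have hz' : Polynomial.aeval z p = 0 := by
    rw [Polynomial.aeval_def, ← Polynomial.eval_map]
    exact hz
  have hzC : z ∈ (cF s : IntermediateField L Ω) := by
    intro D hD
    obtain ⟨D', hD'⟩ := der_C_aux (C := (cF s : IntermediateField L Ω)) D fun c => c.2 D hD
    have h3 := D'.map_aeval p z
    rw [hz', map_zero] at h3
    have hsep : p.Separable := hirr.separable
    have h4 : Polynomial.aeval z (Polynomial.derivative p) ≠ 0 := hsep.aeval_derivative_ne_zero hz'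
    rw [← hD' z]
    exact (smul_eq_zero.1 h3.symm).resolve_left h4
  refine ⟨⟨z, hzC⟩, ?_⟩
  have h5 : algebraMap (cF s : IntermediateField L Ω) Ω (p.eval ⟨z, hzC⟩) = 0 := by
    rw [← Polynomial.eval₂_at_apply]
    rw [Polynomial.aeval_def] at hz'
    exact hz'
  exact (map_eq_zero _).1 h5

/-- a derivation which kills `C` is a derivation over `C` -/
theorem der_C {L C Ω : Type} [Field L] [Field C] [Field Ω] [Algebra L C] [Algebra C Ω] [Algebra L Ω] [IsScalarTower L C Ω]
    (D : Derivation L Ω Ω) (h : ∀ z : C, D (algebraMap C Ω z) = 0) : ∃ D' : Derivation C Ω Ω, ∀ x, D' x = D x :=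
  der_C_aux D h

theorem exists_W {L Ω : Type} [Field L] [IsAlgClosed L] [CharZero L] [Field Ω] [Algebra L Ω] {m : ℕ}
    {F : MvPolynomial (Fin (m + 1)) L} (hs : Pool.Agent.H8.SD.Smooth L F) {xi : Fin (m + 1) → Ω} (hg : Gen F xi) (hx : xi ≠ 0) (s : Ω) :
    ∃ W : Submodule Ω (Fin (m + 1) → Ω), m ≤ Module.finrank Ω W + 1 ∧ ∀ w ∈ W, ∃ D : Derivation L Ω Ω, D s = 0 ∧ ∀ i, D (xi i) = w i := by
  have _ := hs
  have _ := hx
  let ev : Derivation L Ω Ω →ₗ[Ω] (Fin (m + 1) → Ω) :=
    { toFun := fun D i => D (xi i)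
      map_add' := fun _ _ => rfl
      map_smul' := fun _ _ => rfl }
  let σ : Derivation L Ω Ω →ₗ[Ω] Ω :=
    { toFun := fun D => D s
      map_add' := fun _ _ => rfl
      map_smul' := fun _ _ => rfl }
  let φ : (Fin (m + 1) → Ω) →ₗ[Ω] Ω :=
    { toFun := fun u => ∑ i, aeval xi (pderiv i F) * u i
      map_add' := fun u v => by
        rw [← Finset.sum_add_distrib]
        refine Finset.sum_congr rfl fun i _ => ?_
        rw [Pi.add_apply]
        ring
      map_smul' := fun c u => by
        rw [RingHom.id_apply, smul_eq_mul, Finset.mul_sum]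
        refine Finset.sum_congr rfl fun i _ => ?_
        rw [Pi.smul_apply, smul_eq_mul]
        ring }
  let W : Submodule Ω (Fin (m + 1) → Ω) := (LinearMap.ker σ).map ev
  have hT : ∀ u ∈ LinearMap.ker φ, ∃ D, ev D = u := by
    intro u hu
    obtain ⟨D, hD⟩ := exists_der_gen hg (u := u) (LinearMap.mem_ker.1 hu)
    exact ⟨D, funext hD⟩
  have hex : ∃ t, LinearMap.ker φ ≤ W ⊔ Submodule.span Ω {t} := by
    by_cases h : ∀ D, σ D = 0
    · refine ⟨0, fun u hu => ?_⟩
      obtain ⟨D, rfl⟩ := hT u hu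
      exact Submodule.mem_sup_left ⟨D, h D, rfl⟩
    · push Not at h
      obtain ⟨D0, h0⟩ := h
      refine ⟨ev D0, fun u hu => ?_⟩
      obtain ⟨D, rfl⟩ := hT u hu
      rw [Submodule.mem_sup]
      refine ⟨ev (D - (σ D / σ D0) • D0), ⟨_, ?_, rfl⟩, (σ D / σ D0) • ev D0,
        Submodule.smul_mem _ _ (Submodule.mem_span_singleton_self _), ?_⟩
      · show σ (D - (σ D / σ D0) • D0) = 0
        rw [map_sub, map_smul, smul_eq_mul, div_mul_cancel₀ _ h0, sub_self]
      · rw [map_sub, map_smul, sub_add_cancel]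
  refine ⟨W, ?_, ?_⟩
  · obtain ⟨t, ht⟩ := hex
    have h1 := Submodule.finrank_mono ht
    have h2 := Submodule.finrank_add_le_finrank_add_finrank W (Submodule.span Ω {t})
    have h3 : Module.finrank Ω (Submodule.span Ω {t}) ≤ 1 := by
      have h := finrank_span_le_card (R := Ω) ({t} : Set (Fin (m + 1) → Ω))
      rw [Set.toFinset_card, Fintype.card_unique] at h
      exact h
    have h4 := LinearMap.finrank_range_add_finrank_ker φ
    have h5 : Module.finrank Ω (LinearMap.range φ) ≤ 1 :=
      (Submodule.finrank_le _).trans (Module.finrank_self Ω).le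
    rw [Module.finrank_fin_fun] at h4
    omega
  · rintro w ⟨D, hD, rfl⟩
    exact ⟨D, hD, fun i => rfl⟩

end Pool.Agent.H3.SH
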