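import Pool.Agent.H8.SD.Irr

/-!
# PROJECT SH (MP_90ca13_nt, smooth septic hypersurfaces over a field without extensions of degree <= 4): definitions

Paper proof: note 5648.  `F` is a form of degree 7 over `K`, `L` an algebraically closed extension of `K`.
For points `x, y` with coordinates in a `K`-algebra `A`, `ln F x y` is the polynomial `F (s x + y)` in `s`; its coefficient at `s ^ (7 - j)`
is `F_j (x; y)` of the note; `tan F x y = F_1 (x; y) = grad F (x) . y`, `hes F x y = F_2 (x; y)`.
-/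

set_option autoImplicit false

open MvPolynomial

namespace Pool.Agent.H3.SH

variable {K : Type} [Field K] {ι : Type}

/-- `F (s x + y)` as a polynomial in `s`. -/
noncomputable def ln {A : Type} [CommRing A] [Algebra K A] (F : MvPolynomial ι K) (x y : ι → A) : Polynomial A :=
  aeval (fun i => Polynomial.C (x i) * Polynomial.X + Polynomial.C (y i)) F

/-- `F_1 (x; y) = grad F (x) . y` (degree 7). -/
noncomputable def tan {A : Type} [CommRing A] [Algebra K A] (F : MvPolynomial ι K) (x y : ι → A) : A := (ln F x y).coeff 6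

/-- `F_2 (x; y)` (degree 7). -/
noncomputable def hes {A : Type} [CommRing A] [Algebra K A] (F : MvPolynomial ι K) (x y : ι → A) : A := (ln F x y).coeff 5

/-- `a^T Hess F (x) b`. -/
noncomputable def pol {A : Type} [CommRing A] [Algebra K A] [Fintype ι] (F : MvPolynomial ι K) (x a b : ι → A) : A :=
  ∑ i, ∑ j, aeval x (pderiv j (pderiv i F)) * a i * b j

/-- The point with coordinates in `L` of a point with coordinates in `K`. -/
def pt (L : Type) [Field L] [Algebra K L] (x : ι → K) : ι → L := fun i => algebraMap K L (x i)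

/-- Every root in `L` of a polynomial over `K` of degree at most four is in `K`. -/
def Roots (K L : Type) [Field K] [Field L] [Algebra K L] : Prop :=
  ∀ p : Polynomial K, p ≠ 0 → p.natDegree ≤ 4 → ∀ t : L, (p.map (algebraMap K L)).eval t = 0 → ∃ x : K, algebraMap K L x = t

/-- Every polynomial that vanishes on `D` vanishes on `E`. -/
def Dense {L : Type} [Field L] {σ : Type} (D E : Set (σ → L)) : Prop :=
  ∀ f : MvPolynomial σ L, (∀ z ∈ D, eval z f = 0) → ∀ z ∈ E, eval z f = 0

section sets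
variable (L : Type) [Field L] [Algebra K L]

/-- pairs `(q, u)` over `K`, `q ∈ S`, `u` on the asymptotic cone at `q` -/
def WK (F : MvPolynomial ι K) (S : Set (ι → L)) : Set (ι ⊕ ι → L) :=
  {z | ∃ q u : ι → K, pt L q ∈ S ∧ tan F q u = 0 ∧ hes F q u = 0 ∧ z = Sum.elim (pt L q) (pt L u)}

/-- pairs `(q, u)` over `K`, `q ∈ S`, `u` a zero of `F` on the asymptotic cone at `q` -/
def YK (F : MvPolynomial ι K) (S : Set (ι → L)) : Set (ι ⊕ ι → L) :=
  {z | ∃ q u : ι → K, pt L q ∈ S ∧ tan F q u = 0 ∧ hes F q u = 0 ∧ eval u F = 0 ∧ z = Sum.elim (pt L q) (pt L u)}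

end sets

section sets
variable {L : Type} [Field L] [Algebra K L]

/-- pairs `(Q, w)` over `L`, `Q ∈ T`, `w` on the asymptotic cone at `Q` -/
def WL (F : MvPolynomial ι K) (T : Set (ι → L)) : Set (ι ⊕ ι → L) :=
  {z | ∃ Q w : ι → L, Q ∈ T ∧ tan F Q w = 0 ∧ hes F Q w = 0 ∧ z = Sum.elim Q w}

/-- pairs `(Q, w)` over `L`, `Q ∈ T`, `w` a zero of `F` on the asymptotic cone at `Q`, the line `Q w` not in `F = 0` -/
def YL (F : MvPolynomial ι K) (T : Set (ι → L)) : Set (ι ⊕ ι → L) :=
  {z | ∃ Q w : ι → L, Q ∈ T ∧ tan F Q w = 0 ∧ hes F Q w = 0 ∧ aeval w F = 0 ∧ ln F Q w ≠ 0 ∧ z = Sum.elim Q w}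

end sets

/-- `R` lies on a line contained in `X`. -/
def OnLine {L : Type} [Field L] [Algebra K L] (F : MvPolynomial ι K) (R : ι → L) : Prop :=
  ∃ v : ι → L, (∀ a b : L, a • R + b • v = 0 → a = 0 ∧ b = 0) ∧ ∀ a b : L, aeval (a • R + b • v) F = 0

/-- `Q` is a zero of `F` at which the section of `X` with the tangent hyperplane has multiplicity at least three. -/
def Flat {L : Type} [Field L] [Algebra K L] (F : MvPolynomial ι K) (Q : ι → L) : Prop :=
  Q ≠ 0 ∧ aeval Q F = 0 ∧ ∀ y, tan F Q y = 0 → hes F Q y = 0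

/-- `xi` is a generic point of `F = 0` with coordinates in `E`. -/
def Gen {L E : Type} [Field L] [Field E] [Algebra L E] (F : MvPolynomial ι L) (xi : ι → E) : Prop :=
  ∀ G : MvPolynomial ι L, aeval xi G = 0 ↔ F ∣ G

/-- `g_u = grad F (xi + X v) . u` -/
noncomputable def gd {L E : Type} [Field L] [Field E] [Algebra L E] [Fintype ι] (F : MvPolynomial ι L) (xi v u : ι → E) : Polynomial E :=
  ∑ i, aeval (fun j => Polynomial.C (xi j) + Polynomial.C (v j) * Polynomial.X) (pderiv i F) * Polynomial.C (u i)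

/-- `N_b ^ 2 H_ik - N_b N_k H_ib - N_b N_i H_bk + N_i N_k H_bb`, `N = grad F`, `H = Hess F` -/
noncomputable def qd {L : Type} [Field L] {n : ℕ} (F : MvPolynomial (Fin n) L) (b i k : Fin n) : MvPolynomial (Fin n) L :=
  pderiv b F ^ 2 * pderiv i (pderiv k F) - pderiv b F * pderiv k F * pderiv i (pderiv b F) - pderiv b F * pderiv i F * pderiv b (pderiv k F) +
    pderiv i F * pderiv k F * pderiv b (pderiv b F)

end Pool.Agent.H3.SH
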