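import Pool.Agent.H3.SH.PolA

/-!
# SH PolB: elementary facts on `ln`, `tan`, `hes`, part B (derivatives)

By `coeff_ln_swap`: `tan F x y = (ln F y x).coeff 1`, `hes F x y = (ln F y x).coeff 2` (coefficients of `F (x + s y)`).  The derivative of
`ln F y x` is `∑ i, C (y i) * ln (pderiv i F) y x` (chain rule, induction on `F`, any `F`).
-/

set_option autoImplicit false

open MvPolynomial

namespace Pool.Agent.H3.SH

variable {K : Type} [Field K] {ι : Type} [Fintype ι] {A : Type} [CommRing A] [Algebra K A]

theorem derivative_ln (F : MvPolynomial ι K) (y x : ι → A) :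
    Polynomial.derivative (ln F y x) = ∑ i, Polynomial.C (y i) * ln (pderiv i F) y x := by
  classical
  induction F using MvPolynomial.induction_on with
  | C a =>
    have h1 : ln (C a) y x = Polynomial.C (algebraMap K A a) := by
      unfold ln
      rw [← algebraMap_eq, AlgHom.commutes]
      rfl
    rw [h1, Polynomial.derivative_C]
    symm
    refine Finset.sum_eq_zero fun i _ => ?_
    rw [pderiv_C]
    unfold ln
    rw [map_zero, mul_zero]
  | add p q hp hq =>
    have h1 : ln (p + q) y x = ln p y x + ln q y x := by
      unfold ln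
      rw [map_add]
    rw [h1, Polynomial.derivative_add, hp, hq, ← Finset.sum_add_distrib]
    refine Finset.sum_congr rfl fun i _ => ?_
    rw [map_add]
    unfold ln
    rw [map_add, mul_add]
  | mul_X p j hp =>
    have h1 : ln (p * X j) y x = ln p y x * (Polynomial.C (y j) * Polynomial.X + Polynomial.C (x j)) := by
      unfold ln
      rw [map_mul, aeval_X]
    rw [h1, Polynomial.derivative_mul, hp]
    have h2 : Polynomial.derivative (Polynomial.C (y j) * Polynomial.X + Polynomial.C (x j)) = Polynomial.C (y j) := by
      rw [Polynomial.derivative_add, Polynomial.derivative_C, add_zero, Polynomial.derivative_C_mul,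
        Polynomial.derivative_X, mul_one]
    rw [h2]
    have h3 : ∀ i, Polynomial.C (y i) * ln (pderiv i (p * X j)) y x =
        Polynomial.C (y i) * ln (pderiv i p) y x * (Polynomial.C (y j) * Polynomial.X + Polynomial.C (x j)) +
          (if i = j then ln p y x * Polynomial.C (y i) else 0) := by
      intro i
      rw [pderiv_mul]
      by_cases hij : i = j
      · rw [if_pos hij, hij, pderiv_X_self]
        unfold ln
        rw [map_add, map_mul, map_mul, map_one, aeval_X]
        ring
      · rw [if_neg hij, pderiv_X_of_ne (fun h => hij h.symm)]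
        unfold ln
        rw [map_add, map_mul, map_mul, map_zero, aeval_X]
        ring
    rw [Finset.sum_congr rfl (fun i _ => h3 i), Finset.sum_add_distrib, Finset.sum_ite_eq' Finset.univ j,
      if_pos (Finset.mem_univ j), Finset.sum_mul]

private theorem coeff_ln_one (F : MvPolynomial ι K) (y x : ι → A) :
    (ln F y x).coeff 1 = ∑ i, y i * aeval x (pderiv i F) := by
  have h1 := congrArg (fun p => Polynomial.coeff p 0) (derivative_ln F y x)
  simp only [Polynomial.coeff_derivative, Polynomial.finsetSum_coeff, Polynomial.coeff_C_mul,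
    coeff_ln_zero] at h1
  rw [← h1]
  push_cast
  ring

private theorem two_coeff_ln_two (F : MvPolynomial ι K) (y x : ι → A) :
    2 * (ln F y x).coeff 2 = ∑ i, ∑ j, y i * (y j * aeval x (pderiv j (pderiv i F))) := by
  have h1 := congrArg (fun p => Polynomial.coeff p 1) (derivative_ln F y x)
  simp only [Polynomial.coeff_derivative, Polynomial.finsetSum_coeff, Polynomial.coeff_C_mul,
    coeff_ln_one] at h1
  have h2 : ∑ i, y i * ∑ j, y j * aeval x (pderiv j (pderiv i F)) =
      ∑ i, ∑ j, y i * (y j * aeval x (pderiv j (pderiv i F))) :=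
    Finset.sum_congr rfl fun i _ => Finset.mul_sum _ _ _
  rw [← h2, ← h1]
  push_cast
  ring

theorem tan_eq {F : MvPolynomial ι K} (hF : F.IsHomogeneous 7) (x y : ι → A) : tan F x y = ∑ i, aeval x (pderiv i F) * y i := by
  unfold tan
  rw [coeff_ln_swap hF x y (by norm_num), coeff_ln_one]
  exact Finset.sum_congr rfl fun i _ => mul_comm _ _

theorem two_hes_eq {F : MvPolynomial ι K} (hF : F.IsHomogeneous 7) (x y : ι → A) : 2 * hes F x y = pol F x y y := by
  unfold hes pol
  rw [coeff_ln_swap hF x y (by norm_num), two_coeff_ln_two]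
  refine Finset.sum_congr rfl fun i _ => Finset.sum_congr rfl fun j _ => ?_
  ring

theorem tan_add {F : MvPolynomial ι K} (hF : F.IsHomogeneous 7) (x a b : ι → A) (s : A) :
    tan F x (fun i => s * a i + b i) = s * tan F x a + tan F x b := by
  rw [tan_eq hF, tan_eq hF, tan_eq hF, Finset.mul_sum, ← Finset.sum_add_distrib]
  refine Finset.sum_congr rfl fun i _ => ?_
  ring

private theorem pderiv_comm' (F : MvPolynomial ι K) (i j : ι) : pderiv j (pderiv i F) = pderiv i (pderiv j F) := by
  classical
  ext m
  rw [coeff_pderiv, coeff_pderiv, coeff_pderiv, coeff_pderiv]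
  by_cases hij : i = j
  · rw [hij]
  · have h1 : (m + Finsupp.single j 1 + Finsupp.single i 1 : ι →₀ ℕ) = m + Finsupp.single i 1 + Finsupp.single j 1 := by
      rw [add_assoc, add_assoc, add_comm (Finsupp.single j 1)]
    have h2 : (m + Finsupp.single j 1 : ι →₀ ℕ) i = m i := by
      rw [Finsupp.add_apply, Finsupp.single_eq_of_ne hij, add_zero]
    have h3 : (m + Finsupp.single i 1 : ι →₀ ℕ) j = m j := by
      rw [Finsupp.add_apply, Finsupp.single_eq_of_ne (Ne.symm hij), add_zero]
    rw [h1, h2, h3]
    ring

theorem pol_comm (F : MvPolynomial ι K) (x a b : ι → A) : pol F x a b = pol F x b a := by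
  unfold pol
  rw [Finset.sum_comm]
  refine Finset.sum_congr rfl fun i _ => Finset.sum_congr rfl fun j _ => ?_
  rw [pderiv_comm' F j i]
  ring

private theorem pol_expand (F : MvPolynomial ι K) (x a b : ι → A) (s : A) :
    pol F x (fun i => s * a i + b i) (fun i => s * a i + b i) =
      s ^ 2 * pol F x a a + s * pol F x a b + s * pol F x b a + pol F x b b := by
  unfold pol
  simp only [Finset.mul_sum, ← Finset.sum_add_distrib]
  refine Finset.sum_congr rfl fun i _ => Finset.sum_congr rfl fun j _ => ?_
  ring

theorem hes_add [IsDomain A] [CharZero A] {F : MvPolynomial ι K} (hF : F.IsHomogeneous 7) (x a b : ι → A) (s : A) :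
    hes F x (fun i => s * a i + b i) = s ^ 2 * hes F x a + s * pol F x a b + hes F x b := by
  have h2 : (2 : A) ≠ 0 := two_ne_zero
  refine mul_left_cancel₀ h2 ?_
  rw [two_hes_eq hF, pol_expand, pol_comm F x b a]
  have h3 := two_hes_eq hF x a
  have h4 := two_hes_eq hF x b
  linear_combination (-s ^ 2) * h3 - h4

theorem tan_smul_left {F : MvPolynomial ι K} (hF : F.IsHomogeneous 7) (x y : ι → A) (s : A) :
    tan F (fun i => s * x i) y = s ^ 6 * tan F x y := by
  have h1 : ln F (fun i => s * x i) y = (ln F x y).comp (Polynomial.C s * Polynomial.X) := by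
    unfold ln
    have h2 := eval₂_comp_left (Polynomial.compRingHom (Polynomial.C s * Polynomial.X))
      (algebraMap K (Polynomial A)) (fun i => Polynomial.C (x i) * Polynomial.X + Polynomial.C (y i)) F
    have h3 : (Polynomial.compRingHom (Polynomial.C s * Polynomial.X)).comp (algebraMap K (Polynomial A)) =
        algebraMap K (Polynomial A) := by
      ext1 c
      rw [RingHom.comp_apply, Polynomial.algebraMap_apply, Polynomial.coe_compRingHom_apply, Polynomial.C_comp]
    have h4 : (Polynomial.compRingHom (Polynomial.C s * Polynomial.X)) ∘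
        (fun i => Polynomial.C (x i) * Polynomial.X + Polynomial.C (y i)) =
        fun i => Polynomial.C (s * x i) * Polynomial.X + Polynomial.C (y i) := by
      funext i
      rw [Function.comp_apply, Polynomial.coe_compRingHom_apply, Polynomial.add_comp, Polynomial.mul_comp,
        Polynomial.C_comp, Polynomial.X_comp, Polynomial.C_comp, Polynomial.C_mul]
      ring
    rw [h3, h4, Polynomial.coe_compRingHom_apply] at h2
    rw [aeval_def, aeval_def, h2]
  unfold tan
  rw [h1, Polynomial.comp_C_mul_X_coeff, mul_comm]

private theorem map_aeval' {B : Type} [CommRing B] [Algebra K B] (f : A →+* B)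
    (hf : ∀ c : K, f (algebraMap K A c) = algebraMap K B c) (G : MvPolynomial ι K) (x : ι → A) :
    f (aeval x G) = aeval (fun i => f (x i)) G := by
  rw [aeval_def, aeval_def, eval₂_comp_left]
  have h1 : f.comp (algebraMap K A) = algebraMap K B := RingHom.ext hf
  rw [h1]
  rfl

theorem map_pol {B : Type} [CommRing B] [Algebra K B] (f : A →+* B) (hf : ∀ c : K, f (algebraMap K A c) = algebraMap K B c)
    (F : MvPolynomial ι K) (x a b : ι → A) : f (pol F x a b) = pol F (fun i => f (x i)) (fun i => f (a i)) (fun i => f (b i)) := by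
  unfold pol
  rw [map_sum]
  refine Finset.sum_congr rfl fun i _ => ?_
  rw [map_sum]
  refine Finset.sum_congr rfl fun j _ => ?_
  rw [map_mul, map_mul, map_aeval' f hf]

end Pool.Agent.H3.SH
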