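import Pool.Agent.H3.SH.Der
import Pool.Agent.H3.SH.PolB
import Pool.Agent.H3.SH.Ext

/-!
# SH Dir: the tangent hyperplane is constant along the components of the set of flat points (part T of note 5648)

`dir`: `E = Frac (L[x] / p)`, `xi` its generic point, `N_i = pderiv i F`, `H` the Hessian.  If all `N_i ∈ p`, then no `Q ≠ 0` is a zero of
`p` (smoothness): take any `c ≠ 0`.  Otherwise `N_b ∉ p` for some `b`.  For `D ∈ Der_L (E)`: `∑ N_k (xi) D xi_k = D (F (xi)) = 0`, so
`N_b D xi_i = ∑_k (N_b δ_ik - N_k δ_ib) D xi_k`..., precisely `N_b ^ 2 (N_b D N_i - N_i D N_b) * ... = ∑_k D xi_k qd b i k (xi) = 0`: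
`N_b D N_i - N_i D N_b = ∑_k (N_b H_ik - N_i H_bk) D xi_k` (`der_aeval`), and `N_b (N_b H_ik - N_i H_bk) = qd b i k + N_k (N_b H_ib - N_i H_bb)`,
so `N_b (N_b D N_i - N_i D N_b) = ∑_k qd b i k D xi_k + (N_b H_ib - N_i H_bb) ∑_k N_k D xi_k = 0`.  So `D (N_i / N_b) = 0` for all `D`,
`N_i / N_b = c_i ∈ L` (`const_of_der`), `c_b = 1`, `N_i - c_i N_b ∈ p`.  At a zero `Q ≠ 0` of `p`: `N_i (Q) = c_i N_b (Q)`, `N (Q) ≠ 0`, so
`N_b (Q) ≠ 0` and `∑ N_i (Q) R_i = N_b (Q) ∑ c_i R_i`.
-/

set_option autoImplicit false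

open MvPolynomial

namespace Pool.Agent.H3.SH

variable {L : Type} [Field L] [IsAlgClosed L] [CharZero L] {n : ℕ}

omit [IsAlgClosed L] [CharZero L] in
private theorem dir_gen {p : Ideal (MvPolynomial (Fin n) L)} (hp : p.IsPrime) :
    ∃ (E : Type) (_ : Field E) (_ : Algebra L E) (xi : Fin n → E),
      ∀ g : MvPolynomial (Fin n) L, aeval xi g = 0 ↔ g ∈ p := by
  refine ⟨FractionRing (MvPolynomial (Fin n) L ⧸ p), inferInstance, inferInstance,
    fun i => algebraMap (MvPolynomial (Fin n) L ⧸ p) (FractionRing (MvPolynomial (Fin n) L ⧸ p))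
      (Ideal.Quotient.mk p (X i)), fun g => ?_⟩
  have h : (aeval fun i => algebraMap (MvPolynomial (Fin n) L ⧸ p)
      (FractionRing (MvPolynomial (Fin n) L ⧸ p)) (Ideal.Quotient.mk p (X i))) =
      (IsScalarTower.toAlgHom L (MvPolynomial (Fin n) L ⧸ p)
        (FractionRing (MvPolynomial (Fin n) L ⧸ p))).comp (Ideal.Quotient.mkₐ L p) := by
    apply MvPolynomial.algHom_ext
    intro i
    rw [aeval_X]
    rfl
  rw [h]
  have h2 : ((IsScalarTower.toAlgHom L (MvPolynomial (Fin n) L ⧸ p)
        (FractionRing (MvPolynomial (Fin n) L ⧸ p))).comp (Ideal.Quotient.mkₐ L p)) g =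
      algebraMap (MvPolynomial (Fin n) L ⧸ p) (FractionRing (MvPolynomial (Fin n) L ⧸ p))
        (Ideal.Quotient.mk p g) := rfl
  rw [h2, FaithfulSMul.algebraMap_eq_zero_iff, Ideal.Quotient.eq_zero_iff_mem]

theorem dir {F : MvPolynomial (Fin n) L} (hsm : Pool.Agent.H8.SD.Smooth L F) (hn : n ≠ 0) {p : Ideal (MvPolynomial (Fin n) L)}
    (hp : p.IsPrime) (hFp : F ∈ p) (hq : ∀ b i k, qd F b i k ∈ p) :
    ∃ c : Fin n → L, c ≠ 0 ∧ ∀ (M : Type) [Field M] [Algebra L M] (Q : Fin n → M), Q ≠ 0 → (∀ g ∈ p, aeval Q g = 0) →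
      ∀ R : Fin n → M, ∑ i, aeval Q (pderiv i F) * R i = 0 → ∑ i, algebraMap L M (c i) * R i = 0 := by
  obtain ⟨E, _, _, xi, hxi⟩ := dir_gen hp
  by_cases hall : ∀ i, pderiv i F ∈ p
  · refine ⟨fun _ => 1, ?_, fun M _ _ Q hQ0 hQ R _ => ?_⟩
    · intro h
      exact one_ne_zero (congrFun h ⟨0, Nat.pos_of_ne_zero hn⟩)
    · obtain ⟨i, hi⟩ := smooth_ext hsm Q hQ0
      exact absurd (hQ _ (hall i)) hi
  · push Not at hall
    obtain ⟨b, hb⟩ := hall
    have hb0 : aeval xi (pderiv b F) ≠ 0 := fun h => hb ((hxi _).1 h)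
    have hD : ∀ (D : Derivation L E E) (i : Fin n),
        D (aeval xi (pderiv i F) / aeval xi (pderiv b F)) = 0 := by
      intro D i
      have h0 : ∑ k, aeval xi (pderiv k F) * D (xi k) = 0 := by
        rw [← der_aeval D xi F, (hxi F).2 hFp, map_zero]
      have hk : ∀ k, aeval xi (pderiv b F) * (aeval xi (pderiv b F) *
          aeval xi (pderiv k (pderiv i F)) - aeval xi (pderiv i F) *
          aeval xi (pderiv k (pderiv b F))) = aeval xi (pderiv k F) *
          (aeval xi (pderiv b F) * aeval xi (pderiv b (pderiv i F)) - aeval xi (pderiv i F) *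
          aeval xi (pderiv b (pderiv b F))) := by
        intro k
        have h1 := (hxi _).2 (hq b k i)
        unfold qd at h1
        simp only [map_add, map_sub, map_mul, map_pow] at h1
        linear_combination h1
      have h2 : aeval xi (pderiv b F) * (aeval xi (pderiv b F) * D (aeval xi (pderiv i F)) -
          aeval xi (pderiv i F) * D (aeval xi (pderiv b F))) = 0 := by
        rw [der_aeval D xi (pderiv i F), der_aeval D xi (pderiv b F), Finset.mul_sum,
          Finset.mul_sum, ← Finset.sum_sub_distrib, Finset.mul_sum]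
        have h3 : ∀ k ∈ Finset.univ, aeval xi (pderiv b F) * (aeval xi (pderiv b F) *
            (aeval xi (pderiv k (pderiv i F)) * D (xi k)) - aeval xi (pderiv i F) *
            (aeval xi (pderiv k (pderiv b F)) * D (xi k))) =
            (aeval xi (pderiv b F) * aeval xi (pderiv b (pderiv i F)) - aeval xi (pderiv i F) *
              aeval xi (pderiv b (pderiv b F))) * (aeval xi (pderiv k F) * D (xi k)) := by
          intro k _
          linear_combination D (xi k) * hk k
        rw [Finset.sum_congr rfl h3, ← Finset.mul_sum, h0, mul_zero]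
      have h4 := (mul_eq_zero.1 h2).resolve_left hb0
      rw [Derivation.leibniz_div]
      simp only [smul_eq_mul]
      rw [h4, mul_zero]
    choose c hc using fun i => const_of_der (fun D => hD D i)
    have hcb : c b ≠ 0 := by
      intro h
      have h1 := hc b
      rw [h, map_zero, div_self hb0] at h1
      exact zero_ne_one h1
    refine ⟨c, fun h => hcb (congrFun h b), fun M _ _ Q hQ0 hQ R hR => ?_⟩
    have hmem : ∀ i, pderiv i F - C (c i) * pderiv b F ∈ p := by
      intro i
      rw [← hxi, map_sub, map_mul, aeval_C, hc i, div_mul_cancel₀ _ hb0, sub_self]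
    have hev : ∀ i, aeval Q (pderiv i F) = algebraMap L M (c i) * aeval Q (pderiv b F) := by
      intro i
      have h1 := hQ _ (hmem i)
      rw [map_sub, map_mul, aeval_C] at h1
      exact sub_eq_zero.1 h1
    have hb1 : aeval Q (pderiv b F) ≠ 0 := by
      intro h
      obtain ⟨j, hj⟩ := smooth_ext hsm Q hQ0
      apply hj
      have h1 := hev j
      rw [h, mul_zero] at h1
      exact h1
    have h5 : aeval Q (pderiv b F) * ∑ i, algebraMap L M (c i) * R i = 0 := by
      rw [Finset.mul_sum, ← hR]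
      refine Finset.sum_congr rfl (fun i _ => ?_)
      rw [hev i]
      ring
    exact (mul_eq_zero.1 h5).resolve_left hb1

end Pool.Agent.H3.SH
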