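import Pool.Agent.H3.SH.Dir

/-!
# SH StT: the polynomial `h2` (part T of note 5648)

`J` = the ideal generated by `F` and all `qd F b i k`.  A flat point `Q` is a zero of `J`: `v = N_b e_i - N_i e_b` and
`w = N_b e_k - N_k e_b` are in the tangent hyperplane, `hes` vanishes on it, so `pol F Q v w = 0` (`hes_add`), which is `qd F b i k (Q)`.
`h2` = the product over the (finitely many) minimal primes `p` of `J` of the linear forms `∑ c_i X_i` of `dir`; `F` is irreducible of degree
7, so it does not divide it.  A flat `Q` is a zero of some minimal prime (the kernel of `eval Q` is a prime over `J`).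
-/

set_option autoImplicit false

open MvPolynomial

namespace Pool.Agent.H3.SH

variable {L : Type} [Field L] [IsAlgClosed L] [CharZero L] {n : ℕ}

omit [IsAlgClosed L] [CharZero L] in
private theorem StT_comm (F : MvPolynomial (Fin n) L) (i j : Fin n) :
    pderiv j (pderiv i F) = pderiv i (pderiv j F) := by
  classical
  ext m
  rw [coeff_pderiv, coeff_pderiv, coeff_pderiv, coeff_pderiv]
  by_cases hij : i = j
  · rw [hij]
  · have h1 : (m + Finsupp.single j 1 + Finsupp.single i 1 : Fin n →₀ ℕ) =
        m + Finsupp.single i 1 + Finsupp.single j 1 := by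
      rw [add_assoc, add_assoc, add_comm (Finsupp.single j 1)]
    have h2 : (m + Finsupp.single j 1 : Fin n →₀ ℕ) i = m i := by
      rw [Finsupp.add_apply, Finsupp.single_eq_of_ne hij, add_zero]
    have h3 : (m + Finsupp.single i 1 : Fin n →₀ ℕ) j = m j := by
      rw [Finsupp.add_apply, Finsupp.single_eq_of_ne (Ne.symm hij), add_zero]
    rw [h1, h2, h3]
    ring

omit [IsAlgClosed L] in
/-- a flat point is a zero of all `qd` -/
private theorem StT_qd {M : Type} [Field M] [Algebra L M] {F : MvPolynomial (Fin n) L}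
    (hF : F.IsHomogeneous 7) {Q : Fin n → M}
    (hQ : ∀ y, tan F Q y = 0 → hes F Q y = 0) (b i k : Fin n) : aeval Q (qd F b i k) = 0 := by
  classical
  have hch : CharZero M := charZero_of_injective_algebraMap (algebraMap L M).injective
  set N : Fin n → M := fun j => aeval Q (pderiv j F) with hN
  set v : Fin n → Fin n → M := fun i j => N b * (if j = i then 1 else 0) - N i * (if j = b then 1 else 0)
    with hv
  have ht : ∀ i, tan F Q (v i) = 0 := by
    intro i
    rw [tan_eq hF]
    have h1 : ∀ j ∈ Finset.univ, aeval Q (pderiv j F) * v i j =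
        N b * (if j = i then N j else 0) - N i * (if j = b then N j else 0) := by
      intro j _
      simp only [hv, hN]
      split_ifs <;> ring
    rw [Finset.sum_congr rfl h1, Finset.sum_sub_distrib, ← Finset.mul_sum, ← Finset.mul_sum,
      Finset.sum_ite_eq' Finset.univ i, Finset.sum_ite_eq' Finset.univ b,
      if_pos (Finset.mem_univ _), if_pos (Finset.mem_univ _)]
    ring
  have hpol : pol F Q (v i) (v k) = 0 := by
    have h1 := hQ _ (ht i)
    have h2 := hQ _ (ht k)
    have h3 := hQ (fun j => 1 * v i j + v k j) (by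
      rw [tan_add hF, ht i, ht k]; ring)
    rw [hes_add hF, h1, h2] at h3
    linear_combination h3
  have hexp : pol F Q (v i) (v k) = aeval Q (qd F b i k) := by
    unfold pol qd
    have h1 : ∀ a ∈ Finset.univ, ∑ j, aeval Q (pderiv j (pderiv a F)) * v i a * v k j =
        N b * (if a = i then (N b * aeval Q (pderiv k (pderiv a F)) -
          N k * aeval Q (pderiv b (pderiv a F))) else 0) -
        N i * (if a = b then (N b * aeval Q (pderiv k (pderiv a F)) -
          N k * aeval Q (pderiv b (pderiv a F))) else 0) := by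
      intro a _
      have h2 : ∀ j ∈ Finset.univ, aeval Q (pderiv j (pderiv a F)) * v i a * v k j =
          v i a * (N b * (if j = k then aeval Q (pderiv j (pderiv a F)) else 0)) -
          v i a * (N k * (if j = b then aeval Q (pderiv j (pderiv a F)) else 0)) := by
        intro j _
        have hvk : v k j = N b * (if j = k then 1 else 0) - N k * (if j = b then 1 else 0) := rfl
        rw [hvk]
        split_ifs <;> ring
      rw [Finset.sum_congr rfl h2, Finset.sum_sub_distrib, ← Finset.mul_sum, ← Finset.mul_sum,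
        ← Finset.mul_sum, ← Finset.mul_sum, Finset.sum_ite_eq' Finset.univ k,
        Finset.sum_ite_eq' Finset.univ b, if_pos (Finset.mem_univ _), if_pos (Finset.mem_univ _)]
      have hvi : v i a = N b * (if a = i then 1 else 0) - N i * (if a = b then 1 else 0) := rfl
      rw [hvi]
      split_ifs <;> ring
    rw [Finset.sum_congr rfl h1, Finset.sum_sub_distrib, ← Finset.mul_sum, ← Finset.mul_sum,
      Finset.sum_ite_eq' Finset.univ i, Finset.sum_ite_eq' Finset.univ b,
      if_pos (Finset.mem_univ _), if_pos (Finset.mem_univ _)]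
    simp only [map_add, map_sub, map_mul, map_pow]
    rw [StT_comm F k i, StT_comm F b i, StT_comm F b k]
    simp only [hN]
    ring
  rw [← hexp, hpol]

theorem exists_h2 (hn : 3 ≤ n) {F : MvPolynomial (Fin n) L} (hF : F.IsHomogeneous 7) (hsm : Pool.Agent.H8.SD.Smooth L F) :
    ∃ h2 : MvPolynomial (Fin n) L, ¬ F ∣ h2 ∧ ∀ (M : Type) [Field M] [Algebra L M] (Q R : Fin n → M),
      Flat F Q → tan F Q R = 0 → aeval R h2 = 0 := by
  classical
  have hirr : Irreducible F := Pool.Agent.H8.SD.irreducible_of_smooth hn hF hsm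
  have hprime : Prime F := hirr.prime
  set J : Ideal (MvPolynomial (Fin n) L) :=
    Ideal.span ({F} ∪ {g | ∃ b i k, g = qd F b i k}) with hJ
  have hFJ : F ∈ J := Ideal.subset_span (Or.inl rfl)
  have hqJ : ∀ b i k, qd F b i k ∈ J := fun b i k => Ideal.subset_span (Or.inr ⟨b, i, k, rfl⟩)
  have hfin : J.minimalPrimes.Finite := J.finite_minimalPrimes_of_isNoetherianRing
  have hc : ∀ p : Ideal (MvPolynomial (Fin n) L), ∃ c : Fin n → L, p ∈ J.minimalPrimes → c ≠ 0 ∧
      ∀ (M : Type) [Field M] [Algebra L M] (Q : Fin n → M), Q ≠ 0 → (∀ g ∈ p, aeval Q g = 0) →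
        ∀ R : Fin n → M, ∑ i, aeval Q (pderiv i F) * R i = 0 →
          ∑ i, algebraMap L M (c i) * R i = 0 := by
    intro p
    by_cases hp : p ∈ J.minimalPrimes
    · have hpp : p.IsPrime := hp.1.1
      have hJp : J ≤ p := hp.1.2
      obtain ⟨c, hc⟩ := dir hsm (by omega) hpp (hJp hFJ) (fun b i k => hJp (hqJ b i k))
      exact ⟨c, fun _ => hc⟩
    · exact ⟨0, fun h => absurd h hp⟩
  choose c hc using hc
  refine ⟨∏ p ∈ hfin.toFinset, ∑ i, C (c p i) * X i, ?_, ?_⟩
  · intro hdvd
    obtain ⟨p, hp, hdp⟩ := (Prime.dvd_finsetProd_iff hprime _).1 hdvd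
    obtain ⟨hc0, -⟩ := hc p (hfin.mem_toFinset.1 hp)
    have hne : (∑ i, C (c p i) * X i : MvPolynomial (Fin n) L) ≠ 0 := by
      intro h
      apply hc0
      funext i
      have h1 : eval (Pi.single i 1) (∑ i, C (c p i) * X i : MvPolynomial (Fin n) L) =
          ∑ j, c p j * (Pi.single i (1 : L) : Fin n → L) j := by
        rw [map_sum]
        refine Finset.sum_congr rfl fun j _ => ?_
        rw [map_mul, eval_C, eval_X]
      rw [h, map_zero] at h1
      simp only [Pi.single_apply, mul_ite, mul_one, mul_zero, Finset.sum_ite_eq',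
        Finset.mem_univ, if_true] at h1
      exact h1.symm
    have h1 := totalDegree_le_of_dvd_of_isDomain hdp hne
    rw [hF.totalDegree hirr.ne_zero] at h1
    have h2 : (∑ i, C (c p i) * X i : MvPolynomial (Fin n) L).totalDegree ≤ 1 := by
      refine totalDegree_finsetSum_le fun i _ => ?_
      refine (totalDegree_mul _ _).trans ?_
      rw [totalDegree_C, totalDegree_X]
    omega
  · intro M _ _ Q R hQ hR
    obtain ⟨hQ0, hQF, hQh⟩ := hQ
    set m : Ideal (MvPolynomial (Fin n) L) :=
      RingHom.ker (aeval Q : MvPolynomial (Fin n) L →ₐ[L] M) with hm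
    have hmp : m.IsPrime := RingHom.ker_isPrime _
    have hJm : J ≤ m := by
      rw [hJ, Ideal.span_le]
      rintro g (rfl | ⟨b, i, k, rfl⟩)
      · exact hQF
      · exact StT_qd hF hQh b i k
    obtain ⟨p, hp, hpm⟩ := Ideal.exists_minimalPrimes_le hJm
    obtain ⟨-, hc2⟩ := hc p hp
    have h1 := hc2 M Q hQ0 (fun g hg => hpm hg) R (by
      rw [tan_eq hF] at hR
      exact hR)
    rw [map_prod]
    refine Finset.prod_eq_zero (hfin.mem_toFinset.2 hp) ?_
    rw [map_sum, ← h1]
    refine Finset.sum_congr rfl fun i _ => ?_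
    rw [map_mul, aeval_C, aeval_X]

end Pool.Agent.H3.SH
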