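import Pool.Agent.H3.SH.Der
import Pool.Agent.H3.SH.Ext
import Pool.Agent.H3.SH.PolB
import Pool.Agent.H3.SH.StT

/-!
# SH DirM: `Dir` and `StT` for points with coordinates in extension fields (same proofs)
-/

set_option autoImplicit false

open MvPolynomial

namespace Pool.Agent.H3.SH

variable {L : Type} [Field L] [IsAlgClosed L] [CharZero L] {n : ℕ}

theorem dirM {F : MvPolynomial (Fin n) L} (hsm : Pool.Agent.H8.SD.Smooth L F) (hn : n ≠ 0) {p : Ideal (MvPolynomial (Fin n) L)}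
    (hp : p.IsPrime) (hFp : F ∈ p) (hq : ∀ b i k, qd F b i k ∈ p) :
    ∃ c : Fin n → L, c ≠ 0 ∧ ∀ (M : Type) [Field M] [Algebra L M] (Q : Fin n → M), Q ≠ 0 → (∀ g ∈ p, aeval Q g = 0) → ∀ R : Fin n → M,
      ∑ i, aeval Q (pderiv i F) * R i = 0 → ∑ i, algebraMap L M (c i) * R i = 0 :=
  dir hsm hn hp hFp hq

theorem exists_h2M (hn : 3 ≤ n) {F : MvPolynomial (Fin n) L} (hF : F.IsHomogeneous 7) (hsm : Pool.Agent.H8.SD.Smooth L F) :
    ∃ h2 : MvPolynomial (Fin n) L, ¬ F ∣ h2 ∧ ∀ (M : Type) [Field M] [Algebra L M] (Q R : Fin n → M), Flat F Q → tan F Q R = 0 →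
      aeval R h2 = 0 :=
  exists_h2 hn hF hsm

end Pool.Agent.H3.SH
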