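import Pool.Agent.H3.SH.Defs

/-!
# SH Dn: density of products

For fixed `c : τ → K` the polynomial `f (., pt c)` vanishes on `S`, so on `T`; for fixed `Q ∈ T` the polynomial `f (Q, .)` vanishes at
`K^τ`, `K` infinite, so it is zero (`MvPolynomial.funext_set` or so).
-/

set_option autoImplicit false

open MvPolynomial

namespace Pool.Agent.H3.SH

variable {K L : Type} [Field K] [Field L] [Algebra K L] {ι : Type}

private theorem dn_eval {σ τ : Type} (f : MvPolynomial σ L) (φ : σ → MvPolynomial τ L) (y : τ → L) :
    eval y (bind₁ φ f) = eval (fun i => eval y (φ i)) f := by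
  induction f using MvPolynomial.induction_on with
  | C a => simp
  | add p q hp hq => rw [map_add, map_add, map_add, hp, hq]
  | mul_X p i hp => rw [map_mul, map_mul, map_mul, hp, bind₁_X_right, eval_X]

/-- a polynomial over `L` which vanishes at all points over the infinite field `K` is zero -/
theorem eq_zero_of_pt [Infinite K] {τ : Type} [Finite τ] {f : MvPolynomial τ L} (hf : ∀ c : τ → K, eval (pt L c) f = 0) : f = 0 := by
  refine funext_set (fun _ => Set.range (algebraMap K L))
    (fun _ => Set.infinite_range_of_injective (algebraMap K L).injective) ?_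
  intro x hx
  have h1 : ∀ i, ∃ c : K, algebraMap K L c = x i := fun i => hx i (Set.mem_univ i)
  choose c hc using h1
  have h2 : x = pt L c := funext fun i => (hc i).symm
  rw [h2, hf c, map_zero]

theorem dense_prod [Infinite K] {τ : Type} [Finite τ] {S T : Set (ι → L)} (h : Dense S T) :
    Dense {z : ι ⊕ τ → L | z ∘ Sum.inl ∈ S ∧ ∃ c : τ → K, z ∘ Sum.inr = pt L c} {z : ι ⊕ τ → L | z ∘ Sum.inl ∈ T} := by
  intro f hf z hz
  have hA : ∀ (c : τ → K), ∀ y ∈ T, eval (Sum.elim y (pt L c)) f = 0 := by
    intro c y hy
    have h1 := h (bind₁ (Sum.elim X fun j => C (pt L c j)) f) (fun w hw => by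
      rw [dn_eval]
      refine hf _ ⟨?_, c, ?_⟩
      · have : (fun i => eval w (Sum.elim X (fun j => C (pt L c j)) i)) ∘ Sum.inl = w := by
          funext i
          simp
        rw [this]
        exact hw
      · funext j
        simp) y hy
    rw [dn_eval] at h1
    have h2 : (fun i => eval y (Sum.elim X (fun j => C (pt L c j)) i)) = Sum.elim y (pt L c) := by
      funext i
      rcases i with i | i <;> simp
    rwa [h2] at h1
  have hB : bind₁ (Sum.elim (fun i => C ((z ∘ Sum.inl) i)) X) f = 0 := by
    refine eq_zero_of_pt (K := K) fun c => ?_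
    rw [dn_eval]
    have h2 : (fun i => eval (pt L c) (Sum.elim (fun i => C ((z ∘ Sum.inl) i)) X i)) =
        Sum.elim (z ∘ Sum.inl) (pt L c) := by
      funext i
      rcases i with i | i <;> simp
    rw [h2]
    exact hA c _ hz
  have hC := congrArg (eval (z ∘ Sum.inr)) hB
  rw [dn_eval, map_zero] at hC
  have h2 : (fun i => eval (z ∘ Sum.inr) (Sum.elim (fun i => C ((z ∘ Sum.inl) i)) X i)) = z := by
    funext i
    rcases i with i | i <;> simp
  rwa [h2] at hC

end Pool.Agent.H3.SH
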