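import Pool.Agent.H3.SH.NoR
import Pool.Agent.H3.SH.TraG
import Pool.Agent.H3.SH.DirM

/-!
# SH H3p: the polynomial `h3` for the lines of `X` through `P`

For every line `W` of the finite set choose `v ∈ W` such that `P, v` is a basis of `W`.  `exists_gen` (`F` irreducible by
`Pool.Agent.H8.SD.irreducible_of_smooth`), `Ω = AlgebraicClosure E`, `no_root` (with `exists_h2M`): the polynomials
`tan F (s P + v) X`, `hes F (s P + v) X` in `L[x][s]` (`τ = Unit`, `κ = Bool`, `map_tan`, `map_hes`) have no common zero `s ∈ Ω` at the generic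
point, so `tra_gen` gives `b_W`, `¬ F ∣ b_W`, such that they have no common zero `s ∈ L` at the zeros `R` of `F` with `b_W (R) ≠ 0`.
`h3 = ∏ b_W`.  If `Q` is on the line `W` and `P, Q` are independent, then `Q = β (s P + v)`, `β ≠ 0`, `tan F Q R = β ^ 6 tan F (s P + v) R`,
`hes F Q R = β ^ 5 hes F (s P + v) R`.
-/

set_option autoImplicit false

open MvPolynomial

namespace Pool.Agent.H3.SH

private theorem H3p_ln_smul {K : Type} [Field K] {ι A : Type} [CommRing A] [Algebra K A] (F : MvPolynomial ι K) (x y : ι → A) (s : A) :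
    ln F (fun i => s * x i) y = (ln F x y).comp (Polynomial.C s * Polynomial.X) := by
  unfold ln
  have h2 := eval₂_comp_left (Polynomial.compRingHom (Polynomial.C s * Polynomial.X))
    (algebraMap K (Polynomial A)) (fun i => Polynomial.C (x i) * Polynomial.X + Polynomial.C (y i)) F
  have h3 : (Polynomial.compRingHom (Polynomial.C s * Polynomial.X)).comp (algebraMap K (Polynomial A)) =
      algebraMap K (Polynomial A) := by
    ext1 c
    rw [RingHom.comp_apply, Polynomial.algebraMap_apply, Polynomial.coe_compRingHom_apply, Polynomial.C_comp]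
  have h4 : (Polynomial.compRingHom (Polynomial.C s * Polynomial.X)) ∘
      (fun i => Polynomial.C (x i) * Polynomial.X + Polynomial.C (y i)) =
      fun i => Polynomial.C (s * x i) * Polynomial.X + Polynomial.C (y i) := by
    funext i
    rw [Function.comp_apply, Polynomial.coe_compRingHom_apply, Polynomial.add_comp, Polynomial.mul_comp,
      Polynomial.C_comp, Polynomial.X_comp, Polynomial.C_comp, Polynomial.C_mul]
    ring
  rw [h3, h4, Polynomial.coe_compRingHom_apply] at h2
  rw [aeval_def, aeval_def, h2]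

private theorem H3p_tan_smul {K : Type} [Field K] {ι A : Type} [CommRing A] [Algebra K A] (F : MvPolynomial ι K) (x y : ι → A) (s : A) :
    tan F (fun i => s * x i) y = s ^ 6 * tan F x y := by
  unfold tan
  rw [H3p_ln_smul, Polynomial.comp_C_mul_X_coeff, mul_comm]

private theorem H3p_hes_smul {K : Type} [Field K] {ι A : Type} [CommRing A] [Algebra K A] (F : MvPolynomial ι K) (x y : ι → A) (s : A) :
    hes F (fun i => s * x i) y = s ^ 5 * hes F x y := by
  unfold hes
  rw [H3p_ln_smul, Polynomial.comp_C_mul_X_coeff, mul_comm]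

/-- one line -/
private theorem H3p_one {L : Type} [Field L] [IsAlgClosed L] [CharZero L] {m : ℕ} (hm : 4 ≤ m) {F : MvPolynomial (Fin (m + 1)) L}
    (hF : F.IsHomogeneous 7) (hs : Pool.Agent.H8.SD.Smooth L F) {P v : Fin (m + 1) → L}
    (hv : ∀ a b : L, a • P + b • v = 0 → a = 0 ∧ b = 0) (hl : ∀ a b : L, eval (a • P + b • v) F = 0) :
    ∃ b : MvPolynomial (Fin (m + 1)) L, ¬ F ∣ b ∧ ∀ R : Fin (m + 1) → L, eval R F = 0 → eval R b ≠ 0 → ∀ s : L,
      tan F (fun i => s * P i + v i) R = 0 → hes F (fun i => s * P i + v i) R = 0 → False := by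
  have hirr := Pool.Agent.H8.SD.irreducible_of_smooth (K := L) (L := L) (n := m + 1) (by omega) hF hs
  obtain ⟨E, _, _, xi, hg, hfrac⟩ := exists_gen hirr
  obtain ⟨h2, hd2, hh2⟩ := exists_h2M (n := m + 1) (by omega) hF hs
  have hgΩ : Gen F (fun i => algebraMap E (AlgebraicClosure E) (xi i)) := by
    intro G
    rw [← hg G]
    have h1 : aeval (fun i => algebraMap E (AlgebraicClosure E) (xi i)) G =
        algebraMap E (AlgebraicClosure E) (aeval xi G) :=
      aeval_algebraMap_apply (AlgebraicClosure E) xi G
    rw [h1, map_eq_zero_iff _ (algebraMap E (AlgebraicClosure E)).injective]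
  let x0 : Fin (m + 1) → MvPolynomial Unit (MvPolynomial (Fin (m + 1)) L) :=
    fun i => X () * C (C (P i)) + C (C (v i))
  let y0 : Fin (m + 1) → MvPolynomial Unit (MvPolynomial (Fin (m + 1)) L) := fun i => C (X i)
  let Ph : Bool → MvPolynomial Unit (MvPolynomial (Fin (m + 1)) L) := fun k =>
    if k then tan F x0 y0 else hes F x0 y0
  obtain ⟨b, hb, hbR⟩ := tra_gen (Ω := AlgebraicClosure E) hg hfrac Ph (by
    intro y
    by_contra hcon
    push Not at hcon
    set f : MvPolynomial Unit (MvPolynomial (Fin (m + 1)) L) →+* AlgebraicClosure E :=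
      eval₂Hom (aeval (fun i => algebraMap E (AlgebraicClosure E) (xi i)) :
        MvPolynomial (Fin (m + 1)) L →ₐ[L] AlgebraicClosure E).toRingHom y with hfdef
    have hfc : ∀ c : L, f (algebraMap L (MvPolynomial Unit (MvPolynomial (Fin (m + 1)) L)) c) =
        algebraMap L (AlgebraicClosure E) c := by
      intro c
      rw [hfdef, MvPolynomial.algebraMap_apply, MvPolynomial.algebraMap_eq, eval₂Hom_C]
      show aeval _ (C c) = _
      rw [aeval_C]
    have hx : (fun i => f (x0 i)) = fun i => y () * algebraMap L (AlgebraicClosure E) (P i) +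
        algebraMap L (AlgebraicClosure E) (v i) := by
      funext i
      have hc : ∀ c : L, f (C (C c)) = algebraMap L (AlgebraicClosure E) c := by
        intro c
        rw [hfdef, eval₂Hom_C]
        show aeval _ (C c) = _
        rw [aeval_C]
      show f (X () * C (C (P i)) + C (C (v i))) = _
      rw [map_add, map_mul, hc, hc, hfdef, eval₂Hom_X']
    have hy : (fun i => f (y0 i)) = fun i => algebraMap E (AlgebraicClosure E) (xi i) := by
      funext i
      show f (C (X i)) = _
      rw [hfdef, eval₂Hom_C]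
      show aeval _ (X i) = _
      rw [aeval_X]
    have h1 : f (tan F x0 y0) = 0 := hcon true
    have h3 : f (hes F x0 y0) = 0 := hcon false
    rw [map_tan f hfc, hx, hy] at h1
    rw [map_hes f hfc, hx, hy] at h3
    exact no_root hm hF hs hd2 hh2 hgΩ hv (fun a b => by
      rw [aeval_eq_eval]; exact hl a b) (y ()) h1 h3)
  refine ⟨b, hb, fun R hR hRb s h1 h3 => ?_⟩
  obtain ⟨k, hk⟩ := hbR R hR hRb (fun _ => s)
  apply hk
  set f : MvPolynomial Unit (MvPolynomial (Fin (m + 1)) L) →+* L :=
    (eval fun _ => s).comp (map (eval R)) with hfdef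
  have hfc : ∀ c : L, f (algebraMap L (MvPolynomial Unit (MvPolynomial (Fin (m + 1)) L)) c) =
      algebraMap L L c := by
    intro c
    rw [hfdef, MvPolynomial.algebraMap_apply, MvPolynomial.algebraMap_eq, RingHom.comp_apply, map_C, eval_C, eval_C]
    rfl
  have hx : (fun i => f (x0 i)) = fun i => s * P i + v i := by
    funext i
    show (eval fun _ => s) (map (eval R) (X () * C (C (P i)) + C (C (v i)))) = _
    rw [map_add, map_mul, map_X, map_C, map_C, map_add, map_mul, eval_X, eval_C, eval_C, eval_C, eval_C]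
  have hy : (fun i => f (y0 i)) = R := by
    funext i
    show (eval fun _ => s) (map (eval R) (C (X i))) = _
    rw [map_C, eval_C, eval_X]
  have key : f (Ph k) = 0 := by
    cases k with
    | true =>
      show f (tan F x0 y0) = 0
      rw [map_tan f hfc, hx, hy]
      exact h1
    | false =>
      show f (hes F x0 y0) = 0
      rw [map_hes f hfc, hx, hy]
      exact h3
  exact key

theorem exists_h3 {L : Type} [Field L] [IsAlgClosed L] [CharZero L] {m : ℕ} (hm : 4 ≤ m) {F : MvPolynomial (Fin (m + 1)) L}
    (hF : F.IsHomogeneous 7) (hs : Pool.Agent.H8.SD.Smooth L F) {P : Fin (m + 1) → L} (hP0 : P ≠ 0)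
    (hfin : {W : Submodule L (Fin (m + 1) → L) | Module.finrank L W = 2 ∧ P ∈ W ∧ ∀ x ∈ W, eval x F = 0}.Finite) :
    ∃ h3 : MvPolynomial (Fin (m + 1)) L, ¬ F ∣ h3 ∧ ∀ R Q : Fin (m + 1) → L, eval R F = 0 →
      (∀ a b : L, a • P + b • Q = 0 → a = 0 ∧ b = 0) → (∀ a b : L, eval (a • P + b • Q) F = 0) → tan F Q R = 0 → hes F Q R = 0 →
      eval R h3 = 0 := by
  classical
  have hirr := Pool.Agent.H8.SD.irreducible_of_smooth (K := L) (L := L) (n := m + 1) (by omega) hF hs
  -- for every line a polynomial
  have hex : ∀ W : Submodule L (Fin (m + 1) → L), ∃ b : MvPolynomial (Fin (m + 1)) L, ¬ F ∣ b ∧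
      ((Module.finrank L W = 2 ∧ P ∈ W ∧ ∀ x ∈ W, eval x F = 0) → ∀ R Q : Fin (m + 1) → L, eval R F = 0 →
        Q ∈ W → (∀ a b : L, a • P + b • Q = 0 → a = 0 ∧ b = 0) → tan F Q R = 0 → hes F Q R = 0 → eval R b = 0) := by
    intro W
    by_cases hW : ∃ v ∈ W, ∀ a b : L, a • P + b • v = 0 → a = 0 ∧ b = 0
    · obtain ⟨v, hvW, hv⟩ := hW
      by_cases hW' : Module.finrank L W = 2 ∧ P ∈ W ∧ ∀ x ∈ W, eval x F = 0
      · obtain ⟨hdim, hPW, hWF⟩ := hW'
        obtain ⟨b, hb, hbR⟩ := H3p_one hm hF hs hv (fun a b =>
          hWF _ (W.add_mem (W.smul_mem a hPW) (W.smul_mem b hvW)))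
        refine ⟨b, hb, fun _ R Q hR hQW hPQ h1 h3 => ?_⟩
        by_contra hne
        -- `Q` is in the span of `P` and `v`
        have hspan : W ≤ Submodule.span L {P, v} := by
          have hle : Submodule.span L {P, v} ≤ W := by
            rw [Submodule.span_le]
            rintro x (rfl | rfl)
            · exact hPW
            · exact hvW
          have hli : LinearIndependent L ![P, v] := by
            rw [LinearIndependent.pair_iff]
            exact hv
          have hf : Module.finrank L (Submodule.span L {P, v}) = 2 := by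
            have h4 := finrank_span_eq_card hli
            rw [Matrix.range_cons, Matrix.range_cons, Matrix.range_empty, Set.union_empty,
              Set.singleton_union] at h4
            rw [h4, Fintype.card_fin]
          exact (Submodule.eq_of_le_of_finrank_eq hle (by rw [hf, hdim])).ge
        obtain ⟨α, β, hQ⟩ := Submodule.mem_span_pair.1 (hspan hQW)
        have hβ : β ≠ 0 := by
          rintro rfl
          have h4 := hPQ α (-1) (by rw [← hQ]; simp)
          exact one_ne_zero (neg_eq_zero.1 h4.2)
        have hQ' : Q = fun i => β * (α / β * P i + v i) := by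
          rw [← hQ]
          funext i
          simp only [Pi.add_apply, Pi.smul_apply, smul_eq_mul]
          field_simp
        rw [hQ', H3p_tan_smul] at h1
        rw [hQ', H3p_hes_smul] at h3
        exact hbR R hR hne (α / β) ((mul_eq_zero.1 h1).resolve_left (pow_ne_zero _ hβ))
          ((mul_eq_zero.1 h3).resolve_left (pow_ne_zero _ hβ))
      · exact ⟨1, fun h => hirr.not_isUnit (isUnit_of_dvd_one h), fun h => absurd h hW'⟩
    · exact ⟨1, fun h => hirr.not_isUnit (isUnit_of_dvd_one h), fun _ R Q _ hQW hPQ _ _ =>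
        absurd ⟨Q, hQW, hPQ⟩ hW⟩
  choose b hb hbW using hex
  refine ⟨∏ W ∈ hfin.toFinset, b W, ?_, ?_⟩
  · intro h
    obtain ⟨W, _, hW⟩ := (hirr.prime.dvd_finsetProd_iff _).1 h
    exact hb W hW
  · intro R Q hR hPQ hl h1 h3
    set W : Submodule L (Fin (m + 1) → L) := Submodule.span L {P, Q} with hWdef
    have hPW : P ∈ W := Submodule.subset_span (by simp)
    have hQW : Q ∈ W := Submodule.subset_span (by simp)
    have hli : LinearIndependent L ![P, Q] := by
      rw [LinearIndependent.pair_iff]
      exact hPQ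
    have hf : Module.finrank L W = 2 := by
      have h4 := finrank_span_eq_card hli
      rw [Matrix.range_cons, Matrix.range_cons, Matrix.range_empty, Set.union_empty,
        Set.singleton_union] at h4
      rw [hWdef, h4, Fintype.card_fin]
    have hWF : ∀ x ∈ W, eval x F = 0 := by
      intro x hx
      obtain ⟨α, β, rfl⟩ := Submodule.mem_span_pair.1 hx
      exact hl α β
    have hmem : W ∈ hfin.toFinset := by
      rw [Set.Finite.mem_toFinset]
      exact ⟨hf, hPW, hWF⟩
    rw [map_prod]
    exact Finset.prod_eq_zero hmem (hbW W ⟨hf, hPW, hWF⟩ R Q hR hQW hPQ h1 h3)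

end Pool.Agent.H3.SH
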