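import Mathlib

/-!
# SH La: linear algebra (part L of note 5648)

Take distinct `s_1, ..., s_k ∈ S` and `g ∈ G`, `g ≠ 0`, with `g (s_i) = 0` for all `i` (`dim G = k + 1 > k`).  `g = g' ∏ (X - s_i)`.
By induction on `m`: `g' X^j ∏_(i > m) (X - s_i) ∈ G` for `j ≤ m` (it vanishes at `s_m`; divide by `X - s_m`, multiply by `X`).  For
`m = k`: `g' X^j ∈ G`, `j = 0, ..., k`; these are `k + 1` independent elements, so they span `G`.
-/

set_option autoImplicit false

open Polynomial

namespace Pool.Agent.H3.SH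

private theorem la_step {E : Type} [Field E] (G : Submodule E E[X]) {k : ℕ} {S : Set E}
    (h : ∀ s ∈ S, ∀ g ∈ G, g.eval s = 0 → ∃ h, g = (X - C s) * h ∧ h ∈ G ∧ X * h ∈ G)
    (s : ℕ → E) (hs : ∀ i, s i ∈ S) (hinj : Function.Injective s) {g : E[X]} (hg : g ∈ G)
    (hg0 : g ≠ 0) (hgs : ∀ i, i < k → g.eval (s i) = 0) :
    ∀ m, m ≤ k → ∃ f : E[X], f ≠ 0 ∧ (∀ j, j ≤ m → f * X ^ j ∈ G) ∧
      ∀ i, m ≤ i → i < k → f.eval (s i) = 0 := by
  intro m
  induction m with
  | zero =>
    intro _
    refine ⟨g, hg0, fun j hj => ?_, fun i _ hi => hgs i hi⟩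
    obtain rfl : j = 0 := by omega
    rw [pow_zero, mul_one]
    exact hg
  | succ m ih =>
    intro hm
    obtain ⟨f, hf0, hfG, hfs⟩ := ih (by omega)
    have hfm : f.eval (s m) = 0 := hfs m le_rfl (by omega)
    have hf1 : f ∈ G := by
      have := hfG 0 (Nat.zero_le _)
      rwa [pow_zero, mul_one] at this
    obtain ⟨f', hf', _, _⟩ := h (s m) (hs m) f hf1 hfm
    have hX : (X - C (s m) : E[X]) ≠ 0 := X_sub_C_ne_zero _
    have key : ∀ j, j ≤ m → f' * X ^ j ∈ G ∧ f' * X ^ (j + 1) ∈ G := by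
      intro j hj
      obtain ⟨r, hr, hr1, hr2⟩ := h (s m) (hs m) (f * X ^ j) (hfG j hj) (by
        rw [eval_mul, hfm, zero_mul])
      have hr3 : r = f' * X ^ j := by
        apply mul_left_cancel₀ hX
        rw [← hr, hf', mul_assoc]
      refine ⟨by rw [← hr3]; exact hr1, ?_⟩
      have hr4 : f' * X ^ (j + 1) = X * r := by
        rw [hr3, pow_succ]
        ring
      rw [hr4]
      exact hr2
    refine ⟨f', ?_, ?_, ?_⟩
    · rintro rfl
      rw [mul_zero] at hf'
      exact hf0 hf'
    · intro j hj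
      rcases Nat.lt_or_ge m j with h1 | h1
      · obtain rfl : j = m + 1 := by omega
        exact (key m le_rfl).2
      · exact (key j h1).1
    · intro i hi hik
      have h1 := hfs i (by omega) hik
      rw [hf', eval_mul, eval_sub, eval_X, eval_C] at h1
      rcases mul_eq_zero.1 h1 with h2 | h2
      · exfalso
        have h3 := hinj (sub_eq_zero.1 h2)
        omega
      · exact h2

theorem la {E : Type} [Field E] (G : Submodule E E[X]) [FiniteDimensional E G] {k : ℕ} (hk : Module.finrank E G = k + 1) {S : Set E}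
    (hS : S.Infinite) (h : ∀ s ∈ S, ∀ g ∈ G, g.eval s = 0 → ∃ h, g = (X - C s) * h ∧ h ∈ G ∧ X * h ∈ G) :
    ∃ g' : E[X], g' ≠ 0 ∧ ∀ g ∈ G, ∃ q, g = g' * q ∧ q.natDegree ≤ k := by
  classical
  set s : ℕ → E := fun i => (hS.natEmbedding S i : E) with hsdef
  have hs : ∀ i, s i ∈ S := fun i => (hS.natEmbedding S i).2
  have hinj : Function.Injective s := fun i j hij =>
    (hS.natEmbedding S).injective (Subtype.ext hij)
  let φ : G →ₗ[E] (Fin k → E) :=
    { toFun := fun g i => (g : E[X]).eval (s i)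
      map_add' := fun a b => by
        funext i
        simp
      map_smul' := fun r a => by
        funext i
        simp }
  have hker : LinearMap.ker φ ≠ ⊥ := by
    apply LinearMap.ker_ne_bot_of_finrank_lt
    rw [hk, Module.finrank_fintype_fun_eq_card, Fintype.card_fin]
    exact Nat.lt_succ_self k
  obtain ⟨g, hgker, hg0⟩ := Submodule.exists_mem_ne_zero_of_ne_bot hker
  have hgs : ∀ i, i < k → (g : E[X]).eval (s i) = 0 := by
    intro i hi
    have h1 : φ g = 0 := hgker
    exact congrFun h1 ⟨i, hi⟩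
  have hg0' : (g : E[X]) ≠ 0 := by
    intro h1
    exact hg0 (Subtype.ext h1)
  obtain ⟨g', hg'0, hg'G, _⟩ := la_step G h s hs hinj g.2 hg0' hgs k le_rfl
  refine ⟨g', hg'0, ?_⟩
  let b : Fin (k + 1) → G := fun j => ⟨g' * X ^ (j : ℕ), hg'G j (by omega)⟩
  have hcoe : ∀ c : Fin (k + 1) → E, ((∑ i, c i • b i : G) : E[X]) =
      g' * ∑ i : Fin (k + 1), C (c i) * X ^ (i : ℕ) := by
    intro c
    rw [AddSubmonoidClass.coe_finsetSum, Finset.mul_sum]
    refine Finset.sum_congr rfl fun i _ => ?_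
    rw [Submodule.coe_smul, smul_eq_C_mul]
    change C (c i) * (g' * X ^ (i : ℕ)) = g' * (C (c i) * X ^ (i : ℕ))
    ring
  have hli : LinearIndependent E b := by
    rw [Fintype.linearIndependent_iff]
    intro c hc i
    have h1 : g' * ∑ i : Fin (k + 1), C (c i) * X ^ (i : ℕ) = 0 := by
      rw [← hcoe c, hc]
      rfl
    rcases mul_eq_zero.1 h1 with h2 | h2
    · exact absurd h2 hg'0
    · have h3 := congrArg (fun p : E[X] => p.coeff (i : ℕ)) h2
      simp only [finsetSum_coeff, coeff_C_mul_X_pow, coeff_zero] at h3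
      rw [Finset.sum_eq_single i] at h3
      · simpa using h3
      · intro j _ hji
        rw [if_neg]
        intro h4
        exact hji (Fin.ext h4.symm)
      · intro h4
        exact absurd (Finset.mem_univ i) h4
  have hspan := hli.span_eq_top_of_card_eq_finrank' (by rw [Fintype.card_fin, hk])
  intro p hp
  have h1 : (⟨p, hp⟩ : G) ∈ Submodule.span E (Set.range b) := by
    rw [hspan]
    trivial
  obtain ⟨c, hc⟩ := (Submodule.mem_span_range_iff_exists_fun E).1 h1
  refine ⟨∑ i : Fin (k + 1), C (c i) * X ^ (i : ℕ), ?_, ?_⟩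
  · rw [← hcoe c, hc]
  · apply natDegree_sum_le_of_forall_le
    intro i _
    exact (natDegree_C_mul_X_pow_le _ _).trans (by omega)

end Pool.Agent.H3.SH
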