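import Pool.Agent.H3.SH.PolA
import Pool.Agent.H3.SH.Ext

/-!
# SH Tra: transfer from the generic point (part L of note 5648)

`E` is generated by the generic point `xi` of `F = 0`, `Ω` an algebraically closed extension of `E`.  If no line `xi v` with `v_0 = 0`,
`v ≠ 0` lies in `F = 0` (over `Ω`), then the Nullstellensatz over `E` (zeros in `Ω`: `vanishingIdeal_zeroLocus_eq_radical`) for the ideal
`I ⊆ E[v]` generated by the coefficients of `ln F v xi ∈ E[v][s]` (generic `v i = X i`) and by `v_0` gives `v_i ^ M ∈ I` for all `i`.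
`I` is generated by the image of the ideal `I' ⊆ L[x][v]` of the generic coefficients.  Clear denominators: there is `b ∈ L[x]` with
`b (xi) ≠ 0`, i.e. `¬ F ∣ b`, and `g' ∈ I'` whose image is `b (xi) v_i ^ M`; the difference `g' - b v_i ^ M` has coefficients which vanish at
`xi`, so they are divisible by `F` and vanish at every zero `R` of `F`.  If `R` is on a line of `X` and `R_0 ≠ 0`, then the line contains
`v ≠ 0` with `v_0 = 0`, `ln F v R = 0`, so `b (R) v_i ^ M = 0`, `b (R) = 0`.  `h1 = X_0 ∏ b`.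
-/

set_option autoImplicit false

open MvPolynomial

namespace Pool.Agent.H3.SH

section
variable {L : Type} [Field L] {n : ℕ} {E : Type} [Field E] [Algebra L E]

private theorem Tra_clear {xi : Fin n → E}
    (hfrac : ∀ e : E, ∃ a b : MvPolynomial (Fin n) L, aeval xi b ≠ 0 ∧ e * aeval xi b = aeval xi a) (g : MvPolynomial (Fin n) E) :
    ∃ b : MvPolynomial (Fin n) L, aeval xi b ≠ 0 ∧ ∃ g' : MvPolynomial (Fin n) (MvPolynomial (Fin n) L),
      map (aeval xi : MvPolynomial (Fin n) L →ₐ[L] E).toRingHom g' = C (aeval xi b) * g := by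
  induction g using MvPolynomial.induction_on with
  | C e =>
    obtain ⟨a, b, hb, hab⟩ := hfrac e
    refine ⟨b, hb, C a, ?_⟩
    rw [map_C, ← C_mul, mul_comm, hab]
    rfl
  | add p q hp hq =>
    obtain ⟨b, hb, p', hp'⟩ := hp
    obtain ⟨c, hc, q', hq'⟩ := hq
    refine ⟨b * c, by rw [map_mul]; exact mul_ne_zero hb hc, C c * p' + C b * q', ?_⟩
    rw [map_add, map_mul, map_mul, hp', hq', map_C, map_C]
    simp only [AlgHom.toRingHom_eq_coe, RingHom.coe_coe, map_mul]
    ring
  | mul_X p i hp =>
    obtain ⟨b, hb, p', hp'⟩ := hp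
    refine ⟨b, hb, p' * X i, ?_⟩
    rw [map_mul, hp', map_X]
    ring

private theorem Tra_ideal {xi : Fin n → E}
    (hfrac : ∀ e : E, ∃ a b : MvPolynomial (Fin n) L, aeval xi b ≠ 0 ∧ e * aeval xi b = aeval xi a)
    (I' : Ideal (MvPolynomial (Fin n) (MvPolynomial (Fin n) L))) {g : MvPolynomial (Fin n) E}
    (hg : g ∈ I'.map (map (aeval xi : MvPolynomial (Fin n) L →ₐ[L] E).toRingHom)) :
    ∃ b : MvPolynomial (Fin n) L, aeval xi b ≠ 0 ∧ ∃ g' ∈ I',
      map (aeval xi : MvPolynomial (Fin n) L →ₐ[L] E).toRingHom g' = C (aeval xi b) * g := by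
  unfold Ideal.map at hg
  induction hg using Submodule.span_induction with
  | mem x hx =>
    obtain ⟨g', hg', rfl⟩ := hx
    refine ⟨1, by simp, g', hg', by simp⟩
  | zero => exact ⟨1, by simp, 0, I'.zero_mem, by simp⟩
  | add p q _ _ hp hq =>
    obtain ⟨b, hb, p', hpI, hp'⟩ := hp
    obtain ⟨c, hc, q', hqI, hq'⟩ := hq
    refine ⟨b * c, by rw [map_mul]; exact mul_ne_zero hb hc, C c * p' + C b * q', ?_, ?_⟩
    · exact I'.add_mem (I'.mul_mem_left _ hpI) (I'.mul_mem_left _ hqI)
    · rw [map_add, map_mul, map_mul, hp', hq', map_C, map_C]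
      simp only [AlgHom.toRingHom_eq_coe, RingHom.coe_coe, map_mul]
      ring
  | smul a p _ hp =>
    obtain ⟨b, hb, p', hpI, hp'⟩ := hp
    obtain ⟨c, hc, a', ha'⟩ := Tra_clear hfrac a
    refine ⟨c * b, by rw [map_mul]; exact mul_ne_zero hc hb, a' * p', I'.mul_mem_left _ hpI, ?_⟩
    rw [map_mul, hp', ha', smul_eq_mul, map_mul, C_mul]
    ring

end

theorem transfer {L : Type} [Field L] [Infinite L] {m : ℕ} {F : MvPolynomial (Fin (m + 1)) L} (hF : F.IsHomogeneous 7) (hirr : Irreducible F)
    {E : Type} [Field E] [Algebra L E] {xi : Fin (m + 1) → E} (hg : Gen F xi)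
    (hfrac : ∀ e : E, ∃ a b : MvPolynomial (Fin (m + 1)) L, aeval xi b ≠ 0 ∧ e * aeval xi b = aeval xi a)
    {Ω : Type} [Field Ω] [IsAlgClosed Ω] [Algebra E Ω] [Algebra L Ω] [IsScalarTower L E Ω]
    (hNL : ∀ v : Fin (m + 1) → Ω, v 0 = 0 → ln F v (fun i => algebraMap E Ω (xi i)) = 0 → v = 0) :
    ∃ h1 : MvPolynomial (Fin (m + 1)) L, ¬ F ∣ h1 ∧ ∀ R : Fin (m + 1) → L, aeval R F = 0 → OnLine F R → eval R h1 = 0 := by
  classical
  set Φ : MvPolynomial (Fin (m + 1)) (MvPolynomial (Fin (m + 1)) L) →+* MvPolynomial (Fin (m + 1)) E :=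
    map (aeval xi : MvPolynomial (Fin (m + 1)) L →ₐ[L] E).toRingHom with hΦ
  -- the generic line polynomial
  let P' : Polynomial (MvPolynomial (Fin (m + 1)) (MvPolynomial (Fin (m + 1)) L)) := ln F (fun i => X i) (fun i => C (X i))
  let I' : Ideal (MvPolynomial (Fin (m + 1)) (MvPolynomial (Fin (m + 1)) L)) :=
    Ideal.span (Set.range (fun k => P'.coeff k) ∪ {X 0})
  have hmapP : P'.map Φ = ln F (fun i => X i) (fun i => C (xi i)) := by
    rw [map_ln Φ (by
      intro c
      rw [hΦ]
      change map _ (C (C c)) = C (algebraMap L E c)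
      rw [map_C]
      simp)]
    congr 1
    · funext i
      rw [hΦ, map_X]
    · funext i
      rw [hΦ, map_C]
      simp
  -- the zero locus of the generic ideal
  have hmem : ∀ i : Fin (m + 1), (X i : MvPolynomial (Fin (m + 1)) E) ∈ (I'.map Φ).radical := by
    intro i
    rw [← vanishingIdeal_zeroLocus_eq_radical (K := Ω) (I'.map Φ), mem_vanishingIdeal_iff]
    intro v hv
    have hv0 : v 0 = 0 := by
      have h1 := hv (Φ (X 0)) (Ideal.mem_map_of_mem _ (Ideal.subset_span (Or.inr rfl)))
      rw [hΦ, map_X, aeval_X] at h1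
      exact h1
    have hvl : ln F v (fun i => algebraMap E Ω (xi i)) = 0 := by
      have h1 := map_ln (K := L) (aeval v : MvPolynomial (Fin (m + 1)) E →ₐ[E] Ω).toRingHom (by
        intro c
        change aeval v (C (algebraMap L E c)) = _
        rw [aeval_C, ← IsScalarTower.algebraMap_apply]) F (fun i => X i) (fun i => C (xi i))
      have h2 : (fun i => (aeval v : MvPolynomial (Fin (m + 1)) E →ₐ[E] Ω).toRingHom (X i)) = v := by
        funext i; simp
      have h3 : (fun i => (aeval v : MvPolynomial (Fin (m + 1)) E →ₐ[E] Ω).toRingHom (C (xi i))) = fun i => algebraMap E Ω (xi i) := by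
        funext i; simp
      rw [h2, h3, ← hmapP] at h1
      rw [← h1]
      ext k
      rw [Polynomial.coeff_map, Polynomial.coeff_map, Polynomial.coeff_zero]
      exact hv _ (Ideal.mem_map_of_mem _ (Ideal.subset_span (Or.inl ⟨k, rfl⟩)))
    rw [aeval_X, hNL v hv0 hvl]
    rfl
  have hb : ∀ i : Fin (m + 1), ∃ b : MvPolynomial (Fin (m + 1)) L, aeval xi b ≠ 0 ∧ ∃ M : ℕ, ∃ g' ∈ I', Φ g' = Φ (C b * X i ^ M) := by
    intro i
    obtain ⟨M, hM⟩ := hmem i
    obtain ⟨b, hb, g', hg', hgg⟩ := Tra_ideal hfrac I' hM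
    refine ⟨b, hb, M, g', hg', ?_⟩
    rw [hΦ, hgg, map_mul, map_C, map_pow, map_X]
    rfl
  choose b hb0 M g' hg' hgg using hb
  have hF0 : aeval xi F = 0 := (hg F).2 dvd_rfl
  -- evaluation at `(R, v)`
  have hkey : ∀ R v : Fin (m + 1) → L, aeval R F = 0 → v 0 = 0 → ln F v R = 0 → ∀ i, eval R (b i) * v i ^ M i = 0 := by
    intro R v hR hv0 hv i
    let Ψ : MvPolynomial (Fin (m + 1)) (MvPolynomial (Fin (m + 1)) L) →+* L := (eval v).comp (map (eval R))
    have hker : ∀ D, Φ D = 0 → Ψ D = 0 := by
      intro D hD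
      have h1 : map (eval R) D = 0 := by
        ext d
        rw [coeff_map, coeff_zero]
        have h2 : coeff d (Φ D) = 0 := by rw [hD, coeff_zero]
        rw [hΦ, coeff_map] at h2
        obtain ⟨q, hq⟩ := (hg (coeff d D)).1 h2
        rw [hq, map_mul]
        have h3 : eval R F = 0 := by rw [← aeval_eq_eval]; exact hR
        rw [h3, zero_mul]
      change eval v (map (eval R) D) = 0
      rw [h1, map_zero]
    have hI : ∀ g ∈ I', Ψ g = 0 := by
      intro g hgI
      have h1 : I' ≤ RingHom.ker Ψ := by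
        rw [Ideal.span_le]
        rintro x (⟨k, rfl⟩ | hx)
        · change Ψ (P'.coeff k) = 0
          rw [← Polynomial.coeff_map, map_ln Ψ (by
            intro c
            change eval v (map (eval R) (C (C c))) = c
            rw [map_C, eval_C, eval_C])]
          have h2 : (fun i => Ψ (X i)) = v := by
            funext i
            change eval v (map (eval R) (X i)) = v i
            rw [map_X, eval_X]
          have h3 : (fun i => Ψ (C (X i))) = R := by
            funext i
            change eval v (map (eval R) (C (X i))) = R i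
            rw [map_C, eval_C, eval_X]
          rw [h2, h3, hv, Polynomial.coeff_zero]
        · rw [Set.mem_singleton_iff] at hx
          subst hx
          change eval v (map (eval R) (X 0)) = 0
          rw [map_X, eval_X, hv0]
      exact h1 hgI
    have h4 : Ψ (g' i - C (b i) * X i ^ M i) = 0 := hker _ (by rw [map_sub, hgg, sub_self])
    rw [map_sub, hI _ (hg' i), zero_sub, neg_eq_zero] at h4
    have h5 : Ψ (C (b i) * X i ^ M i) = eval R (b i) * v i ^ M i := by
      change eval v (map (eval R) (C (b i) * X i ^ M i)) = _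
      rw [map_mul, map_C, map_pow, map_X, map_mul, eval_C, map_pow, eval_X]
    rw [← h5, h4]
  have hFne : F ≠ 0 := hirr.ne_zero
  have hx0 : aeval xi (X 0 : MvPolynomial (Fin (m + 1)) L) ≠ 0 := by
    intro h
    obtain ⟨q, hq⟩ := (hg _).1 h
    have hq0 : q ≠ 0 := by
      rintro rfl
      rw [mul_zero] at hq
      exact X_ne_zero 0 hq
    have h1 := totalDegree_mul_of_isDomain hFne hq0
    rw [← hq, totalDegree_X, hF.totalDegree hFne] at h1
    omega
  refine ⟨X 0 * ∏ i, b i, ?_, ?_⟩
  · intro h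
    have h1 := (hg _).2 h
    rw [map_mul, map_prod] at h1
    exact mul_ne_zero hx0 (Finset.prod_ne_zero_iff.2 fun i _ => hb0 i) h1
  · rintro R hR ⟨v, hv, hline⟩
    rw [map_mul, eval_X]
    by_cases hR0 : R 0 = 0
    · rw [hR0, zero_mul]
    -- the point of the line with first coordinate zero
    let v' : Fin (m + 1) → L := fun i => v i - v 0 / R 0 * R i
    have hv'0 : v' 0 = 0 := by
      change v 0 - v 0 / R 0 * R 0 = 0
      rw [div_mul_cancel₀ _ hR0, sub_self]
    have hv'ne : ∃ i, v' i ≠ 0 := by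
      by_contra hcon
      push Not at hcon
      have h1 := hv (-(v 0 / R 0)) 1 (by
        funext i
        have h2 := hcon i
        change v i - v 0 / R 0 * R i = 0 at h2
        simp only [Pi.add_apply, Pi.smul_apply, smul_eq_mul, Pi.zero_apply, one_mul]
        linear_combination h2)
      exact one_ne_zero h1.2
    have hl : ln F v' R = 0 := by
      refine Polynomial.funext fun s => ?_
      rw [eval_ln, Polynomial.eval_zero]
      have h1 := hline (1 - s * (v 0 / R 0)) s
      have h2 : ((1 - s * (v 0 / R 0)) • R + s • v) = fun i => s * v' i + R i := by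
        funext i
        simp only [Pi.add_apply, Pi.smul_apply, smul_eq_mul]
        change _ = s * (v i - v 0 / R 0 * R i) + R i
        ring
      rw [h2] at h1
      exact h1
    obtain ⟨i, hi⟩ := hv'ne
    have h3 := hkey R v' hR hv'0 hl i
    have h4 : eval R (b i) = 0 := (mul_eq_zero.1 h3).resolve_right (pow_ne_zero _ hi)
    rw [map_prod, Finset.prod_eq_zero (Finset.mem_univ i) h4, mul_zero]

end Pool.Agent.H3.SH
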