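import Pool.Agent.H3.SH.Good
import Pool.Agent.H3.SH.La
import Pool.Agent.H3.SH.Tra
import Pool.Agent.H3.SH.PolB

/-!
# SH StL: the lines of `X` do not fill `X` for at most eight variables (part L of note 5648)

`no_line`: `G` = the range of the linear map `u ↦ gd F xi v u`.  `xi` and `v` are in its kernel (derivative of `F (xi + X v) = 0`; Euler),
they are independent, so `dim G ≤ m - 1 ≤ 6`; `G ≠ 0` (`grad F (xi) ≠ 0`).  `good`: for `s ∈ L` with `δ (s) ≠ 0` and `g = gd u ∈ G`,
`g (s) = 0`: `g = gd w₁ + s gd w₂ = (X - s) (- gd w₂)`, `X * (- gd w₂) = gd w₁`.  `la` with `S` = the set of these `s` gives `g'`.  If `g'`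
is not constant, it has a root `s₀ ∈ E`, all `gd u (s₀) = 0`, so `grad F (xi + s₀ v) = 0` and `xi + s₀ v = 0`: contradiction
(`xi_0 ≠ 0 = v_0`).  If `g'` is constant, then all `gd u` have degree `≤ k ≤ 5`, but the coefficient of `gd u` at `X ^ 6` is `grad F (v) . u`, so
`grad F (v) = 0`, `v = 0`.

`exists_h1`: `exists_gen`, `Ω = AlgebraicClosure E`, `transfer`.  (`Gen` for the point in `Ω` too; `xi_0 ≠ 0` because `F ∤ X_0`.)
-/

set_option autoImplicit false

open MvPolynomial

namespace Pool.Agent.H3.SH


private theorem aeval_eq_ln {K : Type} [Field K] {ι : Type} {A : Type} [CommRing A] [Algebra K A] (P : MvPolynomial ι K) (x v : ι → A) :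
    aeval (fun j => Polynomial.C (x j) + Polynomial.C (v j) * Polynomial.X) P = ln P v x := by
  unfold ln
  congr 2
  funext j
  ring

private theorem coeff_prod_aux {A : Type} [CommRing A] {ι : Type} (x v : ι → A) (d : ι → ℕ) (s : Finset ι) :
    (∏ i ∈ s, (Polynomial.C (v i) * Polynomial.X + Polynomial.C (x i)) ^ d i).natDegree ≤ ∑ i ∈ s, d i ∧
      (∏ i ∈ s, (Polynomial.C (v i) * Polynomial.X + Polynomial.C (x i)) ^ d i).coeff (∑ i ∈ s, d i) = ∏ i ∈ s, v i ^ d i := by
  classical
  induction s using Finset.induction_on with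
  | empty => simp
  | insert a s ha ih =>
    have hlin : (Polynomial.C (v a) * Polynomial.X + Polynomial.C (x a)).natDegree ≤ 1 := Polynomial.natDegree_linear_le
    have hpow : ((Polynomial.C (v a) * Polynomial.X + Polynomial.C (x a)) ^ d a).natDegree ≤ d a := by
      have := Polynomial.natDegree_pow_le_of_le (d a) hlin
      simpa using this
    have hc : ((Polynomial.C (v a) * Polynomial.X + Polynomial.C (x a)) ^ d a).coeff (d a) = v a ^ d a := by
      have := Polynomial.coeff_pow_of_natDegree_le (m := d a) hlin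
      simpa using this
    rw [Finset.prod_insert ha, Finset.sum_insert ha, Finset.prod_insert ha]
    constructor
    · exact Polynomial.natDegree_mul_le_of_le hpow ih.1
    · rw [Polynomial.coeff_mul_add_eq_of_natDegree_le hpow ih.1, hc, ih.2]

private theorem coeff_ln_top {K : Type} [Field K] {ι : Type} [Fintype ι] {A : Type} [CommRing A] [Algebra K A] {P : MvPolynomial ι K} {n : ℕ}
    (hP : P.IsHomogeneous n) (v x : ι → A) : (ln P v x).coeff n = aeval v P := by
  unfold ln
  rw [aeval_def, eval₂_eq', aeval_def, eval₂_eq', Polynomial.finset_sum_coeff]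
  refine Finset.sum_congr rfl fun d hd => ?_
  have hd' : ∑ i, d i = n := by
    rw [← hP (mem_support_iff.mp hd)]
    simp [Finsupp.weight_apply, Finsupp.sum_fintype]
  rw [Polynomial.algebraMap_apply, Polynomial.coeff_C_mul]
  congr 1
  have := (coeff_prod_aux x v (fun i => d i) Finset.univ).2
  rw [hd'] at this
  exact this

private theorem isHomogeneous_pderiv' {K : Type} [Field K] {ι : Type} {P : MvPolynomial ι K} (hP : P.IsHomogeneous 7) (i : ι) :
    (pderiv i P).IsHomogeneous 6 := by
  have := hP.pderiv (i := i)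
  simpa using this

/-- `gd` as a linear map -/
private noncomputable def gdL {L E : Type} [Field L] [Field E] [Algebra L E] {ι : Type} [Fintype ι] (F : MvPolynomial ι L) (xi v : ι → E) :
    (ι → E) →ₗ[E] Polynomial E where
  toFun := fun u => gd F xi v u
  map_add' := by
    intro a b
    simp only [gd, Pi.add_apply, Polynomial.C_add, mul_add, Finset.sum_add_distrib]
  map_smul' := by
    intro c a
    simp only [gd, Pi.smul_apply, smul_eq_mul, Polynomial.C_mul, RingHom.id_apply, Finset.smul_sum, Polynomial.smul_eq_C_mul]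
    refine Finset.sum_congr rfl fun i _ => ?_
    ring

private theorem gdL_apply {L E : Type} [Field L] [Field E] [Algebra L E] {ι : Type} [Fintype ι] (F : MvPolynomial ι L) (xi v u : ι → E) :
    gdL F xi v u = gd F xi v u := rfl

private theorem gd_single {L E : Type} [Field L] [Field E] [Algebra L E] {ι : Type} [Fintype ι] [DecidableEq ι] (F : MvPolynomial ι L)
    (xi v : ι → E) (i : ι) : gd F xi v (Pi.single i 1) = ln (pderiv i F) v xi := by
  unfold gd
  rw [Finset.sum_eq_single i]
  · rw [aeval_eq_ln, Pi.single_eq_same, Polynomial.C_1, mul_one]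
  · intro b _ hb
    rw [Pi.single_eq_of_ne hb, Polynomial.C_0, mul_zero]
  · intro h
    exact absurd (Finset.mem_univ i) h

private theorem gd_v {L E : Type} [Field L] [Field E] [Algebra L E] {ι : Type} [Fintype ι] {F : MvPolynomial ι L} {xi v : ι → E}
    (h0 : aeval (fun j => Polynomial.C (xi j) + Polynomial.C (v j) * Polynomial.X) F = 0) : gd F xi v v = 0 := by
  have h := derivative_ln F v xi
  rw [← aeval_eq_ln, h0, Polynomial.derivative_zero] at h
  rw [h]
  unfold gd
  refine Finset.sum_congr rfl fun i _ => ?_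
  rw [aeval_eq_ln, mul_comm]

private theorem gd_xi {L E : Type} [Field L] [Field E] [Algebra L E] {ι : Type} [Fintype ι] {F : MvPolynomial ι L} {xi v : ι → E}
    (hF : F.IsHomogeneous 7)
    (h0 : aeval (fun j => Polynomial.C (xi j) + Polynomial.C (v j) * Polynomial.X) F = 0) : gd F xi v xi = 0 := by
  have h := congrArg (aeval (fun j => Polynomial.C (xi j) + Polynomial.C (v j) * Polynomial.X)) hF.sum_X_mul_pderiv
  rw [map_nsmul, h0, smul_zero, map_sum] at h
  have h2 : gd F xi v xi + Polynomial.X * gd F xi v v = 0 := by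
    rw [← h]
    unfold gd
    rw [Finset.mul_sum, ← Finset.sum_add_distrib]
    refine Finset.sum_congr rfl fun i _ => ?_
    rw [map_mul, aeval_X]
    ring
  rw [gd_v h0, mul_zero, add_zero] at h2
  exact h2

variable {L : Type} [Field L] [IsAlgClosed L] [CharZero L] {m : ℕ} {F : MvPolynomial (Fin (m + 1)) L}

private theorem rank_range {E : Type} [Field E] [Algebra L E] {xi v : Fin (m + 1) → E} (hF : F.IsHomogeneous 7)
    (hx : xi 0 ≠ 0) (hv : v 0 = 0) (hv0 : v ≠ 0)
    (h0 : aeval (fun j => Polynomial.C (xi j) + Polynomial.C (v j) * Polynomial.X) F = 0) :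
    Module.finrank E (LinearMap.range (gdL F xi v)) + 2 ≤ m + 1 := by
  have hxk : xi ∈ LinearMap.ker (gdL F xi v) := by
    rw [LinearMap.mem_ker, gdL_apply]
    exact gd_xi hF h0
  have hvk : v ∈ LinearMap.ker (gdL F xi v) := by
    rw [LinearMap.mem_ker, gdL_apply]
    exact gd_v h0
  have hli : LinearIndependent E ![(⟨xi, hxk⟩ : LinearMap.ker (gdL F xi v)), ⟨v, hvk⟩] := by
    rw [LinearIndependent.pair_iff]
    intro s t hst
    have h1 : s • xi + t • v = 0 := by
      have := congrArg Subtype.val hst
      simpa using this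
    have h2 : s = 0 := by
      have := congrFun h1 0
      simp only [Pi.add_apply, Pi.smul_apply, smul_eq_mul, hv, mul_zero, add_zero, Pi.zero_apply] at this
      rcases mul_eq_zero.mp this with h | h
      · exact h
      · exact absurd h hx
    refine ⟨h2, ?_⟩
    rw [h2, zero_smul, zero_add] at h1
    rcases smul_eq_zero.mp h1 with h | h
    · exact h
    · exact absurd h hv0
  have hk : 2 ≤ Module.finrank E (LinearMap.ker (gdL F xi v)) := by
    have := hli.fintype_card_le_finrank
    simpa using this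
  have hr := LinearMap.finrank_range_add_finrank_ker (gdL F xi v)
  rw [Module.finrank_fin_fun] at hr
  omega

private theorem eval_gd_single {E : Type} [Field E] [Algebra L E] (xi v : Fin (m + 1) → E) (i : Fin (m + 1)) (s : E) :
    (gd F xi v (Pi.single i 1)).eval s = aeval (fun j => s * v j + xi j) (pderiv i F) := by
  rw [gd_single, eval_ln]

theorem no_line {E : Type} [Field E] [IsAlgClosed E] [Algebra L E] {xi v : Fin (m + 1) → E} (hm : m ≤ 7) (hF : F.IsHomogeneous 7)
    (hs : Pool.Agent.H8.SD.Smooth L F) (hg : Gen F xi) (hx : xi 0 ≠ 0) (hv : v 0 = 0)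
    (h0 : aeval (fun j => Polynomial.C (xi j) + Polynomial.C (v j) * Polynomial.X) F = 0) : v = 0 := by
  by_contra hv0
  have hrank := rank_range hF hx hv hv0 h0
  obtain ⟨δ, hδ, hgood⟩ := good hs hg hx hv h0
  -- the range is not zero
  have hpos : Module.finrank E (LinearMap.range (gdL F xi v)) ≠ 0 := by
    intro h
    have hbot : LinearMap.range (gdL F xi v) = ⊥ := Submodule.finrank_eq_zero.mp h
    have hxi : xi ≠ 0 := fun h => hx (congrFun h 0)
    obtain ⟨i, hi⟩ := smooth_ext hs xi hxi
    apply hi
    have h1 : gdL F xi v (Pi.single i 1) = 0 := by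
      have : gdL F xi v (Pi.single i 1) ∈ LinearMap.range (gdL F xi v) := ⟨_, rfl⟩
      rw [hbot] at this
      simpa using this
    rw [gdL_apply] at h1
    have h2 := eval_gd_single (F := F) xi v i 0
    rw [h1, Polynomial.eval_zero] at h2
    rw [h2]
    congr 1
    congr 1
    funext j
    ring
  obtain ⟨k, hk⟩ := Nat.exists_eq_succ_of_ne_zero hpos
  have hinf : (Set.range (algebraMap L E) \ {s : E | δ.IsRoot s}).Infinite := by
    haveI : Infinite L := CharZero.infinite L
    exact (Set.infinite_range_of_injective (algebraMap L E).injective).diff (Polynomial.finite_setOf_isRoot hδ)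
  obtain ⟨g', hg'0, hg'⟩ := la (LinearMap.range (gdL F xi v)) hk hinf (by
    rintro s ⟨⟨t, rfl⟩, ht⟩ g ⟨u, rfl⟩ hgs
    rw [gdL_apply] at hgs
    obtain ⟨w₁, w₂, hw, hsum⟩ := hgood t ht u hgs
    have hu : u = w₁ + algebraMap L E t • w₂ := by
      funext i
      rw [hw i]
      rfl
    refine ⟨gdL F xi v (-w₂), ?_, ⟨_, rfl⟩, ⟨w₁, ?_⟩⟩
    · rw [hu, map_add, map_smul, map_neg, gdL_apply, gdL_apply, Polynomial.smul_eq_C_mul]
      linear_combination hsum
    · rw [map_neg, gdL_apply, gdL_apply]
      linear_combination hsum)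
  by_cases hdeg : g'.degree = 0
  · -- `g'` constant
    have hnat : g'.natDegree = 0 := Polynomial.natDegree_eq_of_degree_eq_some hdeg
    obtain ⟨i, hi⟩ := smooth_ext hs v hv0
    apply hi
    rw [← coeff_ln_top (isHomogeneous_pderiv' hF i) v xi, ← gd_single]
    obtain ⟨q, hq, hqd⟩ := hg' (gdL F xi v (Pi.single i 1)) ⟨_, rfl⟩
    rw [gdL_apply] at hq
    rw [hq]
    apply Polynomial.coeff_eq_zero_of_natDegree_lt
    have := Polynomial.natDegree_mul_le (p := g') (q := q)
    omega
  · obtain ⟨s₀, hs₀⟩ := IsAlgClosed.exists_root g' hdeg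
    have hz : (fun j => s₀ * v j + xi j) = 0 := by
      by_contra hne
      obtain ⟨i, hi⟩ := smooth_ext hs _ hne
      apply hi
      rw [← eval_gd_single]
      obtain ⟨q, hq, -⟩ := hg' (gdL F xi v (Pi.single i 1)) ⟨_, rfl⟩
      rw [gdL_apply] at hq
      rw [hq, Polynomial.eval_mul, hs₀.eq_zero, zero_mul]
    have := congrFun hz 0
    simp only [hv, mul_zero, zero_add, Pi.zero_apply] at this
    exact hx this

theorem exists_h1 (hm2 : 2 ≤ m) (hm : m ≤ 7) (hF : F.IsHomogeneous 7) (hs : Pool.Agent.H8.SD.Smooth L F) :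
    ∃ h1 : MvPolynomial (Fin (m + 1)) L, ¬ F ∣ h1 ∧ ∀ R : Fin (m + 1) → L, aeval R F = 0 → OnLine F R → eval R h1 = 0 := by
  have hirr : Irreducible F := Pool.Agent.H8.SD.irreducible_of_smooth (L := L) (by omega) hF hs
  obtain ⟨E, _, _, xi, hg, hfrac⟩ := exists_gen hirr
  haveI : Infinite L := CharZero.infinite L
  refine transfer hF hirr hg hfrac (Ω := AlgebraicClosure E) ?_
  intro v hv hl
  have hx0 : xi 0 ≠ 0 := by
    intro h
    have h1 : aeval xi (X 0 : MvPolynomial (Fin (m + 1)) L) = 0 := by rw [aeval_X, h]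
    obtain ⟨q, hq⟩ := (hg _).mp h1
    have hq0 : q ≠ 0 := by
      intro h
      rw [h, mul_zero] at hq
      exact X_ne_zero 0 hq
    have hd := congrArg totalDegree hq
    rw [totalDegree_X, totalDegree_mul_of_isDomain hirr.ne_zero hq0, hF.totalDegree hirr.ne_zero] at hd
    omega
  refine no_line (xi := fun i => algebraMap E (AlgebraicClosure E) (xi i)) hm hF hs ?_ ?_ hv ?_
  · intro G
    rw [← hg G]
    have : aeval (fun i => algebraMap E (AlgebraicClosure E) (xi i)) G = algebraMap E (AlgebraicClosure E) (aeval xi G) :=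
      aeval_algebraMap_apply (AlgebraicClosure E) xi G
    rw [this, map_eq_zero_iff _ (algebraMap E (AlgebraicClosure E)).injective]
  · intro h
    apply hx0
    exact (map_eq_zero_iff _ (algebraMap E (AlgebraicClosure E)).injective).mp h
  · rw [aeval_eq_ln]
    exact hl

end Pool.Agent.H3.SH
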