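import Pool.Agent.H3.SH.StF
import Pool.Agent.H3.SH.StT
import Pool.Agent.H3.SH.StL

/-!
# SH Main
-/

set_option autoImplicit false

open MvPolynomial

namespace Pool.Agent.H3.SH

variable {K L : Type} [Field K] [Field L] [Algebra K L]

/-- change of the base field in `OnLine` and `Flat` -/
theorem onLine_map {ι : Type} (F : MvPolynomial ι K) (R : ι → L) : OnLine (map (algebraMap K L) F) R ↔ OnLine F R := by
  unfold OnLine
  simp only [aeval_map_algebraMap]

theorem tan_map' {ι : Type} (F : MvPolynomial ι K) (x y : ι → L) : tan (map (algebraMap K L) F) x y = tan F x y := by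
  unfold tan
  rw [ln_map]

theorem hes_map' {ι : Type} (F : MvPolynomial ι K) (x y : ι → L) : hes (map (algebraMap K L) F) x y = hes F x y := by
  unfold hes
  rw [ln_map]

theorem flat_map {ι : Type} (F : MvPolynomial ι K) (R : ι → L) : Flat (map (algebraMap K L) F) R ↔ Flat F R := by
  unfold Flat
  simp only [aeval_map_algebraMap, tan_map', hes_map']

theorem smooth_map' {n : ℕ} {F : MvPolynomial (Fin n) K} (hsm : Pool.Agent.H8.SD.Smooth L F) :
    Pool.Agent.H8.SD.Smooth L (map (algebraMap K L) F) := by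
  intro x hx
  obtain ⟨i, hi⟩ := hsm x hx
  refine ⟨i, ?_⟩
  rw [pderiv_map, aeval_map_algebraMap]
  exact hi

theorem main [CharZero K] [IsAlgClosed L] (hR : Roots K L) {m : ℕ} (hm : 5 ≤ m) {F : MvPolynomial (Fin (m + 1)) K}
    (hF : F.IsHomogeneous 7) (hsm : Pool.Agent.H8.SD.Smooth L F)
    (hl : m ≤ 7 ∨ ∃ h : MvPolynomial (Fin (m + 1)) L, ¬ map (algebraMap K L) F ∣ h ∧
      ∀ R : Fin (m + 1) → L, aeval R F = 0 → OnLine F R → eval R h = 0)
    {P : Fin (m + 1) → K} (hP0 : P ≠ 0) (hP : eval P F = 0) (hP1 : ¬ OnLine F (pt L P)) {G : MvPolynomial (Fin (m + 1)) L}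
    (hG : ∀ q : Fin (m + 1) → K, eval q F = 0 → eval (pt L q) G = 0) : map (algebraMap K L) F ∣ G := by
  have : CharZero L := charZero_of_injective_algebraMap (algebraMap K L).injective
  have hFm : (map (algebraMap K L) F).IsHomogeneous 7 := hF.map _
  have hsm' := smooth_map' hsm
  have h1 : ∃ h : MvPolynomial (Fin (m + 1)) L, ¬ map (algebraMap K L) F ∣ h ∧
      ∀ R : Fin (m + 1) → L, aeval R F = 0 → OnLine F R → eval R h = 0 := by
    rcases hl with h | h
    · obtain ⟨h1, ha, hb⟩ := exists_h1 (by omega) h hFm hsm'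
      refine ⟨h1, ha, fun R hR1 hR2 => hb R ?_ ((onLine_map F R).2 hR2)⟩
      rw [aeval_map_algebraMap]
      exact hR1
    · exact h
  obtain ⟨h1, ha, hb⟩ := h1
  obtain ⟨h2, hc, hd⟩ := exists_h2 (by omega) hFm hsm'
  refine stF (by omega) hR hF hsm hP0 hP hP1 ha hb hc (fun R Q _ hQ ht => ?_) hG
  have h3 := hd L Q R ((flat_map F Q).2 hQ) (by rw [tan_map']; exact ht)
  rwa [aeval_eq_eval] at h3

end Pool.Agent.H3.SH
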