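import Pool.Agent.H3.SH.StG
import Pool.Agent.H3.SH.H3p
import Pool.Agent.H3.SH.Main

/-!
# SH Fin: the theorem for a point `P` on finitely many lines
-/

set_option autoImplicit false

open MvPolynomial

namespace Pool.Agent.H3.SH

variable {K L : Type} [Field K] [Field L] [Algebra K L]

theorem main_fin [CharZero K] [IsAlgClosed L] (hR : Roots K L) {m : ℕ} (hm : 5 ≤ m) (hm7 : m ≤ 7) {F : MvPolynomial (Fin (m + 1)) K}
    (hF : F.IsHomogeneous 7) (hsm : Pool.Agent.H8.SD.Smooth L F) {P : Fin (m + 1) → K} (hP0 : P ≠ 0) (hP : eval P F = 0)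
    (hfin : {W : Submodule L (Fin (m + 1) → L) | Module.finrank L W = 2 ∧ pt L P ∈ W ∧ ∀ x ∈ W, aeval x F = 0}.Finite)
    {G : MvPolynomial (Fin (m + 1)) L} (hG : ∀ q : Fin (m + 1) → K, eval q F = 0 → eval (pt L q) G = 0) :
    map (algebraMap K L) F ∣ G := by
  have : CharZero L := charZero_of_injective_algebraMap (algebraMap K L).injective
  have hFm : (map (algebraMap K L) F).IsHomogeneous 7 := hF.map _
  have hsm' := smooth_map' hsm
  have hev : ∀ x : Fin (m + 1) → L, eval x (map (algebraMap K L) F) = aeval x F := by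
    intro x
    rw [← aeval_eq_eval, aeval_map_algebraMap]
  have hP0' : pt L P ≠ 0 := by
    intro h
    apply hP0
    funext i
    have h3 := congrFun h i
    simp only [pt, Pi.zero_apply] at h3
    exact (map_eq_zero_iff _ (algebraMap K L).injective).1 h3
  obtain ⟨h1, ha, hb⟩ := exists_h1 (by omega) hm7 hFm hsm'
  obtain ⟨h2, hc, hd⟩ := exists_h2 (by omega) hFm hsm'
  obtain ⟨h3, he, hf⟩ := exists_h3 (by omega) hFm hsm' hP0' (by simpa only [hev] using hfin)
  refine stF' (by omega) hR hF hsm hP0 hP ha (fun R hR1 hR2 => ?_) hc (fun R Q _ hQ ht => ?_) he (fun R Q hRF hi hl ht hh => ?_) hG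
  · refine hb R ?_ ((onLine_map F R).2 hR2)
    rw [aeval_map_algebraMap]
    exact hR1
  · have h3 := hd L Q R ((flat_map F Q).2 hQ) (by rw [tan_map']; exact ht)
    rwa [aeval_eq_eval] at h3
  · refine hf R Q ?_ hi (fun a b => ?_) ?_ ?_
    · rw [hev, hRF]
    · rw [hev, hl]
    · rw [tan_map', ht]
    · rw [hes_map', hh]

end Pool.Agent.H3.SH
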