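import Pool.Agent.H3.SH.PolB
import Mathlib

/-!
# SH FinL: if no line of X through `e_0` is in the hyperplane `x_5 = 0`, then only finitely many lines of X pass through `e_0`
(note 5778 (3); `X` in `P^5`)

`V = {v | v_0 = 0, v_5 = 1, ln F v e_0 = 0}` is finite: `f_1, .., f_7` the coefficients of `ln F v e_0` (forms of degree `j` in `v`; or
homogeneous components of `F (e_0 + v)`, compare `Pool.Agent.H8.SB.Open`, `NoLine`).  `(f_j, v_0, v_5)` has only the zero 0, so it contains all
monomials of degree `M` (Nullstellensatz, compare `radical_le` of `Pool.Agent.H8.SB.Open`); taking homogeneous components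
`v^β = ∑ A_j f_j + v_5 B_β + v_0 C_β`, `B_β` a form of degree `M - 1`.  So `L[v] / (f_j, v_0, v_5 - 1)` is spanned by the monomials of degree
`< M`: a finite-dimensional algebra, so the set of its points over `L` is finite (each coordinate satisfies a polynomial, or Artinian rings).
Every `W` of the set is `span (e_0, v)` with `v ∈ V`: `W` contains `v ∉ L e_0`, subtract a multiple of `e_0`; `v_5 ≠ 0` by `h`; scale.
-/

set_option autoImplicit false

open MvPolynomial

namespace Pool.Agent.H3.SH

private theorem finL_hom {L : Type} [Field L] (F : MvPolynomial (Fin 6) L) (e : Fin 6 → L) (k : ℕ) :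
    ((ln F (fun i => (X i : MvPolynomial (Fin 6) L)) (fun i => C (e i))).coeff k).IsHomogeneous k := by
  induction F using MvPolynomial.induction_on generalizing k with
  | C a =>
    have h1 : ln (C a : MvPolynomial (Fin 6) L) (fun i => (X i : MvPolynomial (Fin 6) L)) (fun i => C (e i)) =
        Polynomial.C (C a) := by
      unfold ln
      rw [aeval_C]
      rfl
    rw [h1, Polynomial.coeff_C]
    split_ifs with hk
    · rw [hk]
      exact isHomogeneous_C _ _
    · exact isHomogeneous_zero _ _ _
  | add p q hp hq =>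
    have h1 : ln (p + q) (fun i => (X i : MvPolynomial (Fin 6) L)) (fun i => C (e i)) =
        ln p (fun i => (X i : MvPolynomial (Fin 6) L)) (fun i => C (e i)) +
          ln q (fun i => (X i : MvPolynomial (Fin 6) L)) (fun i => C (e i)) := by
      unfold ln
      rw [map_add]
    rw [h1, Polynomial.coeff_add]
    exact (hp k).add (hq k)
  | mul_X p i hp =>
    have h1 : ln (p * X i) (fun i => (X i : MvPolynomial (Fin 6) L)) (fun i => C (e i)) =
        (ln p (fun i => (X i : MvPolynomial (Fin 6) L)) (fun i => C (e i)) * Polynomial.C (X i)) * Polynomial.X +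
          ln p (fun i => (X i : MvPolynomial (Fin 6) L)) (fun i => C (e i)) * Polynomial.C (C (e i)) := by
      unfold ln
      rw [map_mul, aeval_X]
      ring
    rw [h1, Polynomial.coeff_add, Polynomial.coeff_mul_C]
    refine IsHomogeneous.add ?_ ?_
    · rcases k with _ | k
      · rw [Polynomial.mul_coeff_zero, Polynomial.coeff_X_zero, mul_zero]
        exact isHomogeneous_zero _ _ _
      · rw [Polynomial.coeff_mul_X, Polynomial.coeff_mul_C]
        exact (hp k).mul (isHomogeneous_X _ _)
    · have h2 := (hp k).mul (isHomogeneous_C (Fin 6) (e i))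
      rwa [add_zero] at h2

private theorem finL_eval {L : Type} [Field L] (F : MvPolynomial (Fin 6) L) (e v : Fin 6 → L) (k : ℕ) :
    aeval v ((ln F (fun i => (X i : MvPolynomial (Fin 6) L)) (fun i => C (e i))).coeff k) = (ln F v e).coeff k := by
  have h1 := map_ln (K := L) (A := MvPolynomial (Fin 6) L) (B := L)
    ((aeval v : MvPolynomial (Fin 6) L →ₐ[L] L) : MvPolynomial (Fin 6) L →+* L) (fun c => by
      have := (aeval v : MvPolynomial (Fin 6) L →ₐ[L] L).commutes c
      exact this) F (fun i => (X i : MvPolynomial (Fin 6) L)) (fun i => C (e i))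
  have h2 : (fun i => ((aeval v : MvPolynomial (Fin 6) L →ₐ[L] L) : MvPolynomial (Fin 6) L →+* L)
      (X i : MvPolynomial (Fin 6) L)) = v := by
    funext i
    exact aeval_X _ _
  have h3 : (fun i => ((aeval v : MvPolynomial (Fin 6) L →ₐ[L] L) : MvPolynomial (Fin 6) L →+* L)
      (C (e i) : MvPolynomial (Fin 6) L)) = e := by
    funext i
    exact aeval_C _ _
  rw [h2, h3] at h1
  rw [← h1, Polynomial.coeff_map]
  rfl

private theorem finL_radical {L : Type} [Field L] [IsAlgClosed L]
    (I : Ideal (MvPolynomial (Fin 6) L)) (h : ∀ v : Fin 6 → L, v ≠ 0 → v ∉ zeroLocus L I) :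
    ∃ M : ℕ, idealOfVars (Fin 6) L ^ M ≤ I := by
  refine Ideal.exists_pow_le_of_le_radical_of_fg ?_ (idealOfVars_fg (Fin 6) L)
  rw [← vanishingIdeal_zeroLocus_eq_radical (K := L) I, idealOfVars, Ideal.span_le]
  rintro _ ⟨j, rfl⟩
  rw [SetLike.mem_coe, mem_vanishingIdeal_iff]
  intro v hv
  by_cases h0 : v = 0
  · rw [h0, aeval_X, Pi.zero_apply]
  · exact absurd hv (h v h0)

private theorem finL_span {L : Type} [Field L] {f : ℕ → MvPolynomial (Fin 6) L}
    (hd : ∀ i, (f i).IsHomogeneous i) {z : MvPolynomial (Fin 6) L} (hz : z ∈ Ideal.span (Set.range f)) (M : ℕ) :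
    homogeneousComponent M z ∈ Ideal.span (Set.range f) := by
  let _ := gradedAlgebra (σ := Fin 6) (R := L)
  refine homogeneousComponent_mem_of_mem ?_ hz M
  refine Ideal.homogeneous_span _ _ ?_
  rintro _ ⟨i, rfl⟩
  exact ⟨i, (mem_homogeneousSubmodule i (f i)).2 (hd i)⟩

private theorem finL_comp {L : Type} [Field L] (j : Fin 6) (b : MvPolynomial (Fin 6) L) (M : ℕ) :
    homogeneousComponent (M + 1) (X j * b) = X j * homogeneousComponent M b := by
  classical
  ext d
  rw [coeff_homogeneousComponent, coeff_X_mul', coeff_X_mul', coeff_homogeneousComponent]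
  by_cases hj : j ∈ d.support
  · rw [if_pos hj, if_pos hj]
    have h1 : 1 ≤ d j := Nat.one_le_iff_ne_zero.2 (Finsupp.mem_support_iff.1 hj)
    have h2 : d = (d - Finsupp.single j 1) + Finsupp.single j 1 := by
      rw [tsub_add_cancel_of_le]
      rwa [Finsupp.single_le_iff]
    have h3 : d.degree = (d - Finsupp.single j 1).degree + 1 := by
      conv_lhs => rw [h2]
      rw [map_add, Finsupp.degree_single]
    by_cases h4 : d.degree = M + 1
    · rw [if_pos h4, if_pos (by omega)]
    · rw [if_neg h4, if_neg (by omega)]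
  · rw [if_neg hj, if_neg hj, ite_self]

/-- points whose coordinates satisfy `v_i ^ (M + 1) = B_i (v)`, `B_i` a form of degree `M` -/
private theorem finL_fin {L : Type} [Field L] (V : Set (Fin 6 → L)) (M : ℕ) (B : Fin 6 → MvPolynomial (Fin 6) L)
    (hB : ∀ i, (B i).IsHomogeneous M) (hV : ∀ v ∈ V, ∀ i, v i ^ (M + 1) = aeval v (B i)) : V.Finite := by
  classical
  let ev : MvPolynomial (Fin 6) L →ₐ[L] (V → L) := AlgHom.pi (fun v : V => aeval (v : Fin 6 → L))
  have hev : ∀ p (v : V), ev p v = aeval (v : Fin 6 → L) p := fun p v => rfl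
  set top : Fin 6 →₀ ℕ := Finsupp.equivFunOnFinite.symm (fun _ => M) with htop
  set S : Submodule L (V → L) := Submodule.span L ((fun β => ev (monomial β 1)) '' Set.Iic top) with hS
  have hmon : ∀ (N : ℕ) (β : Fin 6 →₀ ℕ), β.degree = N → ev (monomial β 1) ∈ S := by
    intro N
    induction N using Nat.strong_induction_on with
    | _ N ih =>
      intro β hβ
      by_cases hle : β ≤ top
      · exact Submodule.subset_span ⟨β, hle, rfl⟩
      · obtain ⟨i, hi⟩ : ∃ i, M < β i := by
          by_contra hcon
          push Not at hcon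
          exact hle (fun i => by simpa [htop] using hcon i)
        have h1 : β = (β - Finsupp.single i (M + 1)) + Finsupp.single i (M + 1) := by
          rw [tsub_add_cancel_of_le]
          rw [Finsupp.single_le_iff]
          exact hi
        set γ := β - Finsupp.single i (M + 1) with hγ
        have hdeg : γ.degree + (M + 1) = N := by
          rw [← hβ, h1, map_add, Finsupp.degree_single]
        have h2 : ev (monomial β 1) = ev (monomial γ 1 * B i) := by
          funext v
          rw [hev, hev, map_mul, ← hV v v.2 i, h1]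
          have h3 : (monomial (γ + Finsupp.single i (M + 1)) (1 : L)) = monomial γ 1 * X i ^ (M + 1) := by
            rw [X_pow_eq_monomial, monomial_mul, one_mul]
          rw [h3, map_mul, map_pow, aeval_X]
        rw [h2, (B i).as_sum, Finset.mul_sum, map_sum]
        refine Submodule.sum_mem _ fun δ hδ => ?_
        have h4 : monomial γ (1 : L) * monomial δ (coeff δ (B i)) = coeff δ (B i) • monomial (γ + δ) (1 : L) := by
          rw [monomial_mul, one_mul, smul_monomial, smul_eq_mul, mul_one]
        rw [h4, map_smul]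
        refine Submodule.smul_mem _ _ (ih (γ + δ).degree ?_ (γ + δ) rfl)
        have h5 : δ.degree = M := ((hB i).degree_eq_sum_deg_support hδ).symm
        rw [map_add, h5]
        omega
  have hall : ∀ p, ev p ∈ S := by
    intro p
    rw [p.as_sum, map_sum]
    refine Submodule.sum_mem _ fun δ _ => ?_
    have h4 : monomial δ (coeff δ p) = coeff δ p • monomial δ (1 : L) := by
      rw [smul_monomial, smul_eq_mul, mul_one]
    rw [h4, map_smul]
    exact Submodule.smul_mem _ _ (hmon _ δ rfl)
  have hSfin : FiniteDimensional L S := by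
    rw [hS]
    exact FiniteDimensional.span_of_finite L ((Set.finite_Iic top).image _)
  have hex : ∀ i : Fin 6, ∃ p : Polynomial L, p ≠ 0 ∧ ∀ v ∈ V, p.eval (v i) = 0 := by
    intro i
    have h1 : ¬ LinearIndependent L (fun n : ℕ => (⟨ev (X i ^ n), hall _⟩ : S)) := by
      intro h
      exact not_finite_iff_infinite.2 inferInstance h.finite
    rw [not_linearIndependent_iff] at h1
    obtain ⟨s, g, hg, j, hj, hgj⟩ := h1
    refine ⟨∑ n ∈ s, Polynomial.monomial n (g n), ?_, ?_⟩
    · intro h2
      have h3 := congrArg (fun p => Polynomial.coeff p j) h2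
      simp only [Polynomial.finsetSum_coeff, Polynomial.coeff_monomial, Polynomial.coeff_zero] at h3
      rw [Finset.sum_ite_eq' s j g, if_pos hj] at h3
      exact hgj h3
    · intro v hv
      have h2 := congrArg (fun z : S => (z : V → L) ⟨v, hv⟩) hg
      simp only [Submodule.coe_sum, Submodule.coe_smul, Finset.sum_apply, Pi.smul_apply, smul_eq_mul,
        Submodule.coe_zero, Pi.zero_apply, map_pow, Pi.pow_apply, hev, aeval_X] at h2
      rw [Polynomial.eval_finsetSum]
      simp only [Polynomial.eval_monomial]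
      exact h2
  choose p hp0 hp using hex
  refine Set.Finite.subset (Set.Finite.pi' (fun i : Fin 6 => (p i).roots.toFinset.finite_toSet)) ?_
  intro v hv i
  rw [Finset.mem_coe, Multiset.mem_toFinset, Polynomial.mem_roots (hp0 i)]
  exact hp i v hv

theorem finite_dirs {L : Type} [Field L] [IsAlgClosed L] {F : MvPolynomial (Fin 6) L} (hF : F.IsHomogeneous 7)
    (h : ∀ v : Fin 6 → L, v 0 = 0 → v 5 = 0 → v ≠ 0 → ln F v (Pi.single 0 1) ≠ 0) :
    {v : Fin 6 → L | v 0 = 0 ∧ v 5 = 1 ∧ ln F v (Pi.single 0 1) = 0}.Finite := by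
  classical
  set e : Fin 6 → L := Pi.single 0 1 with he
  set f : ℕ → MvPolynomial (Fin 6) L := fun k =>
    (ln F (fun i => (X i : MvPolynomial (Fin 6) L)) (fun i => C (e i))).coeff k with hf
  have hfh : ∀ k, (f k).IsHomogeneous k := fun k => finL_hom F e k
  set J : Ideal (MvPolynomial (Fin 6) L) := Ideal.span (Set.range f) with hJ
  set I : Ideal (MvPolynomial (Fin 6) L) := Ideal.span {X 0} ⊔ Ideal.span {X 5} ⊔ J with hI
  obtain ⟨M, hM⟩ : ∃ M : ℕ, idealOfVars (Fin 6) L ^ M ≤ I := by
    refine finL_radical I fun v hv hz => ?_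
    rw [mem_zeroLocus_iff] at hz
    have h0 : v 0 = 0 := by
      have h1 := hz (X 0) (Ideal.mem_sup_left (Ideal.mem_sup_left (Ideal.mem_span_singleton_self _)))
      rwa [aeval_X] at h1
    have h5 : v 5 = 0 := by
      have h1 := hz (X 5) (Ideal.mem_sup_left (Ideal.mem_sup_right (Ideal.mem_span_singleton_self _)))
      rwa [aeval_X] at h1
    refine h v h0 h5 hv ?_
    ext k
    have h1 := hz (f k) (Ideal.mem_sup_right (Ideal.subset_span ⟨k, rfl⟩))
    rw [hf] at h1
    simp only at h1
    rw [finL_eval] at h1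
    rw [h1, Polynomial.coeff_zero]
  have hex : ∀ i : Fin 6, ∃ B : MvPolynomial (Fin 6) L, B.IsHomogeneous M ∧
      ∀ v : Fin 6 → L, v 0 = 0 → v 5 = 1 → ln F v e = 0 → v i ^ (M + 1) = aeval v B := by
    intro i
    have h1 : (X i ^ (M + 1) : MvPolynomial (Fin 6) L) ∈ I := by
      apply hM
      refine Ideal.pow_le_pow_right (Nat.le_succ M) ?_
      have hXi : (X i : MvPolynomial (Fin 6) L) ∈ idealOfVars (Fin 6) L := by
        unfold idealOfVars
        exact Ideal.subset_span ⟨i, rfl⟩
      exact Ideal.pow_mem_pow hXi _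
    rw [hI] at h1
    obtain ⟨y, hy, c, hc, hyc⟩ := Submodule.mem_sup.1 h1
    obtain ⟨a', ha', b', hb', hab⟩ := Submodule.mem_sup.1 hy
    obtain ⟨a, rfl⟩ := Ideal.mem_span_singleton.1 ha'
    obtain ⟨b, rfl⟩ := Ideal.mem_span_singleton.1 hb'
    refine ⟨homogeneousComponent M b, homogeneousComponent_isHomogeneous M b, ?_⟩
    intro v h0 h5 hv
    have h2 : (X i ^ (M + 1) : MvPolynomial (Fin 6) L) = X 0 * homogeneousComponent M a +
        X 5 * homogeneousComponent M b + homogeneousComponent (M + 1) c := by
      have h3 : homogeneousComponent (M + 1) (X i ^ (M + 1) : MvPolynomial (Fin 6) L) = X i ^ (M + 1) := by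
        have h4 := homogeneousComponent_of_mem (n := M + 1)
          ((mem_homogeneousSubmodule (M + 1) _).2 (isHomogeneous_X_pow (R := L) i (M + 1))) (m := M + 1)
        rw [h4, if_pos rfl]
      rw [← h3, ← hyc, ← hab, map_add, map_add, finL_comp, finL_comp]
    have h3 : aeval v (homogeneousComponent (M + 1) c) = 0 := by
      have h4 := finL_span hfh hc (M + 1)
      have h5 : Ideal.span (Set.range f) ≤ RingHom.ker (aeval v : MvPolynomial (Fin 6) L →ₐ[L] L) := by
        rw [Ideal.span_le]
        rintro _ ⟨k, rfl⟩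
        rw [SetLike.mem_coe, RingHom.mem_ker]
        have h6 := finL_eval F e v k
        rw [hv, Polynomial.coeff_zero] at h6
        exact h6
      exact h5 h4
    have h4 := congrArg (aeval v) h2
    rw [map_pow, aeval_X, map_add, map_add, map_mul, map_mul, aeval_X, aeval_X, h0, h5, h3, zero_mul, zero_add,
      one_mul, add_zero] at h4
    exact h4
  choose B hB1 hB2 using hex
  exact finL_fin _ M B hB1 (fun v hv i => hB2 i v hv.1 hv.2.1 hv.2.2)

theorem finite_lines {L : Type} [Field L] [IsAlgClosed L] {F : MvPolynomial (Fin 6) L} (hF : F.IsHomogeneous 7)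
    (h : ∀ v : Fin 6 → L, v 0 = 0 → v 5 = 0 → v ≠ 0 → ln F v (Pi.single 0 1) ≠ 0) :
    {W : Submodule L (Fin 6 → L) | Module.finrank L W = 2 ∧ (Pi.single 0 1 : Fin 6 → L) ∈ W ∧ ∀ x ∈ W, eval x F = 0}.Finite := by
  classical
  set e : Fin 6 → L := Pi.single 0 1 with he
  have he0 : e 0 = 1 := by rw [he, Pi.single_eq_same]
  have he5 : e 5 = 0 := by
    rw [he, Pi.single_eq_of_ne (by decide)]
  refine ((finite_dirs hF h).image (fun v => Submodule.span L (Set.range ![e, v]))).subset ?_
  rintro W ⟨hW2, heW, hW⟩
  -- a vector outside `L e`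
  obtain ⟨w, hwW, hw⟩ : ∃ w ∈ W, w ∉ Submodule.span L {e} := by
    by_contra hcon
    push Not at hcon
    have h1 : Module.finrank L W ≤ Module.finrank L (Submodule.span L {e}) :=
      Submodule.finrank_mono hcon
    have h2 := finrank_span_singleton (K := L) (v := e) (by
      intro h3
      rw [h3] at he0
      exact zero_ne_one he0)
    omega
  set v : Fin 6 → L := w - w 0 • e with hv
  have hvW : v ∈ W := W.sub_mem hwW (W.smul_mem _ heW)
  have hv0 : v 0 = 0 := by
    rw [hv, Pi.sub_apply, Pi.smul_apply, he0, smul_eq_mul, mul_one, sub_self]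
  have hvne : v ≠ 0 := by
    intro h1
    apply hw
    rw [hv, sub_eq_zero] at h1
    rw [h1]
    exact Submodule.smul_mem _ _ (Submodule.mem_span_singleton_self e)
  have hln : ∀ u ∈ W, ln F u e = 0 := by
    intro u hu
    apply Polynomial.funext
    intro s
    rw [eval_ln, Polynomial.eval_zero, MvPolynomial.aeval_eq_eval]
    exact hW _ (W.add_mem (W.smul_mem s hu) heW)
  have hv5 : v 5 ≠ 0 := fun h5 => h v hv0 h5 hvne (hln v hvW)
  set u : Fin 6 → L := (v 5)⁻¹ • v with hu
  have huW : u ∈ W := W.smul_mem _ hvW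
  have hu0 : u 0 = 0 := by rw [hu, Pi.smul_apply, hv0, smul_zero]
  have hu5 : u 5 = 1 := by rw [hu, Pi.smul_apply, smul_eq_mul, inv_mul_cancel₀ hv5]
  refine ⟨u, ⟨hu0, hu5, hln u huW⟩, ?_⟩
  have hli : LinearIndependent L ![e, u] := by
    rw [LinearIndependent.pair_iff]
    intro a b hab
    have h1 := congrFun hab 5
    have h2 := congrFun hab 0
    simp only [Pi.add_apply, Pi.smul_apply, smul_eq_mul, Pi.zero_apply, he0, he5, hu0, hu5] at h1 h2
    constructor
    · linear_combination h2
    · linear_combination h1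
  apply Submodule.eq_of_le_of_finrank_eq
  · rw [Submodule.span_le]
    rintro _ ⟨i, rfl⟩
    fin_cases i
    · exact heW
    · exact huW
  · rw [finrank_span_eq_card hli, hW2, Fintype.card_fin]

end Pool.Agent.H3.SH
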