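import Pool.Agent.H3.SH.Der
import Pool.Agent.H3.SH.Ext

/-!
# SH Good: derivations are onto the tangent space at almost all points of the line (part L of note 5648)

`xi` generic, `ln F v xi = 0` (i.e. `F (xi + X v) = 0`), `xi_0 ≠ 0`, `v_0 = 0`.  `N = grad F (xi) ≠ 0` (`smooth_ext`), the kernel of
`u ↦ N . u` has dimension `n - 1`; let `u_1, ..., u_(n-1)` be a basis and `e` with `N . e ≠ 0`; `D_j` with `D_j xi = u_j`
(`exists_der_gen`), `w_j = D_j v`.  `δ = det (rows u_j + X w_j, row e) ∈ E[X]`, `δ (0) ≠ 0`.  If `δ (s) ≠ 0`, `s ∈ L`, then the `u_j + s w_j`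
are `n - 1` independent vectors in the kernel of `u ↦ grad F (xi + s v) . u` (`D_j (F (xi + s v)) = 0`, `der_aeval`), which has dimension `n - 1`
(`grad F (xi + s v) ≠ 0`, as `xi + s v ≠ 0`), so every `u` in this kernel is `∑ c_j (u_j + s w_j)`: `w₁ = ∑ c_j u_j`, `w₂ = ∑ c_j w_j`.
`gd w₁ + X gd w₂ = 0`: for `D = ∑ c_j D_j` and all `s' ∈ L`, `0 = D (F (xi + s' v)) = (gd (D xi) + X gd (D v)) (s')`; `L` is infinite.
-/

set_option autoImplicit false

open MvPolynomial

namespace Pool.Agent.H3.SH

variable {L : Type} [Field L] [IsAlgClosed L] [CharZero L] {E : Type} [Field E] [Algebra L E] {m : ℕ} {F : MvPolynomial (Fin (m + 1)) L}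
  {xi v : Fin (m + 1) → E}

omit [IsAlgClosed L] [CharZero L] in
private theorem good_ev (G : MvPolynomial (Fin (m + 1)) L) (xi v : Fin (m + 1) → E) (t : E) :
    (aeval (fun j => Polynomial.C (xi j) + Polynomial.C (v j) * Polynomial.X) G : Polynomial E).eval t =
      aeval (fun j => xi j + v j * t) G := by
  have h := congrArg (fun g => g G) (MvPolynomial.comp_aeval (R := L)
    (fun j => Polynomial.C (xi j) + Polynomial.C (v j) * Polynomial.X)
    ((Polynomial.aeval t : Polynomial E →ₐ[E] E).restrictScalars L))
  simp only [AlgHom.comp_apply, AlgHom.restrictScalars_apply, Polynomial.coe_aeval_eq_eval, Polynomial.eval_add,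
    Polynomial.eval_mul, Polynomial.eval_C, Polynomial.eval_X] at h
  exact h

theorem gd_der (h0 : aeval (fun j => Polynomial.C (xi j) + Polynomial.C (v j) * Polynomial.X) F = 0) (D : Derivation L E E) :
    gd F xi v (fun i => D (xi i)) + Polynomial.X * gd F xi v (fun i => D (v i)) = 0 := by
  have key : ∀ s : L, (gd F xi v (fun i => D (xi i)) +
      Polynomial.X * gd F xi v (fun i => D (v i))).eval (algebraMap L E s) = 0 := by
    intro s
    have h1 := congrArg (Polynomial.eval (algebraMap L E s)) h0
    rw [good_ev, Polynomial.eval_zero] at h1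
    have h2 := der_aeval D (fun j => xi j + v j * algebraMap L E s) F
    rw [h1, map_zero] at h2
    have h3 : ∀ j, D (xi j + v j * algebraMap L E s) = D (xi j) + algebraMap L E s * D (v j) := by
      intro j
      rw [map_add, D.leibniz, D.map_algebraMap, smul_zero, zero_add, smul_eq_mul]
    simp only [h3] at h2
    unfold gd
    rw [Polynomial.eval_add, Polynomial.eval_mul, Polynomial.eval_X, Polynomial.eval_finsetSum,
      Polynomial.eval_finsetSum]
    simp only [Polynomial.eval_mul, Polynomial.eval_C, good_ev]
    rw [Finset.mul_sum, ← Finset.sum_add_distrib, h2]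
    exact Finset.sum_congr rfl fun j _ => by ring
  apply Polynomial.eq_zero_of_infinite_isRoot
  refine Set.Infinite.mono (s := Set.range (algebraMap L E)) ?_
    (Set.infinite_range_of_injective (algebraMap L E).injective)
  rintro _ ⟨s, rfl⟩
  exact key s

omit [IsAlgClosed L] [CharZero L] in
private theorem good_sum (x : Fin (m + 1) → E) (U : Fin (m + 1) → Fin (m + 1) → E) :
    gd F xi v (fun k => ∑ i, x i * U i k) = ∑ i, Polynomial.C (x i) * gd F xi v (U i) := by
  unfold gd
  simp only [map_sum, Finset.mul_sum, Polynomial.C_mul]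
  rw [Finset.sum_comm]
  exact Finset.sum_congr rfl fun i _ => Finset.sum_congr rfl fun j _ => by ring

theorem good (hs : Pool.Agent.H8.SD.Smooth L F) (hg : Gen F xi) (hx : xi 0 ≠ 0) (hv : v 0 = 0)
    (h0 : aeval (fun j => Polynomial.C (xi j) + Polynomial.C (v j) * Polynomial.X) F = 0) :
    ∃ δ : Polynomial E, δ ≠ 0 ∧ ∀ s : L, δ.eval (algebraMap L E s) ≠ 0 → ∀ u : Fin (m + 1) → E,
      (gd F xi v u).eval (algebraMap L E s) = 0 → ∃ w₁ w₂ : Fin (m + 1) → E, (∀ i, u i = w₁ i + algebraMap L E s * w₂ i) ∧
        gd F xi v w₁ + Polynomial.X * gd F xi v w₂ = 0 := by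
  classical
  -- the gradient at `xi`
  obtain ⟨b, hb⟩ := smooth_ext hs xi (fun h => hx (congrFun h 0))
  set N : Fin (m + 1) → E := fun i => aeval xi (pderiv i F) with hN
  have hb' : N b ≠ 0 := hb
  -- tangent vectors
  let U : Fin (m + 1) → Fin (m + 1) → E := fun i k => (if k = i then 1 else 0) - if k = b then N i / N b else 0
  have hU : ∀ i, ∑ k, aeval xi (pderiv k F) * U i k = 0 := by
    intro i
    show ∑ k, N k * ((if k = i then 1 else 0) - if k = b then N i / N b else 0) = 0
    simp only [mul_sub, mul_ite, mul_one, mul_zero, Finset.sum_sub_distrib, Finset.sum_ite_eq', Finset.mem_univ,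
      if_true]
    field_simp
    ring
  choose D hD using fun i => exists_der_gen hg (hU i)
  let W : Fin (m + 1) → Fin (m + 1) → E := fun i k => D i (v k)
  have hgd : ∀ i, gd F xi v (U i) + Polynomial.X * gd F xi v (W i) = 0 := by
    intro i
    have h1 := gd_der h0 (D i)
    have h2 : (fun k => D i (xi k)) = U i := funext (hD i)
    rw [h2] at h1
    exact h1
  -- the matrix
  let A : Matrix (Fin (m + 1)) (Fin (m + 1)) (Polynomial E) := Matrix.of fun i k =>
    Polynomial.C (U i k + if i = b ∧ k = b then 1 else 0) + Polynomial.X * Polynomial.C (W i k)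
  have hA : ∀ t : E, A.det.eval t = (Matrix.of fun i k =>
      (U i k + if i = b ∧ k = b then 1 else 0) + t * W i k).det := by
    intro t
    have h1 := (Polynomial.evalRingHom t).map_det A
    rw [Polynomial.coe_evalRingHom] at h1
    rw [h1]
    congr 1
    ext i k
    simp only [A, RingHom.mapMatrix_apply, Matrix.map_apply, Matrix.of_apply, Polynomial.coe_evalRingHom,
      Polynomial.eval_add, Polynomial.eval_mul, Polynomial.eval_C, Polynomial.eval_X]
  refine ⟨A.det, ?_, ?_⟩
  · intro hdet
    have h1 := hA 0
    rw [hdet, Polynomial.eval_zero] at h1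
    obtain ⟨x, hx0, hx1⟩ := Matrix.exists_vecMul_eq_zero_iff.2 h1.symm
    apply hx0
    have h2 : ∀ k, ∑ i, x i * (U i k + if i = b ∧ k = b then 1 else 0) = 0 := by
      intro k
      have h3 := congrFun hx1 k
      simp only [Matrix.vecMul, dotProduct, Matrix.of_apply, zero_mul, add_zero, Pi.zero_apply] at h3
      exact h3
    have h4 : ∀ k, k ≠ b → x k = 0 := by
      intro k hk
      have h5 := h2 k
      simp only [U, hk, and_false, if_false, sub_zero, add_zero, mul_ite, mul_one, mul_zero] at h5
      rw [Finset.sum_ite_eq] at h5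
      simpa using h5
    have h6 : x b = 0 := by
      have h5 := h2 b
      rw [Finset.sum_eq_single b] at h5
      · simp only [U, if_true, and_self] at h5
        rw [div_self hb', sub_self, zero_add, mul_one] at h5
        exact h5
      · intro i _ hi
        rw [h4 i hi, zero_mul]
      · intro h
        exact absurd (Finset.mem_univ b) h
    funext k
    by_cases hk : k = b
    · rw [hk, h6]
      rfl
    · exact h4 k hk
  · intro s hs' u hu
    set t := algebraMap L E s with ht
    rw [hA t] at hs'
    set B : Matrix (Fin (m + 1)) (Fin (m + 1)) E := Matrix.of fun i k =>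
      (U i k + if i = b ∧ k = b then 1 else 0) + t * W i k with hB
    have hunit : IsUnit B.det := isUnit_iff_ne_zero.2 hs'
    -- the gradient at `xi + s v`
    set G : Fin (m + 1) → E := fun i => aeval (fun j => xi j + v j * t) (pderiv i F) with hG
    have hgd' : ∀ w, (gd F xi v w).eval t = ∑ i, G i * w i := by
      intro w
      unfold gd
      rw [Polynomial.eval_finsetSum]
      simp only [Polynomial.eval_mul, Polynomial.eval_C, good_ev, hG]
    have hrow : ∀ i, ∑ k, G k * (U i k + t * W i k) = 0 := by
      intro i
      have h1 := congrArg (Polynomial.eval t) (hgd i)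
      rw [Polynomial.eval_add, Polynomial.eval_mul, Polynomial.eval_X, hgd', hgd', Polynomial.eval_zero,
        Finset.mul_sum, ← Finset.sum_add_distrib] at h1
      rw [← h1]
      exact Finset.sum_congr rfl fun k _ => by ring
    set x : Fin (m + 1) → E := Matrix.vecMul u B⁻¹ with hxdef
    have hxu : Matrix.vecMul x B = u := by
      rw [hxdef, Matrix.vecMul_vecMul, Matrix.nonsing_inv_mul _ hunit, Matrix.vecMul_one]
    have hu2 : ∀ k, u k = ∑ i, x i * (U i k + t * W i k) + if k = b then x b else 0 := by
      intro k
      rw [← hxu]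
      simp only [Matrix.vecMul, dotProduct, hB, Matrix.of_apply]
      have h1 : (if k = b then x b else 0) = ∑ i, x i * (if i = b ∧ k = b then 1 else 0) := by
        by_cases hk : k = b
        · simp [hk]
        · simp [hk]
      rw [h1, ← Finset.sum_add_distrib]
      exact Finset.sum_congr rfl fun i _ => by ring
    have hxb : x b = 0 := by
      by_contra hne
      have h1 : ∑ k, G k * u k = 0 := by rw [← hgd', hu]
      have h2 : G b * x b = 0 := by
        have h3 : ∑ k, G k * u k = ∑ i, x i * ∑ k, G k * (U i k + t * W i k) + G b * x b := by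
          simp only [hu2, mul_add, Finset.sum_add_distrib, Finset.mul_sum, mul_ite, mul_zero, Finset.sum_ite_eq',
            Finset.mem_univ, if_true]
          congr 1
          congr 1
          · rw [Finset.sum_comm]
            exact Finset.sum_congr rfl fun i _ => Finset.sum_congr rfl fun k _ => by ring
          · rw [Finset.sum_comm]
            exact Finset.sum_congr rfl fun i _ => Finset.sum_congr rfl fun k _ => by ring
        rw [h1] at h3
        rw [h3]
        simp only [hrow, mul_zero, Finset.sum_const_zero, zero_add]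
      have hGb : G b = 0 := (mul_eq_zero.1 h2).resolve_right hne
      have h4 : B.mulVec G = 0 := by
        funext i
        simp only [Matrix.mulVec, dotProduct, hB, Matrix.of_apply, Pi.zero_apply]
        refine Eq.trans (Finset.sum_congr rfl fun k _ => ?_) (hrow i)
        by_cases hk : i = b ∧ k = b
        · rw [hk.2, hGb]
          ring
        · rw [if_neg hk, add_zero, mul_comm]
      have h5 : G = 0 := by
        have h6 := congrArg (Matrix.mulVec B⁻¹) h4
        rwa [Matrix.mulVec_mulVec, Matrix.nonsing_inv_mul _ hunit, Matrix.one_mulVec, Matrix.mulVec_zero] at h6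
      obtain ⟨i, hi⟩ := smooth_ext hs (fun j => xi j + v j * t) (fun h => hx (by
        have h7 := congrFun h 0
        simpa [hv] using h7))
      exact hi (congrFun h5 i)
    refine ⟨fun k => ∑ i, x i * U i k, fun k => ∑ i, x i * W i k, fun k => ?_, ?_⟩
    · rw [hu2 k, hxb, ite_self, add_zero, Finset.mul_sum, ← Finset.sum_add_distrib]
      exact Finset.sum_congr rfl fun i _ => by ring
    · rw [good_sum, good_sum, Finset.mul_sum, ← Finset.sum_add_distrib]
      refine Finset.sum_eq_zero fun i _ => ?_
      have h1 := hgd i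
      calc Polynomial.C (x i) * gd F xi v (U i) + Polynomial.X * (Polynomial.C (x i) * gd F xi v (W i))
          = Polynomial.C (x i) * (gd F xi v (U i) + Polynomial.X * gd F xi v (W i)) := by ring
        _ = 0 := by rw [h1, mul_zero]

end Pool.Agent.H3.SH
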