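import Pool.Agent.H31.SX.Solv
import Pool.Agent.H3.SH.Defs

/-!
# SH Kf: the field of S17763
-/

set_option autoImplicit false

namespace Pool.Agent.H3.SH

theorem roots_Qs : Roots Pool.Agent.H31.SX.Qs (AlgebraicClosure ℚ) := by
  intro p hp hd t ht
  exact ⟨⟨t, Pool.Agent.H31.SX.root_mem hp hd ht⟩, rfl⟩

end Pool.Agent.H3.SH
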