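import Pool.Agent.H3.SH.Defs

/-!
# SH LemD: root closure (Lemma D of note 5648)

Proof: at `(z₀, t₀)` in question take `τ` with `φ_(z₀) (τ) ≠ 0` (`L` is infinite), `m = natDegree φ`, `M = natDegree g + 1`,
`T = (X - τ)^M`, `c` with `g_(z₀) (t₀) = c (t₀ - τ)^M`.  The resultants (of formal degrees `m`, `M`) of `φ` with `g - c T` and with `- c T`
agree at every `z ∈ D` with `φ_z (τ) ≠ 0`, because `g_z` vanishes at all roots of `φ_z` and the two polynomials have the same coefficient
at `X^M`.  So they agree at `z₀`, where the first one is `0` (`t₀` is a root), so the second one is `0`, so `c = 0`.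
-/

set_option autoImplicit false

open MvPolynomial

namespace Pool.Agent.H3.SH

private lemma res_form {L : Type} [Field L] [IsAlgClosed L] (p h : Polynomial L) (m M : ℕ) (hm : p.natDegree ≤ m)
    (hh : h.natDegree ≤ M) :
    Polynomial.resultant p h m M = (-1) ^ (M * (m - p.natDegree)) * h.coeff M ^ (m - p.natDegree) *
      (p.leadingCoeff ^ M * (p.roots.map h.eval).prod) := by
  obtain ⟨k, rfl⟩ := Nat.exists_eq_add_of_le hm
  rw [Nat.add_sub_cancel_left, Polynomial.resultant_add_left_deg _ _ _ _ _ le_rfl,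
    Polynomial.resultant_eq_prod_eval _ _ _ hh (IsAlgClosed.splits p)]

theorem lemD {L : Type} [Field L] [IsAlgClosed L] {σ : Type} {D E : Set (σ → L)} (h : Dense D E) (φ g : Polynomial (MvPolynomial σ L))
    (hD : ∀ z ∈ D, ∀ t : L, φ.map (eval z) ≠ 0 → (φ.map (eval z)).eval t = 0 → (g.map (eval z)).eval t = 0) :
    ∀ z ∈ E, ∀ t : L, φ.map (eval z) ≠ 0 → (φ.map (eval z)).eval t = 0 → (g.map (eval z)).eval t = 0 := by
  intro z₀ hz₀ t₀ hne ht₀
  have : Infinite L := IsAlgClosed.instInfinite
  obtain ⟨τ, hτ⟩ : ∃ τ : L, (φ.map (eval z₀)).eval τ ≠ 0 := by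
    by_contra hcon
    push Not at hcon
    exact hne (Polynomial.funext (by simpa using hcon))
  set m := φ.natDegree with hm
  set M := g.natDegree + 1 with hM
  have htτ : t₀ - τ ≠ 0 := by
    intro h0
    rw [sub_eq_zero] at h0
    exact hτ (h0 ▸ ht₀)
  set c : L := (g.map (eval z₀)).eval t₀ / (t₀ - τ) ^ M with hc
  have hc' : (g.map (eval z₀)).eval t₀ = c * (t₀ - τ) ^ M := by
    rw [hc, div_mul_cancel₀ _ (pow_ne_zero _ htτ)]
  set T : Polynomial (MvPolynomial σ L) := Polynomial.C (C c) * (Polynomial.X - Polynomial.C (C τ)) ^ M with hT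
  have hTz : ∀ z : σ → L, T.map (eval z) = Polynomial.C c * (Polynomial.X - Polynomial.C τ) ^ M := by
    intro z
    simp [hT]
  have hTdeg : ∀ z : σ → L, (T.map (eval z)).natDegree ≤ M := by
    intro z
    rw [hTz]
    refine (Polynomial.natDegree_C_mul_le _ _).trans ?_
    rw [Polynomial.natDegree_pow, Polynomial.natDegree_X_sub_C, mul_one]
  have hTc : ∀ z : σ → L, (T.map (eval z)).coeff M = c := by
    intro z
    rw [hTz, Polynomial.coeff_C_mul]
    have h1 : ((Polynomial.X - Polynomial.C τ) ^ M : Polynomial L).coeff M = 1 := by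
      have h2 := ((Polynomial.monic_X_sub_C τ).pow M).coeff_natDegree
      rwa [Polynomial.natDegree_pow, Polynomial.natDegree_X_sub_C, mul_one] at h2
    rw [h1, mul_one]
  have hgdeg : ∀ z : σ → L, (g.map (eval z)).natDegree < M := fun z =>
    lt_of_le_of_lt Polynomial.natDegree_map_le (Nat.lt_succ_self _)
  -- the two resultants at a point
  have key : ∀ z : σ → L,
      eval z (Polynomial.resultant φ (g - T) m M) = (-1) ^ (M * (m - (φ.map (eval z)).natDegree)) * (-c) ^ (m - (φ.map (eval z)).natDegree) *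
        ((φ.map (eval z)).leadingCoeff ^ M *
          ((φ.map (eval z)).roots.map fun r => (g.map (eval z)).eval r - c * (r - τ) ^ M).prod) ∧
      eval z (Polynomial.resultant φ (-T) m M) = (-1) ^ (M * (m - (φ.map (eval z)).natDegree)) * (-c) ^ (m - (φ.map (eval z)).natDegree) *
        ((φ.map (eval z)).leadingCoeff ^ M *
          ((φ.map (eval z)).roots.map fun r => 0 - c * (r - τ) ^ M).prod) := by
    intro z
    have hmz : (φ.map (eval z)).natDegree ≤ m := Polynomial.natDegree_map_le
    constructor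
    · rw [← Polynomial.resultant_map_map, res_form _ _ _ _ hmz, Polynomial.map_sub, Polynomial.coeff_sub, hTc,
        Polynomial.coeff_eq_zero_of_natDegree_lt (hgdeg z), zero_sub]
      · congr 3
        refine Multiset.map_congr rfl fun r _ => ?_
        rw [Polynomial.eval_sub, hTz]
        simp
      · rw [Polynomial.map_sub]
        exact (Polynomial.natDegree_sub_le _ _).trans (max_le (hgdeg z).le (hTdeg z))
    · rw [← Polynomial.resultant_map_map, res_form _ _ _ _ hmz, Polynomial.map_neg, Polynomial.coeff_neg, hTc]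
      · congr 3
        refine Multiset.map_congr rfl fun r _ => ?_
        rw [Polynomial.eval_neg, hTz]
        simp
      · rw [Polynomial.map_neg, Polynomial.natDegree_neg]
        exact hTdeg z
  have hvan := h (φ.eval (C τ) * (Polynomial.resultant φ (g - T) m M - Polynomial.resultant φ (-T) m M)) (by
    intro z hz
    rw [map_mul, map_sub]
    by_cases ha : eval z (φ.eval (C τ)) = 0
    · rw [ha, zero_mul]
    have hφz : (φ.map (eval z)).eval τ ≠ 0 := by
      intro h0
      apply ha
      rw [← h0, Polynomial.eval_map, ← Polynomial.eval₂_hom]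
      simp
    have hφz0 : φ.map (eval z) ≠ 0 := by
      intro h0
      rw [h0, Polynomial.eval_zero] at hφz
      exact hφz rfl
    rw [(key z).1, (key z).2]
    have heq : ((φ.map (eval z)).roots.map fun r => (g.map (eval z)).eval r - c * (r - τ) ^ M) =
        ((φ.map (eval z)).roots.map fun r => 0 - c * (r - τ) ^ M) := by
      refine Multiset.map_congr rfl fun r hr => ?_
      rw [hD z hz r hφz0 ((Polynomial.mem_roots hφz0).1 hr)]
    rw [heq, sub_self, mul_zero]) z₀ hz₀
  rw [map_mul, map_sub, (key z₀).1, (key z₀).2] at hvan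
  have ha0 : eval z₀ (φ.eval (C τ)) ≠ 0 := by
    intro h0
    apply hτ
    rw [← h0, Polynomial.eval_map, ← Polynomial.eval₂_hom]
    simp
  have h1 := (mul_eq_zero.1 hvan).resolve_left ha0
  have hzero : ((φ.map (eval z₀)).roots.map fun r => (g.map (eval z₀)).eval r - c * (r - τ) ^ M).prod = 0 := by
    rw [Multiset.prod_eq_zero_iff, Multiset.mem_map]
    exact ⟨t₀, (Polynomial.mem_roots hne).2 ht₀, by rw [hc', sub_self]⟩
  rw [hzero, mul_zero, mul_zero, zero_sub, neg_eq_zero] at h1
  by_contra hg
  have hc0 : c ≠ 0 := by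
    intro h0
    rw [h0, zero_mul] at hc'
    exact hg hc'
  have hlc : (φ.map (eval z₀)).leadingCoeff ≠ 0 := Polynomial.leadingCoeff_ne_zero.2 hne
  have hprod : ((φ.map (eval z₀)).roots.map fun r => 0 - c * (r - τ) ^ M).prod ≠ 0 := by
    rw [Ne, Multiset.prod_eq_zero_iff, Multiset.mem_map]
    rintro ⟨r, hr, hr0⟩
    rw [zero_sub, neg_eq_zero] at hr0
    have h2 := (mul_eq_zero.1 hr0).resolve_left hc0
    have h3 := pow_eq_zero_iff (by omega : M ≠ 0) |>.1 h2
    rw [sub_eq_zero] at h3
    exact hτ (h3 ▸ (Polynomial.mem_roots hne).1 hr)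
  exact mul_ne_zero (mul_ne_zero (pow_ne_zero _ (neg_ne_zero.2 one_ne_zero)) (pow_ne_zero _ (neg_ne_zero.2 hc0)))
    (mul_ne_zero (pow_ne_zero _ hlc) hprod) h1

end Pool.Agent.H3.SH
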