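import Pool.Agent.H8.SD.Elim

/-!
# SH Rel: the relations between `k + 1` elements whose derivations span a space of dimension `≥ k` are the multiples of one polynomial
-/

set_option autoImplicit false

open MvPolynomial

namespace Pool.Agent.H3.SH

private theorem rel_exists_pderiv {C Ω : Type} [Field C] [CharZero C] [Field Ω] [Algebra C Ω] {k : ℕ} {η : Fin (k + 1) → Ω}
    {p : MvPolynomial (Fin (k + 1)) C} (hp : p ≠ 0) (h : aeval η p = 0) : ∃ a, pderiv a p ≠ 0 := by
  by_contra hcon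
  push Not at hcon
  have h1 := Pool.Agent.H8.SD.const_of_pderiv p hcon
  rw [h1, aeval_C] at h
  have h2 : constantCoeff p = 0 := (map_eq_zero_iff (algebraMap C Ω) (algebraMap C Ω).injective).1 h
  exact hp (by rw [h1, h2, map_zero])

theorem exists_rel {C Ω : Type} [Field C] [CharZero C] [Field Ω] [Algebra C Ω] {k : ℕ} {η : Fin (k + 1) → Ω}
    (W : Submodule Ω (Fin (k + 1) → Ω)) (hW : k ≤ Module.finrank Ω W)
    (hder : ∀ w ∈ W, ∀ g : MvPolynomial (Fin (k + 1)) C, aeval η g = 0 → ∑ i, aeval η (pderiv i g) * w i = 0)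
    {f : MvPolynomial (Fin (k + 1)) C} (hf : f ≠ 0) (hf0 : aeval η f = 0) :
    ∃ ρ : MvPolynomial (Fin (k + 1)) C, Irreducible ρ ∧ ∀ g, aeval η g = 0 → ρ ∣ g := by
  classical
  obtain ⟨ρ, ⟨hρ0, hρη⟩, hmin⟩ := WellFounded.has_min
    (InvImage.wf (fun p : MvPolynomial (Fin (k + 1)) C => p.totalDegree) wellFounded_lt) {p | p ≠ 0 ∧ aeval η p = 0} ⟨f, hf, hf0⟩
  have hsm : ∀ p : MvPolynomial (Fin (k + 1)) C, p ≠ 0 → p.totalDegree < ρ.totalDegree → aeval η p ≠ 0 :=
    fun p hp hlt h => hmin p ⟨hp, h⟩ hlt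
  have hunit : ∀ A B : MvPolynomial (Fin (k + 1)) C, ρ = A * B → aeval η A = 0 → IsUnit B := by
    intro A B hAB hA
    have hA0 : A ≠ 0 := by
      rintro rfl
      exact hρ0 (by rw [hAB, zero_mul])
    have hB0 : B ≠ 0 := by
      rintro rfl
      exact hρ0 (by rw [hAB, mul_zero])
    have hdeg := totalDegree_mul_of_isDomain hA0 hB0
    rw [← hAB] at hdeg
    have h1 : ¬ A.totalDegree < ρ.totalDegree := fun hlt => hsm A hA0 hlt hA
    have h2 : B.totalDegree = 0 := by omega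
    rw [totalDegree_eq_zero_iff_eq_C] at h2
    rw [h2]
    refine (IsUnit.mk0 _ ?_).map MvPolynomial.C
    intro h3
    exact hB0 (by rw [h2, h3, C_0])
  have hirr : Irreducible ρ := by
    refine ⟨fun hu => ?_, fun A B hAB => ?_⟩
    · obtain ⟨c, hc, hC⟩ := isUnit_iff_eq_C_of_isReduced.1 hu
      rw [hC, aeval_C] at hρη
      exact hc.ne_zero ((map_eq_zero_iff (algebraMap C Ω) (algebraMap C Ω).injective).1 hρη)
    · have h1 : aeval η A * aeval η B = 0 := by rw [← map_mul, ← hAB, hρη]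
      rcases mul_eq_zero.1 h1 with h | h
      · exact Or.inr (hunit A B hAB h)
      · exact Or.inl (hunit B A (by rw [hAB, mul_comm]) h)
  refine ⟨ρ, hirr, fun g hg => ?_⟩
  by_contra hdvd
  obtain ⟨a, ha⟩ := rel_exists_pderiv hρ0 hρη
  have haη : aeval η (pderiv a ρ) ≠ 0 := hsm _ ha (Pool.Agent.H8.SD.td_pderiv a ρ ha)
  have hdeg : ρ.degreeOf a ≠ 0 := by
    intro h0
    apply ha
    apply pderiv_eq_zero_of_notMem_vars
    rw [mem_vars_iff_degreeOf_ne_zero]
    simpa using h0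
  obtain ⟨A, B, r0, hr0, hAB, hd0⟩ := Pool.Agent.H8.SD.exists_elim hirr a hdeg hdvd
  have hr0η : aeval η r0 = 0 := by
    rw [← hAB, map_add, map_mul, map_mul, hρη, hg, mul_zero, mul_zero, add_zero]
  obtain ⟨r, ⟨hr, hrη, hra⟩, hrmin⟩ := WellFounded.has_min
    (InvImage.wf (fun p : MvPolynomial (Fin (k + 1)) C => p.totalDegree) wellFounded_lt)
    {p | p ≠ 0 ∧ aeval η p = 0 ∧ pderiv a p = 0} ⟨r0, hr0, hr0η, hd0⟩
  obtain ⟨i, hi⟩ := rel_exists_pderiv hr hrη
  have hia : i ≠ a := by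
    rintro rfl
    exact hi hra
  have hiη : aeval η (pderiv i r) ≠ 0 := by
    intro h
    refine hrmin _ ⟨hi, h, ?_⟩ (Pool.Agent.H8.SD.td_pderiv i r hi)
    have hcomm : pderiv a (pderiv i r) = pderiv i (pderiv a r) := by
      ext s
      simp only [coeff_pderiv, Finsupp.add_apply, Finsupp.single_apply]
      rw [if_neg hia, if_neg (Ne.symm hia), add_right_comm]
      push_cast
      ring
    rw [hcomm, hra, map_zero]
  let φ₁ : (Fin (k + 1) → Ω) →ₗ[Ω] Ω := ∑ j, aeval η (pderiv j ρ) • LinearMap.proj j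
  let φ₂ : (Fin (k + 1) → Ω) →ₗ[Ω] Ω := ∑ j, aeval η (pderiv j r) • LinearMap.proj j
  have e1 : ∀ w, φ₁ w = ∑ j, aeval η (pderiv j ρ) * w j := by
    intro w
    simp [φ₁]
  have e2 : ∀ w, φ₂ w = ∑ j, aeval η (pderiv j r) * w j := by
    intro w
    simp [φ₂]
  have hker : W ≤ LinearMap.ker (φ₁.prod φ₂) := by
    intro w hw
    rw [LinearMap.mem_ker]
    refine Prod.ext ?_ ?_
    · change φ₁ w = 0
      rw [e1, hder w hw ρ hρη]
    · change φ₂ w = 0
      rw [e2, hder w hw r hrη]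
  have hsurj : LinearMap.range (φ₁.prod φ₂) = ⊤ := by
    rw [LinearMap.range_eq_top]
    rintro ⟨x, y⟩
    let c : Ω := y / aeval η (pderiv i r)
    let d : Ω := (x - aeval η (pderiv i ρ) * c) / aeval η (pderiv a ρ)
    refine ⟨c • Pi.single i 1 + d • Pi.single a 1, ?_⟩
    have s1 : ∀ (l : Fin (k + 1) → Ω) (j : Fin (k + 1)), ∑ t, l t * (Pi.single j (1 : Ω) : Fin (k + 1) → Ω) t = l j := by
      intro l j
      rw [Finset.sum_eq_single j]
      · rw [Pi.single_eq_same, mul_one]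
      · intro t _ ht
        rw [Pi.single_eq_of_ne ht, mul_zero]
      · intro h
        exact absurd (Finset.mem_univ j) h
    refine Prod.ext ?_ ?_
    · change φ₁ _ = x
      rw [map_add, map_smul, map_smul, e1, e1, s1, s1, smul_eq_mul, smul_eq_mul]
      change c * _ + (x - aeval η (pderiv i ρ) * c) / aeval η (pderiv a ρ) * _ = x
      rw [div_mul_cancel₀ _ haη]
      ring
    · change φ₂ _ = y
      rw [map_add, map_smul, map_smul, e2, e2, s1, s1, smul_eq_mul, smul_eq_mul, hra, map_zero, mul_zero, add_zero]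
      exact div_mul_cancel₀ _ hiη
  have h1 := LinearMap.finrank_range_add_finrank_ker (φ₁.prod φ₂)
  rw [hsurj, finrank_top, Module.finrank_prod, Module.finrank_self, Module.finrank_fintype_fun_eq_card, Fintype.card_fin] at h1
  have h2 := Submodule.finrank_mono hker
  omega

end Pool.Agent.H3.SH
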