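import Pool.Agent.H3.SH.StE
import Pool.Agent.H8.SD.Hom

/-!
# SH Sct: hyperplane sections of a smooth form are irreducible

`sg b c` is the restriction to the hyperplane `∑ c_i x_i = 0`, `c_b ≠ 0` (elimination of `x_b`).  `sg b c F` is a form of degree 7 in
`m ≥ 4` variables.  It is not a unit (it vanishes at 0 and is `≠ 0` or it is 0).  If `sg b c F = A B` with `A (0) = B (0) = 0` (also if
`sg b c F = 0`: `A = B = 0`), then `A`, `B`, `sg b c (pderiv b F)` have a common zero `x ≠ 0` (`exists_zero`); all derivatives of `A B` vanish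
at `x`; with `y = b.insertNth (- ∑ c_j x_j / c_b) x` they are `∂_(b.succAbove j) F (y) - ∂_b F (y) c_j / c_b`; `∂_b F (y) = 0`, so
`grad F (y) = 0`: contradiction.  Factors which are not units are forms of positive degree (`hom_of_mul`), so they vanish at 0.
-/

set_option autoImplicit false

open MvPolynomial

namespace Pool.Agent.H3.SH

/-- Elimination of `x_b` by `∑ c_i x_i = 0`. -/
noncomputable def sg {C : Type} [Field C] {m : ℕ} (b : Fin (m + 1)) (c : Fin (m + 1) → C) :
    MvPolynomial (Fin (m + 1)) C →ₐ[C] MvPolynomial (Fin m) C :=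
  aeval (b.insertNth (α := fun _ => MvPolynomial (Fin m) C) (-∑ j, MvPolynomial.C (c (b.succAbove j) / c b) * X j) (fun j => X j))

private theorem sct_b {C : Type} [Field C] {m : ℕ} (b : Fin (m + 1)) (c : Fin (m + 1) → C) :
    sg b c (X b) = -∑ j, MvPolynomial.C (c (b.succAbove j) / c b) * X j := by
  unfold sg
  rw [aeval_X, Fin.insertNth_apply_same]

private theorem sct_s {C : Type} [Field C] {m : ℕ} (b : Fin (m + 1)) (c : Fin (m + 1) → C) (j : Fin m) :
    sg b c (X (b.succAbove j)) = X j := by
  unfold sg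
  rw [aeval_X, Fin.insertNth_apply_succAbove]

theorem aeval_sg {C Ω : Type} [Field C] [Field Ω] [Algebra C Ω] {m : ℕ} {b : Fin (m + 1)} {c : Fin (m + 1) → C} (hb : c b ≠ 0)
    {z : Fin (m + 1) → Ω} (hz : ∑ i, algebraMap C Ω (c i) * z i = 0) (g : MvPolynomial (Fin (m + 1)) C) :
    aeval (fun j => z (b.succAbove j)) (sg b c g) = aeval z g := by
  have h : (aeval (R := C) (fun j => z (b.succAbove j))).comp (sg b c) = aeval (R := C) z := by
    apply MvPolynomial.algHom_ext
    intro i
    rw [AlgHom.comp_apply, aeval_X]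
    rcases eq_or_ne i b with rfl | hi
    · rw [sct_b, map_neg, map_sum]
      rw [Fin.sum_univ_succAbove _ i] at hz
      have hb' : algebraMap C Ω (c i) ≠ 0 := by
        rw [Ne, FaithfulSMul.algebraMap_eq_zero_iff]
        exact hb
      have h1 : ∑ j, aeval (R := C) (fun j => z (i.succAbove j))
          (MvPolynomial.C (c (i.succAbove j) / c i) * X j) =
          (∑ j, algebraMap C Ω (c (i.succAbove j)) * z (i.succAbove j)) / algebraMap C Ω (c i) := by
        rw [Finset.sum_div]
        refine Finset.sum_congr rfl fun j _ => ?_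
        rw [map_mul, aeval_X, aeval_C, map_div₀]
        ring
      rw [h1, ← neg_div, div_eq_iff hb']
      linear_combination -hz
    · obtain ⟨j, rfl⟩ := Fin.exists_succAbove_eq hi
      rw [sct_s, aeval_X]
  exact DFunLike.congr_fun h g

theorem sg_hom {C : Type} [Field C] {m d : ℕ} (b : Fin (m + 1)) (c : Fin (m + 1) → C) {g : MvPolynomial (Fin (m + 1)) C}
    (hg : g.IsHomogeneous d) : (sg b c g).IsHomogeneous d := by
  have h := hg.aeval (n := 1) (b.insertNth (α := fun _ => MvPolynomial (Fin m) C)
    (-∑ j, MvPolynomial.C (c (b.succAbove j) / c b) * X j) (fun j => X j)) ?_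
  · rw [one_mul] at h
    exact h
  · intro i
    rcases eq_or_ne i b with rfl | hi
    · rw [Fin.insertNth_apply_same]
      apply IsHomogeneous.neg
      apply IsHomogeneous.sum
      intro j _
      exact (isHomogeneous_X C j).C_mul _
    · obtain ⟨j, rfl⟩ := Fin.exists_succAbove_eq hi
      rw [Fin.insertNth_apply_succAbove]
      exact isHomogeneous_X C j

private theorem sct_chain {C : Type} [Field C] {m : ℕ} (b : Fin (m + 1)) (c : Fin (m + 1) → C) (j : Fin m)
    (g : MvPolynomial (Fin (m + 1)) C) :
    pderiv j (sg b c g) = sg b c (pderiv (b.succAbove j) g) -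
      MvPolynomial.C (c (b.succAbove j) / c b) * sg b c (pderiv b g) := by
  classical
  induction g using MvPolynomial.induction_on with
  | C a =>
    have h1 : sg b c (MvPolynomial.C a) = MvPolynomial.C a := by
      have := (sg b c).commutes a
      exact this
    rw [h1, pderiv_C, pderiv_C, pderiv_C, map_zero, mul_zero, sub_zero]
  | add p q hp hq =>
    simp only [map_add, hp, hq]
    ring
  | mul_X p i hp =>
    have hX : pderiv j (sg b c (X i)) = sg b c (pderiv (b.succAbove j) (X i)) -
        MvPolynomial.C (c (b.succAbove j) / c b) * sg b c (pderiv b (X i)) := by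
      rcases eq_or_ne i b with rfl | hi
      · rw [sct_b, map_neg, map_sum, pderiv_X_self, map_one, mul_one,
          pderiv_X_of_ne (Fin.succAbove_ne i j).symm, map_zero, zero_sub, neg_inj]
        rw [Finset.sum_eq_single j]
        · rw [pderiv_C_mul, pderiv_X_self, mul_one]
        · intro k _ hk
          rw [pderiv_C_mul, pderiv_X_of_ne hk, mul_zero]
        · intro h
          exact absurd (Finset.mem_univ j) h
      · obtain ⟨k, rfl⟩ := Fin.exists_succAbove_eq hi
        rw [sct_s, pderiv_X_of_ne hi, map_zero, mul_zero, sub_zero]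
        rcases eq_or_ne k j with rfl | hk
        · rw [pderiv_X_self, pderiv_X_self, map_one]
        · rw [pderiv_X_of_ne hk, pderiv_X_of_ne, map_zero]
          intro h
          exact hk (Fin.succAbove_right_injective h)
    rw [map_mul, Derivation.leibniz, Derivation.leibniz, Derivation.leibniz, hp, hX]
    simp only [smul_eq_mul, map_add, map_mul]
    ring

private theorem sct_key {C : Type} [Field C] [IsAlgClosed C] {m : ℕ} (hm : 4 ≤ m) {F : MvPolynomial (Fin (m + 1)) C}
    (hF : F.IsHomogeneous 7) (hs : ∀ x : Fin (m + 1) → C, x ≠ 0 → ∃ i, eval x (pderiv i F) ≠ 0) {b : Fin (m + 1)}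
    {c : Fin (m + 1) → C} (hb : c b ≠ 0) (A B : MvPolynomial (Fin m) C) (hAB : sg b c F = A * B)
    (hA : eval 0 A = 0) (hB : eval 0 B = 0) : False := by
  have hD : (sg b c (pderiv b F)).IsHomogeneous 6 := sg_hom b c hF.pderiv
  have hD0 : eval 0 (sg b c (pderiv b F)) = 0 := by
    rw [eval_zero]
    change coeff 0 _ = 0
    refine hD.coeff_eq_zero ?_
    simp
  obtain ⟨x, hx, h⟩ := exists_zero (L := C) (Fin m) (Fin 3) (by simpa using by omega)
    (![A, B, sg b c (pderiv b F)]) (by
      intro k
      fin_cases k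
      · exact hA
      · exact hB
      · exact hD0)
  have hxA : eval x A = 0 := h 0
  have hxB : eval x B = 0 := h 1
  have hxD : eval x (sg b c (pderiv b F)) = 0 := h 2
  set y : Fin (m + 1) → C := b.insertNth (α := fun _ => C) (-∑ j, c (b.succAbove j) / c b * x j) x with hy
  have hyb : y b = -∑ j, c (b.succAbove j) / c b * x j := by
    rw [hy, Fin.insertNth_apply_same]
  have hys : ∀ j, y (b.succAbove j) = x j := by
    intro j
    rw [hy, Fin.insertNth_apply_succAbove]
  have hz : ∑ i, algebraMap C C (c i) * y i = 0 := by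
    rw [Fin.sum_univ_succAbove _ b]
    simp only [hyb, hys, Algebra.algebraMap_self, RingHom.id_apply]
    have h1 : ∑ j, c (b.succAbove j) * x j = c b * ∑ j, c (b.succAbove j) / c b * x j := by
      rw [Finset.mul_sum]
      refine Finset.sum_congr rfl fun j _ => ?_
      field_simp
    rw [h1]
    ring
  have hxy : (fun j => y (b.succAbove j)) = x := funext hys
  have hev : ∀ g : MvPolynomial (Fin (m + 1)) C, eval x (sg b c g) = eval y g := by
    intro g
    have h1 := aeval_sg (Ω := C) hb hz g
    rw [hxy] at h1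
    rw [MvPolynomial.aeval_eq_eval, MvPolynomial.aeval_eq_eval] at h1
    exact h1
  have hy0 : y ≠ 0 := by
    intro h1
    apply hx
    rw [← hxy, h1]
    rfl
  obtain ⟨i, hi⟩ := hs y hy0
  apply hi
  have hb0 : eval y (pderiv b F) = 0 := by rw [← hev, hxD]
  rcases eq_or_ne i b with rfl | hib
  · exact hb0
  · obtain ⟨j, rfl⟩ := Fin.exists_succAbove_eq hib
    have h1 := sct_chain b c j F
    have h2 : eval x (pderiv j (sg b c F)) = 0 := by
      rw [hAB, Derivation.leibniz, map_add, smul_eq_mul, smul_eq_mul, map_mul, map_mul, hxA, hxB,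
        zero_mul, zero_mul, add_zero]
    rw [h1, map_sub, map_mul, hxD, mul_zero, sub_zero, hev] at h2
    exact h2

theorem irreducible_sg {C : Type} [Field C] [IsAlgClosed C] {m : ℕ} (hm : 4 ≤ m) {F : MvPolynomial (Fin (m + 1)) C}
    (hF : F.IsHomogeneous 7) (hs : ∀ x : Fin (m + 1) → C, x ≠ 0 → ∃ i, eval x (pderiv i F) ≠ 0) {b : Fin (m + 1)}
    {c : Fin (m + 1) → C} (hb : c b ≠ 0) : Irreducible (sg b c F) := by
  have hG : (sg b c F).IsHomogeneous 7 := sg_hom b c hF
  have hG0 : sg b c F ≠ 0 := by
    intro h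
    exact sct_key hm hF hs hb 0 0 (by rw [h, mul_zero]) (map_zero _) (map_zero _)
  have hzero : ∀ (A : MvPolynomial (Fin m) C) (a : ℕ), A.IsHomogeneous a → A ≠ 0 → ¬ IsUnit A → eval 0 A = 0 := by
    intro A a hA hA0 hAu
    have ha : a ≠ 0 := by
      rintro rfl
      apply hAu
      have h1 : A.totalDegree = 0 := hA.totalDegree hA0
      have h2 : A = MvPolynomial.C (coeff 0 A) := totalDegree_eq_zero_iff_eq_C.1 h1
      have h3 : coeff 0 A ≠ 0 := by
        intro h4
        apply hA0
        rw [h2, h4, C_0]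
      rw [h2]
      exact (isUnit_iff_ne_zero.2 h3).map MvPolynomial.C
    rw [eval_zero]
    change coeff 0 A = 0
    refine hA.coeff_eq_zero ?_
    simpa using ha.symm
  refine ⟨?_, ?_⟩
  · intro hu
    have h1 : IsUnit (eval 0 (sg b c F)) := hu.map (eval 0)
    have h2 : eval 0 (sg b c F) = 0 := by
      rw [eval_zero]
      change coeff 0 _ = 0
      refine hG.coeff_eq_zero ?_
      simp
    rw [h2] at h1
    exact not_isUnit_zero h1
  · intro A B hAB
    by_contra hcon
    push Not at hcon
    obtain ⟨hA, hB⟩ := hcon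
    have hA0 : A ≠ 0 := by
      rintro rfl
      exact hG0 (by rw [hAB, zero_mul])
    have hB0 : B ≠ 0 := by
      rintro rfl
      exact hG0 (by rw [hAB, mul_zero])
    obtain ⟨a, b', ha, hb', -⟩ := Pool.Agent.H8.SD.hom_of_mul (hAB ▸ hG) hA0 hB0
    exact sct_key hm hF hs hb A B hAB (hzero A a ha hA0 hA) (hzero B b' hb' hB0 hB)

end Pool.Agent.H3.SH
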