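import Pool.Agent.H3.SH.Cst
import Pool.Agent.H3.SH.Rel
import Pool.Agent.H3.SH.Sct

/-!
# SH NoR: the generic point of `X` and the points of a line of `X`

`P, v ∈ L^(m+1)` span a line of `X`, `s ∈ Ω`, `Q = s P + v`, `tan F Q xi = 0`, `hes F Q xi = 0`: contradiction.
`Q ≠ 0`: otherwise `P_j ≠ 0`, `s = - v_j / P_j ∈ L`, against independence.  `F (Q) = 0` (polynomial identity in `s`, `L` infinite).
(i) `s ∈ L`: `Q ∈ L^(m+1)`, `c = grad F (Q) ≠ 0`, the linear form `∑ c_i X_i` vanishes at `xi`, so `F` divides it (`Gen`), degree: contradiction.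
(ii) `s ∉ L` (the argument works for every `s`, so (i) is not needed if you like): `C` from `exists_cst`, `Q ∈ C^(m+1)`, `c_i = ∂_i F (Q) ∈ C`,
`c_b ≠ 0` (`smooth_ext` over `C`).  `∑ c_i xi_i = 0`.  `η = (xi_(b.succAbove j))_j`.  `F' = map F` over `C` is smooth (`smooth_ext`), so
`sg b c F'` is irreducible (`irreducible_sg`), it vanishes at `η` (`aeval_sg`).  `W` from `exists_W`; for `w ∈ W`, `w = D xi`:
`∑ c_i w_i = D (∑ c_i xi_i) = 0`, so the projection `w ↦ (w_(b.succAbove j))_j` is injective on `W` and its image `W'` has dimension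
`≥ m - 1`; `D` is a derivation over `C` (`der_C`), so `∑ ∂_j g (η) w_j = D (g (η)) = 0` if `g (η) = 0` (`der_aeval`).  `exists_rel` (`m = k + 1`):
`ρ` irreducible divides `sg b c F'` and `sg b c (hes F Q X)` (which vanishes at `η` as `hes F Q xi = 0`); so `sg b c F'` (degree 7) divides
`sg b c (hes F Q X)` (degree `≤ 2`: `two_hes_eq`), which is 0, so `hes F Q y = 0` for all `y ∈ Ω^(m+1)` with `tan F Q y = 0`: `Q` is flat over
`Ω`.  `hh2` for `M = Ω`, `R = xi`: `h2 (xi) = 0`, so `F ∣ h2`: contradiction.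
-/

set_option autoImplicit false

open MvPolynomial

namespace Pool.Agent.H3.SH

private theorem nor_char {L Ω : Type} [Field L] [CharZero L] [Field Ω] [Algebra L Ω] : CharZero Ω :=
  charZero_of_injective_algebraMap (algebraMap L Ω).injective

private theorem nor_F_ne {L : Type} [Field L] {m : ℕ} {F : MvPolynomial (Fin (m + 1)) L}
    (hs : Pool.Agent.H8.SD.Smooth L F) : F ≠ 0 := by
  rintro rfl
  obtain ⟨i, hi⟩ := hs (fun _ => 1) (fun h => one_ne_zero (congrFun h 0))
  rw [map_zero, map_zero] at hi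
  exact hi rfl

private theorem nor_xi_ne {L Ω : Type} [Field L] [Field Ω] [Algebra L Ω] {m : ℕ}
    {F : MvPolynomial (Fin (m + 1)) L} (hF : F.IsHomogeneous 7) (hs : Pool.Agent.H8.SD.Smooth L F)
    {xi : Fin (m + 1) → Ω} (hg : Gen F xi) : xi ≠ 0 := by
  rintro rfl
  have h1 : F ∣ X 0 := (hg (X 0)).1 (by rw [aeval_X]; rfl)
  have h2 := totalDegree_le_of_dvd_of_isDomain h1 (X_ne_zero 0)
  rw [hF.totalDegree (nor_F_ne hs), totalDegree_X] at h2
  omega

/-- `F (s P + v) = 0` for the elements `s` of an extension. -/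
private theorem nor_line {L C : Type} [Field L] [IsAlgClosed L] [Field C] [Algebra L C] {m : ℕ}
    {F : MvPolynomial (Fin (m + 1)) L} {P v : Fin (m + 1) → L}
    (hl : ∀ a b : L, aeval (a • P + b • v) F = 0) (s : C) :
    aeval (fun i => s * algebraMap L C (P i) + algebraMap L C (v i)) F = 0 := by
  haveI : Infinite L := inferInstance
  have h1 : ln F P v = 0 := by
    refine Polynomial.funext fun t => ?_
    rw [eval_ln, Polynomial.eval_zero]
    have h2 := hl t 1
    rw [one_smul] at h2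
    exact h2
  rw [← eval_ln, ← map_ln (algebraMap L C) (fun _ => rfl), h1, Polynomial.map_zero,
    Polynomial.eval_zero]

private theorem nor_Q_ne {L C : Type} [Field L] [Field C] [Algebra L C] {m : ℕ}
    {P v : Fin (m + 1) → L} (hv : ∀ a b : L, a • P + b • v = 0 → a = 0 ∧ b = 0) (s : C) :
    (fun i => s * algebraMap L C (P i) + algebraMap L C (v i)) ≠ 0 := by
  intro h
  have hP : P ≠ 0 := by
    rintro rfl
    exact one_ne_zero (hv 1 0 (by simp)).1
  obtain ⟨j, hj⟩ : ∃ j, P j ≠ 0 := Function.ne_iff.1 hP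
  have hj' : algebraMap L C (P j) ≠ 0 := by
    rw [Ne, FaithfulSMul.algebraMap_eq_zero_iff]
    exact hj
  have h1 : s = algebraMap L C (-(v j / P j)) := by
    have h2 : s * algebraMap L C (P j) + algebraMap L C (v j) = 0 := congrFun h j
    rw [map_neg, map_div₀, eq_comm, neg_eq_iff_add_eq_zero, div_add' _ _ _ hj', div_eq_zero_iff]
    left
    rw [← h2]
    ring
  have h3 : (-(v j / P j)) • P + (1 : L) • v = 0 := by
    funext i
    have h4 : s * algebraMap L C (P i) + algebraMap L C (v i) = 0 := congrFun h i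
    rw [h1, ← map_mul, ← map_add, FaithfulSMul.algebraMap_eq_zero_iff] at h4
    show -(v j / P j) * P i + 1 * v i = 0
    rw [one_mul]
    exact h4
  exact one_ne_zero (hv _ _ h3).2

/-- A multiple of small degree of a form is `0`. -/
private theorem nor_deg {C : Type} [Field C] {n : ℕ} {f g : MvPolynomial (Fin n) C}
    (hf : f.IsHomogeneous 7) (hf0 : f ≠ 0) (hg : g.IsHomogeneous 2) (h : f ∣ g) : g = 0 := by
  by_contra hg0
  have h1 := totalDegree_le_of_dvd_of_isDomain h hg0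
  rw [hf.totalDegree hf0, hg.totalDegree hg0] at h1
  omega

private theorem nor_hes_hom {L C : Type} [Field L] [Field C] [CharZero C] [Algebra L C] {m : ℕ}
    {F : MvPolynomial (Fin (m + 1)) L} (hF : F.IsHomogeneous 7) (Q : Fin (m + 1) → C) :
    (hes F (fun i => (MvPolynomial.C (Q i) : MvPolynomial (Fin (m + 1)) C))
      (fun i => X i)).IsHomogeneous 2 := by
  obtain ⟨h, hh⟩ : ∃ h, h = hes F (fun i => (MvPolynomial.C (Q i) : MvPolynomial (Fin (m + 1)) C))
    (fun i => X i) := ⟨_, rfl⟩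
  have h1 : 2 * h = pol F (fun i => (MvPolynomial.C (Q i) : MvPolynomial (Fin (m + 1)) C))
      (fun i => X i) (fun i => X i) := by
    rw [hh]
    exact two_hes_eq hF _ _
  have h2 : (2 * h).IsHomogeneous 2 := by
    rw [h1]
    unfold pol
    refine IsHomogeneous.sum _ _ _ fun i _ => IsHomogeneous.sum _ _ _ fun j _ => ?_
    have h3 : aeval (fun i => (MvPolynomial.C (Q i) : MvPolynomial (Fin (m + 1)) C))
        (pderiv j (pderiv i F)) = MvPolynomial.C (aeval Q (pderiv j (pderiv i F))) :=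
      aeval_algebraMap_apply (MvPolynomial (Fin (m + 1)) C) Q _
    rw [h3]
    exact ((isHomogeneous_C _ _).mul (isHomogeneous_X _ _)).mul (isHomogeneous_X _ _)
  have h4 : h = MvPolynomial.C (2⁻¹ : C) * (2 * h) := by
    rw [← mul_assoc]
    have h5 : (MvPolynomial.C (2⁻¹ : C) * 2 : MvPolynomial (Fin (m + 1)) C) = 1 := by
      have h6 : (2 : MvPolynomial (Fin (m + 1)) C) = MvPolynomial.C 2 := (map_ofNat _ 2).symm
      rw [h6, ← map_mul, inv_mul_cancel₀ two_ne_zero, map_one]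
    rw [h5, one_mul]
  rw [← hh, h4]
  have h7 := (isHomogeneous_C (Fin (m + 1)) (2⁻¹ : C)).mul h2
  rw [zero_add] at h7
  exact h7

theorem no_root {L : Type} [Field L] [IsAlgClosed L] [CharZero L] {Ω : Type} [Field Ω] [IsAlgClosed Ω] [Algebra L Ω] {m : ℕ}
    (hm : 4 ≤ m) {F : MvPolynomial (Fin (m + 1)) L} (hF : F.IsHomogeneous 7) (hs : Pool.Agent.H8.SD.Smooth L F)
    {h2 : MvPolynomial (Fin (m + 1)) L} (hd2 : ¬ F ∣ h2)
    (hh2 : ∀ (M : Type) [Field M] [Algebra L M] (Q R : Fin (m + 1) → M), Flat F Q → tan F Q R = 0 → aeval R h2 = 0)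
    {xi : Fin (m + 1) → Ω} (hg : Gen F xi) {P v : Fin (m + 1) → L} (hv : ∀ a b : L, a • P + b • v = 0 → a = 0 ∧ b = 0)
    (hl : ∀ a b : L, aeval (a • P + b • v) F = 0) (s : Ω)
    (h1 : tan F (fun i => s * algebraMap L Ω (P i) + algebraMap L Ω (v i)) xi = 0)
    (h3 : hes F (fun i => s * algebraMap L Ω (P i) + algebraMap L Ω (v i)) xi = 0) : False := by
  haveI : CharZero Ω := nor_char (L := L)
  obtain ⟨C, _, _, _, _, hCalg, ⟨s', hs'⟩, hC⟩ := exists_cst (L := L) s
  haveI := hCalg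
  haveI : CharZero C := nor_char (L := L)
  obtain ⟨Q', hQ'⟩ : ∃ Q' : Fin (m + 1) → C, Q' = fun i => s' * algebraMap L C (P i) + algebraMap L C (v i) := ⟨_, rfl⟩
  obtain ⟨Q, hQ⟩ : ∃ Q : Fin (m + 1) → Ω, Q = fun i => s * algebraMap L Ω (P i) + algebraMap L Ω (v i) := ⟨_, rfl⟩
  rw [← hQ] at h1 h3
  have hQQ : (fun i => algebraMap C Ω (Q' i)) = Q := by
    funext i
    rw [hQ', hQ, map_add, map_mul, hs', ← IsScalarTower.algebraMap_apply, ← IsScalarTower.algebraMap_apply]
  have hQ'0 : Q' ≠ 0 := by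
    rw [hQ']
    exact nor_Q_ne hv s'
  have hQ0 : Q ≠ 0 := by
    rw [hQ]
    exact nor_Q_ne hv s
  have hFQ : aeval Q F = 0 := by
    rw [hQ]
    exact nor_line hl s
  have hev : ∀ g : MvPolynomial (Fin (m + 1)) L, aeval Q g = algebraMap C Ω (aeval Q' g) := by
    intro g
    rw [← hQQ]
    exact aeval_algebraMap_apply Ω Q' g
  obtain ⟨c, hc⟩ : ∃ c : Fin (m + 1) → C, c = fun i => aeval Q' (pderiv i F) := ⟨_, rfl⟩
  have htan : ∀ y : Fin (m + 1) → Ω, tan F Q y = ∑ i, algebraMap C Ω (c i) * y i := by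
    intro y
    rw [tan_eq hF]
    refine Finset.sum_congr rfl fun i _ => ?_
    rw [hev, hc]
  obtain ⟨b, hb⟩ : ∃ b, c b ≠ 0 := by
    obtain ⟨b, hb⟩ := smooth_ext hs Q' hQ'0
    exact ⟨b, by rw [hc]; exact hb⟩
  obtain ⟨k, rfl⟩ : ∃ k, m = k + 1 := ⟨m - 1, by omega⟩
  obtain ⟨W, hW, hWD⟩ := exists_W hs hg (nor_xi_ne hF hs hg) s
  obtain ⟨η, hη⟩ : ∃ η : Fin (k + 1) → Ω, η = fun j => xi (b.succAbove j) := ⟨_, rfl⟩
  -- derivations over `C`
  have hWD' : ∀ w ∈ W, ∃ D : Derivation C Ω Ω, ∀ i, D (xi i) = w i := by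
    intro w hw
    obtain ⟨D, hD, hDw⟩ := hWD w hw
    obtain ⟨D', hD'⟩ := der_C D (hC D hD)
    exact ⟨D', fun i => by rw [hD', hDw]⟩
  have hcw : ∀ w ∈ W, ∑ i, algebraMap C Ω (c i) * w i = 0 := by
    intro w hw
    obtain ⟨D, hD⟩ := hWD' w hw
    have h4 : D (∑ i, algebraMap C Ω (c i) * xi i) = 0 := by
      rw [← htan, h1, map_zero]
    rw [map_sum] at h4
    rw [← h4]
    refine Finset.sum_congr rfl fun i _ => ?_
    rw [← Algebra.smul_def, ← Algebra.smul_def, D.map_smul, hD]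
  obtain ⟨π, hπ⟩ : ∃ π : (Fin (k + 1 + 1) → Ω) →ₗ[Ω] (Fin (k + 1) → Ω), π = LinearMap.funLeft Ω Ω b.succAbove := ⟨_, rfl⟩
  have hπa : ∀ w j, π w j = w (b.succAbove j) := by
    intro w j
    rw [hπ]
    rfl
  have hinj : Function.Injective (π.domRestrict W) := by
    rw [injective_iff_map_eq_zero]
    rintro ⟨w, hw⟩ hw0
    have h4 : ∀ j, w (b.succAbove j) = 0 := by
      intro j
      rw [← hπa w j]
      exact congrFun hw0 j
    have h5 := hcw w hw
    rw [Fin.sum_univ_succAbove _ b] at h5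
    have h6 : ∑ j, algebraMap C Ω (c (b.succAbove j)) * w (b.succAbove j) = 0 :=
      Finset.sum_eq_zero fun j _ => by rw [h4, mul_zero]
    rw [h6, add_zero] at h5
    have h7 : w b = 0 := by
      rcases mul_eq_zero.1 h5 with h8 | h8
      · rw [FaithfulSMul.algebraMap_eq_zero_iff] at h8
        exact absurd h8 hb
      · exact h8
    rw [Submodule.mk_eq_zero]
    funext i
    rcases Fin.eq_self_or_eq_succAbove b i with h8 | ⟨j, h8⟩
    · rw [h8]
      exact h7
    · rw [h8]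
      exact h4 j
  have hfin : k ≤ Module.finrank Ω (W.map π) := by
    rw [← LinearMap.range_domRestrict, LinearMap.finrank_range_of_inj hinj]
    omega
  obtain ⟨F', hF'⟩ : ∃ F' : MvPolynomial (Fin (k + 1 + 1)) C, F' = map (algebraMap L C) F := ⟨_, rfl⟩
  have hirr : Irreducible (sg b c F') := by
    refine irreducible_sg hm ?_ ?_ hb
    · rw [hF']
      exact hF.map _
    · intro x hx
      obtain ⟨i, hi⟩ := smooth_ext hs x hx
      refine ⟨i, ?_⟩
      rw [hF', pderiv_map, eval_map, ← aeval_def]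
      exact hi
  have hsg0 : aeval η (sg b c F') = 0 := by
    rw [hη, aeval_sg hb (by rw [← htan]; exact h1), hF', aeval_map_algebraMap]
    exact (hg F).2 dvd_rfl
  obtain ⟨ρ, hρ, hρd⟩ := exists_rel (W.map π) hfin (η := η) (fun w' hw' g hg0 => by
    obtain ⟨w, hw, rfl⟩ := Submodule.mem_map.1 hw'
    obtain ⟨D, hD⟩ := hWD' w hw
    have h4 := der_aeval D η g
    rw [hg0, map_zero] at h4
    rw [h4]
    refine Finset.sum_congr rfl fun i _ => ?_
    rw [hπa, hη, hD]) hirr.ne_zero hsg0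
  have hdvd : ∀ g, aeval η g = 0 → sg b c F' ∣ g := by
    intro g hg0
    have h4 : Associated ρ (sg b c F') := hρ.associated_of_dvd hirr (hρd _ hsg0)
    exact h4.symm.dvd.trans (hρd g hg0)
  obtain ⟨hh, hhh⟩ : ∃ hh : MvPolynomial (Fin (k + 1 + 1)) C, hh = hes F (fun i => MvPolynomial.C (Q' i)) (fun i => X i) :=
    ⟨_, rfl⟩
  have hhev : ∀ y : Fin (k + 1 + 1) → Ω, aeval y hh = hes F Q y := by
    intro y
    have h4 := map_hes (K := L) ((aeval y : MvPolynomial (Fin (k + 1 + 1)) C →ₐ[C] Ω) : MvPolynomial (Fin (k + 1 + 1)) C →+* Ω)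
      (fun t => by
        rw [IsScalarTower.algebraMap_apply L C (MvPolynomial (Fin (k + 1 + 1)) C), RingHom.coe_coe, AlgHom.commutes,
          ← IsScalarTower.algebraMap_apply]) F
      (fun i => MvPolynomial.C (Q' i)) (fun i => X i)
    rw [hhh]
    refine h4.trans ?_
    have h5 : (fun i => ((aeval y : MvPolynomial (Fin (k + 1 + 1)) C →ₐ[C] Ω) : MvPolynomial (Fin (k + 1 + 1)) C →+* Ω)
        (MvPolynomial.C (Q' i))) = Q := by
      rw [← hQQ]
      funext i
      rw [RingHom.coe_coe, aeval_C]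
    have h6 : (fun i => ((aeval y : MvPolynomial (Fin (k + 1 + 1)) C →ₐ[C] Ω) : MvPolynomial (Fin (k + 1 + 1)) C →+* Ω)
        (X i)) = y := by
      funext i
      rw [RingHom.coe_coe, aeval_X]
    rw [h5, h6]
  have hsgh : sg b c hh = 0 := by
    refine nor_deg (sg_hom b c ?_) hirr.ne_zero (sg_hom b c ?_) (hdvd _ ?_)
    · rw [hF']
      exact hF.map _
    · rw [hhh]
      exact nor_hes_hom hF Q'
    · rw [hη, aeval_sg hb (by rw [← htan]; exact h1), hhev]
      exact h3
  have hflat : Flat F Q := by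
    refine ⟨hQ0, hFQ, fun y hy => ?_⟩
    rw [htan] at hy
    rw [← hhev, ← aeval_sg hb hy, hsgh, map_zero]
  exact hd2 ((hg h2).1 (hh2 Ω Q xi hflat h1))

end Pool.Agent.H3.SH
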