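import Pool.Agent.H3.SH.PolB
import Pool.Agent.H8.SB.Open

/-!
# SH OpL: `no line of X through P in span (P, u_0, .., u_3)` is an open condition (note 5778 (1))

`U = span (P, b_0, .., b_3)` (a basis of `U` with first vector `P`), `u⁰ = (b_0, .., b_3, 0)`.  `Pool.Agent.H8.SB.exists_open` with `K := L`,
`m = 4`, `n = 5 * n` (parameters `u`, through `finProdFinEquiv` or any equivalence `Fin 5 × Fin n ≃ Fin (5 * n)` and `rename`), `ι = Fin 7`, `f j` the
homogeneous component of degree `j + 1` (in `X_0, .., X_3`) of `τ = F (P + ∑_(k<4) X_k u_k)`: the value of `τ` at `t s` is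
`F (P + t v) = ∑_j t^j f_j (s)`, `v = ∑ s_k u_k` (compare the docstring of `Pool.Agent.H8.SB.NoLine`).  At `u⁰`: `s ≠ 0`, `W = span (P, v)` has
dimension 2, `W ≤ U`, so `F (a P + b v) ≠ 0` for some `a, b`, `b ≠ 0`; so `F (P + t v)` is not identically 0 (if `a = 0` look at the
coefficient of `t ^ 7`, `coeff_ln_seven`).
-/

set_option autoImplicit false

open MvPolynomial

namespace Pool.Agent.H3.SH

private theorem opl_smul_hom {L : Type} [Field L] {m j : ℕ} {p : MvPolynomial (Fin m) L} (hp : p.IsHomogeneous j)
    (v : Fin m → L) (t : L) : eval (fun i => t * v i) p = t ^ j * eval v p := by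
  rw [eval_eq', eval_eq', Finset.mul_sum]
  refine Finset.sum_congr rfl fun d hd => ?_
  have hd' : ∑ i, d i = j := by
    rw [← hp (mem_support_iff.mp hd)]
    simp [Finsupp.weight_apply, Finsupp.sum_fintype]
  simp only [mul_pow]
  rw [Finset.prod_mul_distrib, Finset.prod_pow_eq_pow_sum, hd']
  ring

/-- `F (P + ∑ X_k u_k)` -/
private noncomputable def opl_tau {L : Type} [Field L] {n : ℕ} (F : MvPolynomial (Fin n) L) (P : Fin n → L) :
    MvPolynomial (Fin 4) (MvPolynomial (Fin (5 * n)) L) :=
  aeval (fun i => C (C (P i)) + ∑ k : Fin 4, X k * C (X (finProdFinEquiv (k.castSucc, i)))) F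

private theorem opl_map_tau {L : Type} [Field L] {n : ℕ} (F : MvPolynomial (Fin n) L) (P : Fin n → L) (Q : Fin (5 * n) → L) (w : Fin 4 → L) :
    eval w (map (eval Q) (opl_tau F P)) = eval (fun i => P i + ∑ k : Fin 4, w k * Q (finProdFinEquiv (k.castSucc, i))) F := by
  unfold opl_tau
  induction F using MvPolynomial.induction_on with
  | C a =>
    rw [aeval_C, IsScalarTower.algebraMap_apply L (MvPolynomial (Fin (5 * n)) L) (MvPolynomial (Fin 4) (MvPolynomial (Fin (5 * n)) L)),
      algebraMap_eq, algebraMap_eq, map_C, eval_C, eval_C, eval_C]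
  | add p q hp hq => rw [map_add, map_add, map_add, map_add, hp, hq]
  | mul_X p i hp =>
    rw [map_mul, map_mul, map_mul, map_mul, hp, aeval_X, eval_X]
    congr 1
    simp only [map_add, map_sum, map_mul, map_C, eval_C, map_X, eval_X]

private theorem opl_line {L : Type} [Field L] {n : ℕ} (F : MvPolynomial (Fin n) L) (P : Fin n → L) (Q : Fin (5 * n) → L) (w : Fin 4 → L)
    (t : L) : eval (fun i => P i + t * ∑ k : Fin 4, w k * Q (finProdFinEquiv (k.castSucc, i))) F =
      ∑ j ∈ Finset.range ((opl_tau F P).totalDegree + 1), t ^ j * eval w (map (eval Q) (homogeneousComponent j (opl_tau F P))) := by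
  have h1 : (fun i => P i + t * ∑ k : Fin 4, w k * Q (finProdFinEquiv (k.castSucc, i))) =
      fun i => P i + ∑ k : Fin 4, (t * w k) * Q (finProdFinEquiv (k.castSucc, i)) := by
    funext i
    rw [Finset.mul_sum]
    simp only [mul_assoc]
  rw [h1, ← opl_map_tau F P Q (fun k => t * w k)]
  conv_lhs => rw [← sum_homogeneousComponent (opl_tau F P)]
  rw [map_sum, map_sum]
  refine Finset.sum_congr rfl fun j _ => ?_
  exact opl_smul_hom ((homogeneousComponent_isHomogeneous j (opl_tau F P)).map (eval Q)) w t

private theorem opl_eval_ln {L : Type} [Field L] {n : ℕ} (F : MvPolynomial (Fin n) L) (P v : Fin n → L) (t : L) :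
    (ln F v P).eval t = eval (fun i => P i + t * v i) F := by
  rw [ln]
  induction F using MvPolynomial.induction_on with
  | C a => rw [aeval_C, eval_C, Polynomial.algebraMap_apply, Polynomial.eval_C, Algebra.algebraMap_self, RingHom.id_apply]
  | add p q hp hq => rw [map_add, Polynomial.eval_add, hp, hq, map_add]
  | mul_X p i hp =>
    rw [map_mul, Polynomial.eval_mul, hp, aeval_X, map_mul, eval_X, Polynomial.eval_add, Polynomial.eval_mul, Polynomial.eval_C,
      Polynomial.eval_X, Polynomial.eval_C]
    ring

/-- vectors which span a complement of `P` in `U` -/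
private theorem opl_basis {L : Type} [Field L] {n : ℕ} {P : Fin n → L} (hP0 : P ≠ 0) (U : Submodule L (Fin n → L))
    (hU : Module.finrank L U = 5) (hPU : P ∈ U) :
    ∃ b : Fin 4 → Fin n → L, (∀ k, b k ∈ U) ∧ ∀ w : Fin 4 → L, w ≠ 0 → ∀ a c : L, a • P + c • ∑ k, w k • b k = 0 → a = 0 ∧ c = 0 := by
  set P' : U := ⟨P, hPU⟩ with hP'
  have hP'0 : P' ≠ 0 := fun h => hP0 (congrArg Subtype.val h)
  obtain ⟨C, hC⟩ := Submodule.exists_isCompl (Submodule.span L {P'})
  have h1 : Module.finrank L C = 4 := by
    have h2 := Submodule.finrank_add_eq_of_isCompl hC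
    rw [finrank_span_singleton hP'0, hU] at h2
    omega
  have hfree : Module.Free L C := Module.Free.of_divisionRing L C
  let bb : Module.Basis (Fin 4) L C := Module.finBasisOfFinrankEq L C h1
  refine ⟨fun k => ((bb k : U) : Fin n → L), fun k => (bb k : U).2, fun w hw a c h => ?_⟩
  set x : C := ∑ k, w k • bb k with hx
  have hx0 : x ≠ 0 := by
    intro h0
    apply hw
    have h3 : bb.equivFun.symm w = x := by rw [bb.equivFun_symm_apply]
    rw [h0] at h3
    exact (LinearEquiv.map_eq_zero_iff bb.equivFun.symm).1 h3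
  have h4 : a • P' + c • (x : U) = 0 := by
    apply Subtype.ext
    have h10 : ((a • P' + c • (x : U) : U) : Fin n → L) = a • P + c • ∑ k, w k • ((bb k : U) : Fin n → L) := by
      simp only [hx, hP', Submodule.coe_add, Submodule.coe_smul, Submodule.coe_sum]
    exact h10.trans h
  have h5 : a • P' ∈ Submodule.span L {P'} := Submodule.smul_mem _ _ (Submodule.mem_span_singleton_self P')
  have h6 : a • P' ∈ C := by
    have h7 : a • P' = -(c • (x : U)) := eq_neg_of_add_eq_zero_left h4
    rw [h7]
    exact C.neg_mem (C.smul_mem _ x.2)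
  have h8 : a • P' = 0 := Submodule.disjoint_def.1 hC.disjoint _ h5 h6
  have ha : a = 0 := (smul_eq_zero.1 h8).resolve_right hP'0
  refine ⟨ha, ?_⟩
  rw [h8, zero_add] at h4
  have h9 : c • x = 0 := Subtype.ext h4
  exact (smul_eq_zero.1 h9).resolve_right hx0

/-- if `F (P + t v)` is identically zero, then `F` vanishes on the span of `P` and `v` -/
private theorem opl_span {L : Type} [Field L] {n : ℕ} {F : MvPolynomial (Fin n) L} (hF : F.IsHomogeneous 7) {P v : Fin n → L}
    (h : ln F v P = 0) (a c : L) : eval (a • P + c • v) F = 0 := by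
  by_cases ha : a = 0
  · have h1 : (fun i => c * v i) = a • P + c • v := by
      funext i
      rw [ha]
      simp
    have h2 : aeval v F = 0 := by rw [← coeff_ln_seven hF v P, h, Polynomial.coeff_zero]
    have h3 : eval v F = 0 := h2
    rw [← h1, opl_smul_hom hF, h3, mul_zero]
  · have h1 : (fun i => a * (P i + (c / a) * v i)) = a • P + c • v := by
      funext i
      simp only [Pi.add_apply, Pi.smul_apply, smul_eq_mul]
      field_simp
    have h2 := opl_eval_ln F P v (c / a)
    rw [h, Polynomial.eval_zero] at h2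
    rw [← h1, opl_smul_hom hF, ← h2, mul_zero]

theorem exists_d2 {L : Type} [Field L] [IsAlgClosed L] {n : ℕ} {F : MvPolynomial (Fin n) L} (hF : F.IsHomogeneous 7) {P : Fin n → L}
    (hP0 : P ≠ 0) (hP : eval P F = 0)
    (hU : ∃ U : Submodule L (Fin n → L), Module.finrank L U = 5 ∧ P ∈ U ∧
      ∀ W : Submodule L (Fin n → L), Module.finrank L W = 2 → P ∈ W → W ≤ U → ∃ x ∈ W, eval x F ≠ 0) :
    ∃ Δ : MvPolynomial (Fin 5 × Fin n) L, Δ ≠ 0 ∧ ∀ u : Fin 5 × Fin n → L, eval u Δ ≠ 0 →
      ∀ s : Fin 5 → L, s 4 = 0 → s ≠ 0 → ln F (fun i => ∑ k, s k * u (k, i)) P ≠ 0 := by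
  classical
  obtain ⟨U, hU5, hPU, hUW⟩ := hU
  obtain ⟨b, hbU, hb⟩ := opl_basis hP0 U hU5 hPU
  have hinf : Infinite L := IsAlgClosed.instInfinite
  let e : Fin 5 × Fin n ≃ Fin (5 * n) := finProdFinEquiv
  -- the parameters `(b_0, .., b_3, 0)`
  let u0 : Fin 5 × Fin n → L := fun z => if h : (z.1 : ℕ) < 4 then b ⟨z.1, h⟩ z.2 else 0
  have hu0 : ∀ (k : Fin 4) (i : Fin n), (fun z => u0 (e.symm z)) (finProdFinEquiv (k.castSucc, i)) = b k i := by
    intro k i
    have h1 : e.symm (finProdFinEquiv (k.castSucc, i)) = (k.castSucc, i) := e.symm_apply_apply _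
    simp only [h1, u0]
    rw [dif_pos (show ((k.castSucc : Fin 5) : ℕ) < 4 from k.2)]
    rfl
  obtain ⟨r, hr, hrQ⟩ := Pool.Agent.H8.SB.exists_open (K := L) (L := L)
    (fun j : Fin (opl_tau F P).totalDegree => homogeneousComponent ((j : ℕ) + 1) (opl_tau F P))
    (fun j => (j : ℕ) + 1) (fun j => homogeneousComponent_isHomogeneous _ _) (fun z => u0 (e.symm z)) (by
      intro w hw
      by_contra hcon
      push Not at hcon
      set v : Fin n → L := fun i => ∑ k, w k * b k i with hv
      have hv' : v = ∑ k, w k • b k := by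
        funext i
        rw [Finset.sum_apply]
        rfl
      have h0 : ∀ t : L, eval (fun i => P i + t * v i) F = 0 := by
        intro t
        have h1 : (fun i => P i + t * v i) =
            fun i => P i + t * ∑ k : Fin 4, w k * (fun z => u0 (e.symm z)) (finProdFinEquiv (k.castSucc, i)) := by
          funext i
          rw [hv]
          congr 2
          exact Finset.sum_congr rfl fun k _ => by rw [hu0]
        have h2 : eval w (map (eval fun z => u0 (e.symm z)) (homogeneousComponent 0 (opl_tau F P))) = 0 := by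
          have h3 := opl_line F P (fun z => u0 (e.symm z)) w 0
          rw [Finset.sum_range_succ'] at h3
          have h4 : ∑ j ∈ Finset.range (opl_tau F P).totalDegree,
              (0 : L) ^ (j + 1) * eval w (map (eval fun z => u0 (e.symm z)) (homogeneousComponent (j + 1) (opl_tau F P))) = 0 :=
            Finset.sum_eq_zero fun j _ => by rw [pow_succ, mul_zero, zero_mul]
          rw [h4, zero_add, pow_zero, one_mul] at h3
          rw [← h3]
          have h5 : (fun i => P i + 0 * ∑ k : Fin 4, w k * (fun z => u0 (e.symm z)) (finProdFinEquiv (k.castSucc, i))) = P := by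
            funext i
            ring
          rw [h5, hP]
        rw [h1, opl_line F P (fun z => u0 (e.symm z)) w t, Finset.sum_range_succ', h2, mul_zero, add_zero]
        refine Finset.sum_eq_zero fun j hj => ?_
        have h6 : eval w (map (eval fun z => u0 (e.symm z)) (homogeneousComponent (j + 1) (opl_tau F P))) = 0 :=
          hcon ⟨j, Finset.mem_range.mp hj⟩
        rw [h6, mul_zero]
      have hln : ln F v P = 0 := by
        refine Polynomial.funext fun t => ?_
        rw [opl_eval_ln, h0, Polynomial.eval_zero]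
      have hli : LinearIndependent L ![P, v] := by
        rw [LinearIndependent.pair_iff]
        intro a c hac
        rw [hv'] at hac
        exact hb w hw a c hac
      obtain ⟨x, hx, hx0⟩ := hUW (Submodule.span L (Set.range ![P, v]))
        (by rw [finrank_span_eq_card hli, Fintype.card_fin])
        (Submodule.subset_span ⟨0, rfl⟩)
        (by
          rw [Submodule.span_le]
          rintro _ ⟨j, rfl⟩
          fin_cases j
          · exact hPU
          · change v ∈ U
            rw [hv']
            exact Submodule.sum_mem _ fun k _ => U.smul_mem _ (hbU k))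
      have hx' : ∃ a c : L, a • P + c • v = x := by
        rw [Matrix.range_cons, Matrix.range_cons, Matrix.range_empty, Set.union_empty, Set.singleton_union,
          Submodule.mem_span_pair] at hx
        exact hx
      obtain ⟨a, c, rfl⟩ := hx'
      exact hx0 (opl_span hF hln a c))
  refine ⟨rename e.symm r, ?_, fun u hu s hs4 hs0 hcon => ?_⟩
  · intro h0
    have h1 : r = 0 := by
      refine rename_injective e.symm e.symm.injective ?_
      rw [h0, map_zero]
    rw [h1, map_zero] at hr
    exact hr rfl
  · rw [eval_rename] at hu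
    have hw : (fun k : Fin 4 => s k.castSucc) ≠ 0 := by
      intro h0
      apply hs0
      funext k
      refine Fin.lastCases ?_ (fun k => ?_) k
      · exact hs4
      · exact congrFun h0 k
    obtain ⟨j, hj⟩ := hrQ (u ∘ e.symm) hu (fun k => s k.castSucc) hw
    have hv : (fun i => ∑ k, s k * u (k, i)) =
        fun i => ∑ k : Fin 4, s k.castSucc * (u ∘ e.symm) (finProdFinEquiv (k.castSucc, i)) := by
      funext i
      rw [Fin.sum_univ_castSucc]
      have h1 : s (Fin.last 4) = 0 := hs4
      rw [h1, zero_mul, add_zero]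
      refine Finset.sum_congr rfl fun k _ => ?_
      have h2 : e.symm (finProdFinEquiv (k.castSucc, i)) = (k.castSucc, i) := e.symm_apply_apply _
      rw [Function.comp_apply, h2]
    rw [hv] at hcon
    have hp : (∑ i ∈ Finset.range ((opl_tau F P).totalDegree + 1),
        Polynomial.C (eval (fun k => s k.castSucc) (map (eval (u ∘ e.symm)) (homogeneousComponent i (opl_tau F P)))) *
          Polynomial.X ^ i : Polynomial L) = 0 := by
      refine Polynomial.funext fun t => ?_
      have h3 := opl_eval_ln F P (fun i => ∑ k : Fin 4, s k.castSucc * (u ∘ e.symm) (finProdFinEquiv (k.castSucc, i))) t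
      rw [hcon, Polynomial.eval_zero, opl_line] at h3
      rw [Polynomial.eval_finsetSum, Polynomial.eval_zero, h3]
      refine Finset.sum_congr rfl fun i _ => ?_
      rw [Polynomial.eval_mul, Polynomial.eval_C, Polynomial.eval_pow, Polynomial.eval_X, mul_comm]
    have hc := congrArg (fun p => Polynomial.coeff p ((j : ℕ) + 1)) hp
    simp only [Polynomial.finsetSum_coeff, Polynomial.coeff_C_mul, Polynomial.coeff_X_pow, Polynomial.coeff_zero, mul_ite, mul_one,
      mul_zero] at hc
    rw [Finset.sum_ite_eq, if_pos (Finset.mem_range.mpr (by have := j.2; omega))] at hc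
    exact hj hc

end Pool.Agent.H3.SH
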