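import Pool.Agent.H3.SH.Defs

/-!
# SH PolA: elementary facts on `ln`, `tan`, `hes`, part A (no derivatives)
-/

set_option autoImplicit false

open MvPolynomial

namespace Pool.Agent.H3.SH

variable {K : Type} [Field K] {ι : Type} {A : Type} [CommRing A] [Algebra K A] {B : Type} [CommRing B] [Algebra K B]

private theorem hom_aeval (f : A →+* B) (hf : ∀ c : K, f (algebraMap K A c) = algebraMap K B c) (F : MvPolynomial ι K) (x : ι → A) :
    f (aeval x F) = aeval (fun i => f (x i)) F := by
  have h : f.comp (algebraMap K A) = algebraMap K B := RingHom.ext hf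
  rw [MvPolynomial.map_aeval, h]
  rfl

/-- the linear factors -/
private theorem lin_deg (a b : A) : (Polynomial.C a * Polynomial.X + Polynomial.C b).natDegree ≤ 1 := by
  refine Polynomial.natDegree_add_le_of_degree_le ?_ ?_
  · exact (Polynomial.natDegree_C_mul_le _ _).trans Polynomial.natDegree_X_le
  · rw [Polynomial.natDegree_C]
    exact Nat.zero_le _

private theorem lin_refl (a b : A) : (Polynomial.C a * Polynomial.X + Polynomial.C b).reflect 1 = Polynomial.C b * Polynomial.X + Polynomial.C a := by
  rw [Polynomial.reflect_add, Polynomial.reflect_C_mul, Polynomial.reflect_one_X, Polynomial.reflect_C]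
  ring

private theorem pow_deg (a b : A) (n : ℕ) : ((Polynomial.C a * Polynomial.X + Polynomial.C b) ^ n).natDegree ≤ n :=
  Polynomial.natDegree_pow_le.trans ((Nat.mul_le_mul_left n (lin_deg a b)).trans_eq (mul_one n))

private theorem pow_refl (a b : A) (n : ℕ) : ((Polynomial.C a * Polynomial.X + Polynomial.C b) ^ n).reflect n =
    (Polynomial.C b * Polynomial.X + Polynomial.C a) ^ n := by
  induction n with
  | zero => rw [pow_zero, pow_zero, ← Polynomial.C_1, Polynomial.reflect_C]; simp
  | succ n ih => rw [pow_succ, Polynomial.reflect_mul _ _ (pow_deg a b n) (lin_deg a b), ih, lin_refl, pow_succ]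

private theorem prod_deg (x y : ι → A) (d : ι → ℕ) (s : Finset ι) :
    (∏ i ∈ s, (Polynomial.C (x i) * Polynomial.X + Polynomial.C (y i)) ^ d i).natDegree ≤ ∑ i ∈ s, d i :=
  (Polynomial.natDegree_prod_le _ _).trans (Finset.sum_le_sum fun _ _ => pow_deg _ _ _)

private theorem prod_refl (x y : ι → A) (d : ι → ℕ) (s : Finset ι) :
    (∏ i ∈ s, (Polynomial.C (x i) * Polynomial.X + Polynomial.C (y i)) ^ d i).reflect (∑ i ∈ s, d i) =
      ∏ i ∈ s, (Polynomial.C (y i) * Polynomial.X + Polynomial.C (x i)) ^ d i := by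
  classical
  induction s using Finset.induction_on with
  | empty => rw [Finset.prod_empty, Finset.prod_empty, Finset.sum_empty, ← Polynomial.C_1, Polynomial.reflect_C]; simp
  | insert i s hi ih =>
    rw [Finset.prod_insert hi, Finset.prod_insert hi, Finset.sum_insert hi, Polynomial.reflect_mul _ _ (pow_deg _ _ _) (prod_deg _ _ _ _),
      ih, pow_refl]

private theorem ln_sum (F : MvPolynomial ι K) (x y : ι → A) : ln F x y = ∑ d ∈ F.support,
    Polynomial.C (algebraMap K A (coeff d F)) * ∏ i ∈ d.support, (Polynomial.C (x i) * Polynomial.X + Polynomial.C (y i)) ^ d i := by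
  rw [ln, aeval_def, eval₂_eq]
  rfl

private theorem seven {F : MvPolynomial ι K} (hF : F.IsHomogeneous 7) {d : ι →₀ ℕ} (hd : d ∈ F.support) : ∑ i ∈ d.support, d i = 7 := by
  have h1 := hF (mem_support_iff.1 hd)
  rw [← h1, Finsupp.weight_apply, Finsupp.sum]
  simp

private theorem refl_ln {F : MvPolynomial ι K} (hF : F.IsHomogeneous 7) (x y : ι → A) {k : ℕ} (hk : k ≤ 7) :
    (ln F x y).coeff k = (ln F y x).coeff (7 - k) := by
  rw [ln_sum, ln_sum, Polynomial.finsetSum_coeff, Polynomial.finsetSum_coeff]
  refine Finset.sum_congr rfl fun d hd => ?_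
  have h1 := prod_refl x y d d.support
  rw [seven hF hd] at h1
  rw [Polynomial.coeff_C_mul, Polynomial.coeff_C_mul, ← h1, Polynomial.coeff_reflect, Polynomial.revAt_le (Nat.sub_le _ _)]
  congr 2
  omega

private theorem comp_coeff (p : Polynomial A) (c : A) {n : ℕ} (hp : p.natDegree ≤ n) : (p.comp (Polynomial.X + Polynomial.C c)).coeff n = p.coeff n := by
  have h : p.comp (Polynomial.X + Polynomial.C c) = Polynomial.taylor c p := rfl
  rcases Nat.lt_or_eq_of_le hp with h1 | h1
  · rw [Polynomial.coeff_eq_zero_of_natDegree_lt h1, h, Polynomial.coeff_eq_zero_of_natDegree_lt (by rw [Polynomial.natDegree_taylor]; exact h1)]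
  · subst h1
    rw [h, Polynomial.coeff_taylor_natDegree, Polynomial.leadingCoeff]

theorem eval_ln (F : MvPolynomial ι K) (x y : ι → A) (s : A) : (ln F x y).eval s = aeval (fun i => s * x i + y i) F := by
  have h := hom_aeval (Polynomial.evalRingHom s) (fun c : K => by
    rw [Polynomial.algebraMap_apply]; simp) F (fun i => Polynomial.C (x i) * Polynomial.X + Polynomial.C (y i))
  rw [ln]
  rw [Polynomial.coe_evalRingHom] at h
  rw [h]
  congr 2
  ext1 i
  simp only [Polynomial.eval_add, Polynomial.eval_mul, Polynomial.eval_C, Polynomial.eval_X]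
  ring

theorem map_ln (f : A →+* B) (hf : ∀ c : K, f (algebraMap K A c) = algebraMap K B c) (F : MvPolynomial ι K) (x y : ι → A) :
    (ln F x y).map f = ln F (fun i => f (x i)) (fun i => f (y i)) := by
  have h := hom_aeval (Polynomial.mapRingHom f) (fun c : K => by
    rw [Polynomial.algebraMap_apply, Polynomial.algebraMap_apply, Polynomial.coe_mapRingHom, Polynomial.map_C, hf]) F
    (fun i => Polynomial.C (x i) * Polynomial.X + Polynomial.C (y i))
  rw [Polynomial.coe_mapRingHom] at h
  rw [ln, h, ln]
  congr 2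
  ext i
  simp

theorem map_tan (f : A →+* B) (hf : ∀ c : K, f (algebraMap K A c) = algebraMap K B c) (F : MvPolynomial ι K) (x y : ι → A) :
    f (tan F x y) = tan F (fun i => f (x i)) (fun i => f (y i)) := by
  rw [tan, tan, ← map_ln f hf, Polynomial.coeff_map]

theorem map_hes (f : A →+* B) (hf : ∀ c : K, f (algebraMap K A c) = algebraMap K B c) (F : MvPolynomial ι K) (x y : ι → A) :
    f (hes F x y) = hes F (fun i => f (x i)) (fun i => f (y i)) := by
  rw [hes, hes, ← map_ln f hf, Polynomial.coeff_map]

/-- change of the base field of `F` -/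
theorem ln_map {L : Type} [Field L] [Algebra K L] [Algebra L A] [IsScalarTower K L A] (F : MvPolynomial ι K) (x y : ι → A) :
    ln (map (algebraMap K L) F) x y = ln F x y := by
  rw [ln, ln, aeval_map_algebraMap]

theorem natDegree_ln_le {F : MvPolynomial ι K} (hF : F.IsHomogeneous 7) (x y : ι → A) : (ln F x y).natDegree ≤ 7 := by
  rw [ln_sum]
  refine Polynomial.natDegree_sum_le_of_forall_le _ _ fun d hd => ?_
  refine (Polynomial.natDegree_C_mul_le _ _).trans ?_
  rw [← seven hF hd]
  exact prod_deg _ _ _ _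

theorem coeff_ln_seven {F : MvPolynomial ι K} (hF : F.IsHomogeneous 7) (x y : ι → A) : (ln F x y).coeff 7 = aeval x F := by
  rw [refl_ln hF x y (le_refl 7), Nat.sub_self, Polynomial.coeff_zero_eq_eval_zero, eval_ln]
  congr 2
  ext i
  simp

theorem coeff_ln_zero (F : MvPolynomial ι K) (x y : ι → A) : (ln F x y).coeff 0 = aeval y F := by
  rw [Polynomial.coeff_zero_eq_eval_zero, eval_ln]
  congr 2
  ext i
  simp

/-- symmetry (`reflect`) -/
theorem coeff_ln_swap {F : MvPolynomial ι K} (hF : F.IsHomogeneous 7) (x y : ι → A) {k : ℕ} (hk : k ≤ 7) :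
    (ln F x y).coeff k = (ln F y x).coeff (7 - k) := by
  exact refl_ln hF x y hk

theorem natDegree_ln_le_four {F : MvPolynomial ι K} (hF : F.IsHomogeneous 7) {x y : ι → A} (h0 : aeval x F = 0) (h1 : tan F x y = 0)
    (h2 : hes F x y = 0) : (ln F x y).natDegree ≤ 4 := by
  rw [Polynomial.natDegree_le_iff_coeff_eq_zero]
  intro k hk
  by_cases h7 : 7 < k
  · exact Polynomial.coeff_eq_zero_of_natDegree_lt ((natDegree_ln_le hF x y).trans_lt h7)
  · have h3 : k = 5 ∨ k = 6 ∨ k = 7 := by omega
    rcases h3 with rfl | rfl | rfl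
    · exact h2
    · exact h1
    · rw [coeff_ln_seven hF, h0]

theorem ln_shift (F : MvPolynomial ι K) (x y : ι → A) (c : A) :
    ln F x (fun i => c * x i + y i) = (ln F x y).comp (Polynomial.X + Polynomial.C c) := by
  have h := hom_aeval (Polynomial.compRingHom (Polynomial.X + Polynomial.C c)) (fun c : K => by
    rw [Polynomial.algebraMap_apply, Polynomial.coe_compRingHom_apply, Polynomial.C_comp]) F
    (fun i => Polynomial.C (x i) * Polynomial.X + Polynomial.C (y i))
  rw [Polynomial.coe_compRingHom_apply] at h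
  rw [ln, ln, h]
  congr 2
  ext1 i
  simp only [Polynomial.coe_compRingHom_apply, Polynomial.C_comp, Polynomial.X_comp, map_add, map_mul]
  ring

theorem tan_shift {F : MvPolynomial ι K} (hF : F.IsHomogeneous 7) {x y : ι → A} (h0 : aeval x F = 0) (c : A) :
    tan F x (fun i => c * x i + y i) = tan F x y := by
  rw [tan, ln_shift, comp_coeff, tan]
  rw [Polynomial.natDegree_le_iff_coeff_eq_zero]
  intro k hk
  by_cases h7 : 7 < k
  · exact Polynomial.coeff_eq_zero_of_natDegree_lt ((natDegree_ln_le hF x y).trans_lt h7)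
  · obtain rfl : k = 7 := by omega
    rw [coeff_ln_seven hF, h0]

theorem hes_shift {F : MvPolynomial ι K} (hF : F.IsHomogeneous 7) {x y : ι → A} (h0 : aeval x F = 0) (h1 : tan F x y = 0) (c : A) :
    hes F x (fun i => c * x i + y i) = hes F x y := by
  rw [hes, ln_shift, comp_coeff, hes]
  rw [Polynomial.natDegree_le_iff_coeff_eq_zero]
  intro k hk
  by_cases h7 : 7 < k
  · exact Polynomial.coeff_eq_zero_of_natDegree_lt ((natDegree_ln_le hF x y).trans_lt h7)
  · have h3 : k = 6 ∨ k = 7 := by omega
    rcases h3 with rfl | rfl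
    · exact h1
    · rw [coeff_ln_seven hF, h0]

end Pool.Agent.H3.SH
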