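import Pool.Agent.H3.SH.Fin
import Pool.Agent.H3.SH.OpL
import Pool.Agent.H3.SH.Ber
import Pool.Agent.H3.SH.FinL
import Pool.Agent.H8.SD.DegA

/-!
# SH Slc: the theorem for all `n ≥ 5` by slicing (note 5778 (4))

`F_L = map (algebraMap K L) F`, `Δ = Δ₁ Δ₂` from `exists_d1`, `exists_d2` for `F_L`, `pt L P`.  `slice`: let `u : Fin 5 × Fin n → K` with
`Δ (pt u) ≠ 0`, `M : Matrix (Fin n) (Fin 6) K` with columns `P, u_0, .., u_4`, `F' = Pool.Agent.H8.SD.pull M F` (`F' (s) = F (sec P u s)`,
`aeval_pull`), a form of degree 7 (`Pool.Agent.H8.SD.da_pull_hom`), smooth over `L` (chain rule: `pderiv_pull` of `H8/SD/Sec`, or a copy), `P' = e_0`, `F' (P') = 0`,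
finitely many lines through `P'` (`finite_lines`, `ln F' v e_0 = ln F (∑ v_(k+1) u_k) P`), `main_fin` with `m = 5`: `map F'` divides
`G' = pull (M over L) G`, so `G (sec P u s) = 0` for all `s ∈ L^6` with `F (sec P u s) = 0`; take `s = (t, 1, 0, 0, 0, 0)`.
`main_all`: `lemD` with `σ = Fin 5 × Fin n`, `D = {pt u | Δ (pt u) ≠ 0}`, `E = univ` (`Dense D E`: `f Δ` vanishes at all points over `K`, so `f = 0`,
`eq_zero_of_pt`), `φ = ln F_L P u_0`, `g = ln G P u_0` (generic `u_0 i = X (0, i)`), at `u_0 = x`, `t = 0`: `G (x) = 0` for all zeros `x` of `F` over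
`L` with `ln F P x ≠ 0`, in particular if `tan F P x ≠ 0`.  So `F_L ∣ G * T`, `T` the linear form `tan F P x ≠ 0` (see the proof of `stF`), `F_L ∣ G`.
-/

set_option autoImplicit false

open MvPolynomial

namespace Pool.Agent.H3.SH

variable {K L : Type} [Field K] [Field L] [Algebra K L]

private theorem slc_pderiv {K : Type} [Field K] {n k : ℕ} (M : Matrix (Fin n) (Fin k) K) (j : Fin k) (F : MvPolynomial (Fin n) K) :
    pderiv j (Pool.Agent.H8.SD.pull M F) = ∑ a, C (M a j) * Pool.Agent.H8.SD.pull M (pderiv a F) := by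
  have hlin : ∀ a, pderiv j (Pool.Agent.H8.SD.lin (M a)) = C (M a j) := by
    intro a
    unfold Pool.Agent.H8.SD.lin
    rw [map_sum, Finset.sum_eq_single j]
    · rw [Derivation.leibniz]
      simp
    · intro b _ hb
      rw [Derivation.leibniz, pderiv_X_of_ne hb]
      simp
    · simp
  induction F using MvPolynomial.induction_on with
  | C a =>
    have : Pool.Agent.H8.SD.pull M (C a) = C a := by simp [Pool.Agent.H8.SD.pull]
    rw [this]
    simp
  | add p q hp hq =>
    rw [map_add, map_add, hp, hq, ← Finset.sum_add_distrib]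
    refine Finset.sum_congr rfl fun i _ => ?_
    rw [map_add, map_add, mul_add]
  | mul_X p l hp =>
    have hX : Pool.Agent.H8.SD.pull M (X l) = Pool.Agent.H8.SD.lin (M l) := by simp [Pool.Agent.H8.SD.pull]
    rw [map_mul, Derivation.leibniz, hX, hlin, hp]
    simp only [Derivation.leibniz, smul_eq_mul, map_add, map_mul, hX, mul_add, Finset.sum_add_distrib, pderiv_X]
    congr 1
    · rw [Finset.sum_eq_single l]
      · simp [mul_comm]
      · intro b _ hb
        simp [hb.symm]
      · simp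
    · rw [Finset.mul_sum]
      refine Finset.sum_congr rfl fun i _ => ?_
      ring

/-- the matrix with the columns `P, u_0, .., u_4` -/
private def slcM {K : Type} {n : ℕ} (P : Fin n → K) (u : Fin 5 × Fin n → K) : Matrix (Fin n) (Fin 6) K :=
  fun i => Fin.cons (P i) fun k => u (k, i)

private theorem slc_mulVec {n : ℕ} (P : Fin n → K) (u : Fin 5 × Fin n → K) (s : Fin 6 → L) :
    ((slcM P u).map (algebraMap K L)).mulVec s = sec (pt L P) (pt L u) s := by
  funext i
  rw [Matrix.mulVec, dotProduct, Fin.sum_univ_succ]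
  show algebraMap K L (P i) * s 0 + ∑ k : Fin 5, algebraMap K L (u (k, i)) * s k.succ =
    s 0 * algebraMap K L (P i) + ∑ k : Fin 5, s k.succ * algebraMap K L (u (k, i))
  rw [mul_comm]
  congr 1
  exact Finset.sum_congr rfl fun k _ => mul_comm _ _

private theorem slc_pt {n : ℕ} (P : Fin n → K) (u : Fin 5 × Fin n → K) (q : Fin 6 → K) :
    ((slcM P u).map (algebraMap K L)).mulVec (pt L q) = pt L ((slcM P u).mulVec q) := by
  funext i
  simp only [Matrix.mulVec, dotProduct, pt, map_sum, map_mul, Matrix.map_apply]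

private theorem slc_aeval {n : ℕ} (F : MvPolynomial (Fin n) K) (P : Fin n → K) (u : Fin 5 × Fin n → K) (s : Fin 6 → L) :
    aeval s (Pool.Agent.H8.SD.pull (slcM P u) F) = aeval (sec (pt L P) (pt L u) s) F := by
  rw [Pool.Agent.H8.SD.aeval_pull, slc_mulVec]

private theorem slc_smooth {n : ℕ} {F : MvPolynomial (Fin n) K} {P : Fin n → K} {u : Fin 5 × Fin n → K}
    (h1 : ∀ s : Fin 6 → L, s ≠ 0 → ¬ (∑ i, aeval (sec (pt L P) (pt L u) s) (pderiv i F) * pt L P i = 0 ∧
      ∀ k, ∑ i, aeval (sec (pt L P) (pt L u) s) (pderiv i F) * pt L u (k, i) = 0)) :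
    Pool.Agent.H8.SD.Smooth L (Pool.Agent.H8.SD.pull (slcM P u) F) := by
  intro s hs
  by_contra hcon
  push Not at hcon
  have h2 : ∀ j, ∑ i, aeval (sec (pt L P) (pt L u) s) (pderiv i F) * algebraMap K L (slcM P u i j) = 0 := by
    intro j
    have h3 := hcon j
    rw [slc_pderiv, map_sum] at h3
    rw [← h3]
    refine Finset.sum_congr rfl fun i _ => ?_
    rw [map_mul, slc_aeval, aeval_C, mul_comm]
  exact h1 s hs ⟨h2 0, fun k => h2 k.succ⟩

private theorem slc_single : (pt L (Pi.single 0 1 : Fin 6 → K)) = (Pi.single 0 1 : Fin 6 → L) := by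
  funext i
  rw [pt, Pi.single_apply, Pi.single_apply]
  split_ifs
  · exact map_one _
  · exact map_zero _

private theorem slc_ln [Infinite L] {n : ℕ} (F : MvPolynomial (Fin n) K) (P : Fin n → K) (u : Fin 5 × Fin n → K) (v : Fin 6 → L)
    (hv : v 0 = 0) :
    ln (Pool.Agent.H8.SD.pull (slcM P u) F) v (Pi.single 0 1) =
      ln F (fun i => ∑ k : Fin 5, v k.succ * pt L u (k, i)) (pt L P) := by
  refine Polynomial.funext fun t => ?_
  rw [eval_ln, eval_ln, slc_aeval]
  congr 2
  funext i
  simp only [sec]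
  rw [hv, Pi.single_eq_same, mul_zero, zero_add, one_mul, add_comm, Finset.mul_sum]
  congr 1
  refine Finset.sum_congr rfl fun k _ => ?_
  rw [Pi.single_eq_of_ne (Fin.succ_ne_zero k), add_zero]
  ring

theorem slice [CharZero K] [IsAlgClosed L] (hR : Roots K L) {n : ℕ} {F : MvPolynomial (Fin n) K} (hF : F.IsHomogeneous 7)
    {P : Fin n → K} (hP : eval P F = 0) {u : Fin 5 × Fin n → K}
    (h1 : ∀ s : Fin 6 → L, s ≠ 0 → ¬ (∑ i, aeval (sec (pt L P) (pt L u) s) (pderiv i F) * pt L P i = 0 ∧
      ∀ k, ∑ i, aeval (sec (pt L P) (pt L u) s) (pderiv i F) * pt L u (k, i) = 0))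
    (h2 : ∀ s : Fin 5 → L, s 4 = 0 → s ≠ 0 → ln F (fun i => ∑ k, s k * pt L u (k, i)) (pt L P) ≠ 0)
    {G : MvPolynomial (Fin n) L} (hG : ∀ q : Fin n → K, eval q F = 0 → eval (pt L q) G = 0) (t : L)
    (ht : aeval (fun i => t * pt L P i + pt L u (0, i)) F = 0) : eval (fun i => t * pt L P i + pt L u (0, i)) G = 0 := by
  have hL : Infinite L := IsAlgClosed.instInfinite
  set F' := Pool.Agent.H8.SD.pull (slcM P u) F with hF'
  set G' := Pool.Agent.H8.SD.pull ((slcM P u).map (algebraMap K L)) G with hG'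
  have hhom : F'.IsHomogeneous 7 := Pool.Agent.H8.SD.da_pull_hom _ hF
  have hsm : Pool.Agent.H8.SD.Smooth L F' := slc_smooth h1
  have hP' : eval (Pi.single 0 1 : Fin 6 → K) F' = 0 := by
    rw [hF', Pool.Agent.H8.SD.eval_pull, Matrix.mulVec_single_one]
    exact hP
  have hfin := finite_lines (F := map (algebraMap K L) F') (hhom.map _) (by
    intro v hv0 hv5 hv h3
    rw [ln_map, hF', slc_ln F P u v hv0] at h3
    refine h2 (fun k => v k.succ) hv5 ?_ h3
    intro h4
    apply hv
    funext j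
    refine Fin.cases ?_ (fun k => ?_) j
    · exact hv0
    · exact congrFun h4 k)
  have hdvd : map (algebraMap K L) F' ∣ G' := by
    refine main_fin hR (m := 5) le_rfl (by norm_num) hhom hsm (P := Pi.single 0 1) (fun h3 => ?_) hP' ?_ (fun q hq => ?_)
    · have h4 := congrFun h3 0
      rw [Pi.single_eq_same] at h4
      exact one_ne_zero h4
    · rw [slc_single]
      refine hfin.subset ?_
      rintro W ⟨hW1, hW2, hW3⟩
      refine ⟨hW1, hW2, fun x hx => ?_⟩
      rw [eval_map, ← aeval_def]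
      exact hW3 x hx
    · rw [hG', Pool.Agent.H8.SD.eval_pull, slc_pt]
      refine hG _ ?_
      rw [← Pool.Agent.H8.SD.eval_pull]
      exact hq
  set s : Fin 6 → L := Fin.cons t (Pi.single 0 1) with hs
  have hsec : sec (pt L P) (pt L u) s = fun i => t * pt L P i + pt L u (0, i) := by
    funext i
    simp only [sec, hs, Fin.cons_zero, Fin.cons_succ]
    congr 1
    rw [Finset.sum_eq_single 0]
    · rw [Pi.single_eq_same, one_mul]
    · intro k _ hk
      rw [Pi.single_eq_of_ne hk, zero_mul]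
    · intro h3
      exact absurd (Finset.mem_univ _) h3
  obtain ⟨H, hH⟩ := hdvd
  have h3 : eval s G' = 0 := by
    rw [hH, map_mul, eval_map, ← aeval_def, hF', slc_aeval, hsec, ht, zero_mul]
  rw [hG', Pool.Agent.H8.SD.eval_pull, slc_mulVec, hsec] at h3
  exact h3

theorem main_all [CharZero K] [IsAlgClosed L] (hR : Roots K L) {n : ℕ} (hn : 6 ≤ n) {F : MvPolynomial (Fin n) K}
    (hF : F.IsHomogeneous 7) (hsm : Pool.Agent.H8.SD.Smooth L F) {P : Fin n → K} (hP0 : P ≠ 0) (hP : eval P F = 0)
    (hU : ∃ U : Submodule L (Fin n → L), Module.finrank L U = 5 ∧ pt L P ∈ U ∧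
      ∀ W : Submodule L (Fin n → L), Module.finrank L W = 2 → pt L P ∈ W → W ≤ U → ∃ x ∈ W, aeval x F ≠ 0)
    {G : MvPolynomial (Fin n) L} (hG : ∀ q : Fin n → K, eval q F = 0 → eval (pt L q) G = 0) : map (algebraMap K L) F ∣ G := by
  have hcz : CharZero L := charZero_of_injective_algebraMap (algebraMap K L).injective
  have hKi : Infinite K := CharZero.infinite K
  set F' : MvPolynomial (Fin n) L := map (algebraMap K L) F with hF'
  have hhom : F'.IsHomogeneous 7 := hF.map _
  have hsm' : Pool.Agent.H8.SD.Smooth L F' := smooth_map' hsm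
  have hev : ∀ x : Fin n → L, eval x F' = aeval x F := fun x => by rw [hF', eval_map, aeval_def]
  have hirr : Irreducible F' := Pool.Agent.H8.SD.irreducible_of_smooth (K := L) (L := L) (by omega) hhom hsm'
  have hpr : Prime F' := UniqueFactorizationMonoid.irreducible_iff_prime.1 hirr
  have hP0' : pt L P ≠ 0 := by
    intro h
    apply hP0
    funext i
    exact (map_eq_zero_iff (algebraMap K L) (algebraMap K L).injective).1 (congrFun h i)
  have hP' : eval (pt L P) F' = 0 := by
    have h1 : eval (pt L P) F' = algebraMap K L (eval P F) := by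
      rw [hF', eval_map]
      exact (eval₂_comp_left (algebraMap K L) (RingHom.id K) P F).symm.trans rfl |>.symm ▸ rfl
    rw [h1, hP, map_zero]
  obtain ⟨Δ1, hΔ1, hd1⟩ := exists_d1 hn hhom hsm' hP0' hP'
  obtain ⟨Δ2, hΔ2, hd2⟩ := exists_d2 hhom hP0' hP' (by
    obtain ⟨U, hU1, hU2, hU3⟩ := hU
    refine ⟨U, hU1, hU2, fun W hW1 hW2 hW3 => ?_⟩
    obtain ⟨x, hx1, hx2⟩ := hU3 W hW1 hW2 hW3
    exact ⟨x, hx1, by rw [hev]; exact hx2⟩)
  have hdense : Dense {z : Fin 5 × Fin n → L | ∃ u : Fin 5 × Fin n → K, z = pt L u ∧ eval z (Δ1 * Δ2) ≠ 0} Set.univ := by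
    intro f hf z _
    have h1 : f * (Δ1 * Δ2) = 0 := by
      refine eq_zero_of_pt (K := K) fun c => ?_
      by_cases h2 : eval (pt L c) (Δ1 * Δ2) = 0
      · rw [map_mul, h2, mul_zero]
      · rw [map_mul, hf (pt L c) ⟨c, rfl, h2⟩, zero_mul]
    rcases mul_eq_zero.1 h1 with h2 | h2
    · rw [h2, map_zero]
    · exact absurd h2 (mul_ne_zero hΔ1 hΔ2)
  have hzero : ∀ x : Fin n → L, eval x F' = 0 → tan F (pt L P) x ≠ 0 → eval x G = 0 := by
    intro x hx htan
    have hmap : ∀ (H : MvPolynomial (Fin n) L) (z : Fin 5 × Fin n → L),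
        (ln H (fun i => (C (pt L P i) : MvPolynomial (Fin 5 × Fin n) L)) (fun i => X ((0 : Fin 5), i))).map (eval z) =
          ln H (pt L P) (fun i => z (0, i)) := by
      intro H z
      rw [map_ln (eval z) (fun c => by
        rw [algebraMap_eq, eval_C]
        rfl)]
      simp only [eval_C, eval_X]
    have h1 := lemD hdense (ln F' (fun i => (C (pt L P i) : MvPolynomial (Fin 5 × Fin n) L)) (fun i => X ((0 : Fin 5), i)))
      (ln G (fun i => (C (pt L P i) : MvPolynomial (Fin 5 × Fin n) L)) (fun i => X ((0 : Fin 5), i))) (by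
        rintro z ⟨u, rfl, hu⟩ t _ ht
        rw [hmap, eval_ln] at ht ⊢
        rw [map_mul] at hu
        have hu1 := left_ne_zero_of_mul hu
        have hu2 := right_ne_zero_of_mul hu
        refine slice hR hF hP (u := u) (fun s hs h3 => ?_) (fun s hs4 hs0 h3 => ?_) hG t ?_
        · refine hd1 (pt L u) hu1 s hs ?_
          have h4 : ∀ i, eval (sec (pt L P) (pt L u) s) (pderiv i F') = aeval (sec (pt L P) (pt L u) s) (pderiv i F) := by
            intro i
            rw [hF', pderiv_map, eval_map, aeval_def]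
          simp only [h4]
          exact h3
        · refine hd2 (pt L u) hu2 s hs4 hs0 ?_
          rw [hF', ln_map]
          exact h3
        · have h4 : aeval (fun i => t * pt L P i + pt L u (0, i)) F' = 0 := ht
          rw [hF', aeval_map_algebraMap] at h4
          exact h4) (fun p => x p.2) (Set.mem_univ _) 0
    rw [hmap, hmap, eval_ln, eval_ln] at h1
    have h2 : (fun i => (0 : L) * pt L P i + (fun p : Fin 5 × Fin n => x p.2) (0, i)) = x := by
      funext i
      simp
    rw [h2] at h1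
    refine h1 (fun h3 => htan ?_) hx
    have h4 : ln F (pt L P) x = 0 := by
      rw [← h3, hF', ln_map]
    rw [tan, h4, Polynomial.coeff_zero]
  set T : MvPolynomial (Fin n) L := ∑ i, C (aeval (pt L P) (pderiv i F)) * X i with hT
  have hTe : ∀ x : Fin n → L, eval x T = tan F (pt L P) x := by
    intro x
    rw [tan_eq hF, hT, map_sum]
    refine Finset.sum_congr rfl fun i _ => ?_
    rw [map_mul, eval_C, eval_X]
  have hT0 : T ≠ 0 := by
    obtain ⟨i, hi⟩ := hsm (pt L P) hP0'
    intro h
    apply hi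
    have h3 : eval (Pi.single i (1 : L)) T = 0 := by rw [h, map_zero]
    rw [hT, map_sum, Finset.sum_eq_single i] at h3
    · rwa [map_mul, eval_C, eval_X, Pi.single_eq_same, mul_one] at h3
    · intro j _ hj
      simp [Pi.single_eq_of_ne hj]
    · intro h4
      exact absurd (Finset.mem_univ i) h4
  have hTh : T.IsHomogeneous 1 := by
    refine IsHomogeneous.sum _ _ _ fun i _ => ?_
    have h3 := (isHomogeneous_C (Fin n) (aeval (pt L P) (pderiv i F))).mul (isHomogeneous_X L i)
    simpa using h3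
  have hdT : ¬ F' ∣ T := by
    intro h
    have h3 := totalDegree_le_of_dvd_of_isDomain h hT0
    rw [hhom.totalDegree hirr.ne_zero, hTh.totalDegree hT0] at h3
    omega
  have hdvd : F' ∣ G * T := by
    refine dvd_of_zeros hirr fun x hx => ?_
    rw [map_mul]
    by_cases c1 : tan F (pt L P) x = 0
    · rw [hTe, c1, mul_zero]
    · rw [hzero x hx c1, zero_mul]
  rcases hpr.dvd_or_dvd hdvd with h | h
  · exact h
  · exact absurd h hdT

end Pool.Agent.H3.SH
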