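import Pool.Agent.H3.SH.LemD
import Pool.Agent.H3.SH.PolA

/-!
# SH StB: from the asymptotic cones to the zeros of `F` on them (stages B and D of note 5648)

`lemD` with `D = WK L F S`, `E = WL F T`, variables `z = (Q, w) : ι ⊕ ι → L`, `A = MvPolynomial (ι ⊕ ι) L`, `φ = ln F Q w : Polynomial A` for
the generic `Q i = X (Sum.inl i)`, `w i = X (Sum.inr i)` and, for `f : MvPolynomial (ι ⊕ ι) L` which vanishes on `YK L F S`,
`g = f (Q, s Q + w)`.  For `z = (pt q, pt u) ∈ WK`: `φ_z` is the image of `ln F q u ∈ K[s]`, of degree `≤ 4` (`natDegree_ln_le_four`), so a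
root `t` is in `K`, `r = t q + u` is a zero of `F` over `K`, `tan F q r = 0`, `hes F q r = 0` (`tan_shift`, `hes_shift`), so
`(pt q, pt r) ∈ YK`, `f = 0` there.  At `(Q, w) ∈ YL F T`: `t = 0`, `φ_z = ln F Q w ≠ 0`, `φ_z (0) = F (w) = 0`.
-/

set_option autoImplicit false

open MvPolynomial

namespace Pool.Agent.H3.SH

variable {K L : Type} [Field K] [Field L] [Algebra K L] {ι : Type}

/-- `f (Q, s Q + w)` for the generic `Q`, `w`, as a polynomial in `s`. -/
private noncomputable def gB (f : MvPolynomial (ι ⊕ ι) L) : Polynomial (MvPolynomial (ι ⊕ ι) L) :=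
  aeval (Sum.elim (fun i => Polynomial.C (X (Sum.inl i) : MvPolynomial (ι ⊕ ι) L))
    (fun i => Polynomial.X * Polynomial.C (X (Sum.inl i) : MvPolynomial (ι ⊕ ι) L) +
      Polynomial.C (X (Sum.inr i) : MvPolynomial (ι ⊕ ι) L))) f

omit [Algebra K L] [Field K] in
private theorem eval_gB (f : MvPolynomial (ι ⊕ ι) L) (z : ι ⊕ ι → L) (t : L) :
    ((gB f).map (eval z)).eval t =
      eval (Sum.elim (fun i => z (Sum.inl i)) (fun i => t * z (Sum.inl i) + z (Sum.inr i))) f := by
  unfold gB
  induction f using MvPolynomial.induction_on with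
  | C a =>
    rw [aeval_C, eval_C, Polynomial.algebraMap_apply, Polynomial.map_C, Polynomial.eval_C, algebraMap_eq, eval_C]
  | add p q hp hq =>
    rw [map_add, map_add, Polynomial.map_add, Polynomial.eval_add, hp, hq]
  | mul_X p i hp =>
    rw [map_mul, map_mul, Polynomial.map_mul, Polynomial.eval_mul, hp, aeval_X, eval_X]
    congr 1
    cases i with
    | inl i => simp only [Sum.elim_inl, Polynomial.map_C, eval_X, Polynomial.eval_C]
    | inr i =>
      simp only [Sum.elim_inr, Polynomial.map_add, Polynomial.map_mul, Polynomial.map_X, Polynomial.map_C, eval_X,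
        Polynomial.eval_add, Polynomial.eval_mul, Polynomial.eval_X, Polynomial.eval_C]

theorem stB [IsAlgClosed L] (hR : Roots K L) {F : MvPolynomial ι K} (hF : F.IsHomogeneous 7) {S T : Set (ι → L)}
    (hS : ∀ q : ι → K, pt L q ∈ S → eval q F = 0) (h : Dense (WK L F S) (WL F T)) : Dense (YK L F S) (YL F T) := by
  intro f hf z hz
  set φ : Polynomial (MvPolynomial (ι ⊕ ι) L) :=
    ln F (fun i => (X (Sum.inl i) : MvPolynomial (ι ⊕ ι) L)) (fun i => X (Sum.inr i)) with hφ
  have hφz : ∀ z : ι ⊕ ι → L, φ.map (eval z) = ln F (fun i => z (Sum.inl i)) (fun i => z (Sum.inr i)) := by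
    intro z
    rw [hφ, map_ln (eval z) (fun c => by
      rw [MvPolynomial.algebraMap_apply, eval_C]) F]
    simp only [eval_X]
  have hD : ∀ z ∈ WK L F S, ∀ t : L, φ.map (eval z) ≠ 0 → (φ.map (eval z)).eval t = 0 →
      ((gB f).map (eval z)).eval t = 0 := by
    rintro z ⟨q, u, hq, h1, h2, rfl⟩ t hne ht
    have e1 : φ.map (eval (Sum.elim (pt L q) (pt L u))) = (ln F q u).map (algebraMap K L) := by
      rw [hφz, map_ln (algebraMap K L) (fun c => rfl) F]
      rfl
    rw [e1] at hne ht
    have h0 : aeval q F = 0 := hS q hq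
    have hne' : ln F q u ≠ 0 := by
      intro h3
      rw [h3, Polynomial.map_zero] at hne
      exact hne rfl
    obtain ⟨x, rfl⟩ := hR (ln F q u) hne' (natDegree_ln_le_four hF h0 h1 h2) t ht
    have h3 : (ln F q u).eval x = 0 := by
      rw [Polynomial.eval_map, Polynomial.eval₂_at_apply] at ht
      exact (map_eq_zero (algebraMap K L)).1 ht
    rw [eval_ln] at h3
    have h4 := hf (Sum.elim (pt L q) (pt L fun i => x * q i + u i))
      ⟨q, fun i => x * q i + u i, hq, by rw [tan_shift hF h0, h1], by rw [hes_shift hF h0 h1, h2], h3, rfl⟩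
    rw [eval_gB]
    have e2 : (Sum.elim (fun i => Sum.elim (pt L q) (pt L u) (Sum.inl i))
        (fun i => algebraMap K L x * Sum.elim (pt L q) (pt L u) (Sum.inl i) + Sum.elim (pt L q) (pt L u) (Sum.inr i)) :
          ι ⊕ ι → L) = Sum.elim (pt L q) (pt L fun i => x * q i + u i) := by
      funext i
      cases i with
      | inl i => rfl
      | inr i => simp only [Sum.elim_inl, Sum.elim_inr, pt, map_add, map_mul]
    rw [e2]
    exact h4
  obtain ⟨Q, w, hQ, h1, h2, h3, hne, rfl⟩ := hz
  have key := lemD h φ (gB f) hD (Sum.elim Q w) ⟨Q, w, hQ, h1, h2, rfl⟩ 0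
    (by rw [hφz]; exact hne)
    (by
      rw [hφz, eval_ln]
      simp only [zero_mul, zero_add, Sum.elim_inl, Sum.elim_inr]
      exact h3)
  rw [eval_gB] at key
  have e3 : (Sum.elim (fun i => Sum.elim Q w (Sum.inl i))
      (fun i => 0 * Sum.elim Q w (Sum.inl i) + Sum.elim Q w (Sum.inr i)) : ι ⊕ ι → L) = Sum.elim Q w := by
    funext i
    cases i with
    | inl i => rfl
    | inr i => simp only [Sum.elim_inl, Sum.elim_inr, zero_mul, zero_add]
  rw [e3] at key
  exact key

end Pool.Agent.H3.SH
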