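import Pool.Agent.H3.SH.LemD
import Pool.Agent.H3.SH.PolB
import Pool.Agent.H3.SH.Dn

/-!
# SH StC: from `S, T` to the asymptotic cones (stages A and C of note 5648)

`stC`: variables `z = (Q, (c, (a', b')))`, `τ = ι ⊕ (ι ⊕ ι)`, `A = MvPolynomial (ι ⊕ τ) L`, generic `Q, c, a', b' : ι → A` (the variables),
`a i = tan F Q c * a' i - tan F Q a' * c i`, `b i = tan F Q c * b' i - tan F Q b' * c i` (so `tan F Q a = tan F Q b = 0`),
`φ = C (hes F Q a) * X ^ 2 + C (pol F Q a b) * X + C (hes F Q b) : Polynomial A` (so `φ (t) = hes F Q (t a + b)`, `hes_add`),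
`g = f (Q, X a + b)`.  `lemD` with the sets of `dense_prod`.  For a point over `K` (`Q = pt q`, ...) `φ_z` comes from a polynomial of degree
`≤ 2` over `K` (`map_hes`, `map_pol`), so a root `t` is in `K` (`Roots`), `u = t a + b` is over `K`, `tan F q u = 0`, `hes F q u = 0`, and
`(pt q, pt u) ∈ WK`, so `f = 0` there.  At `(Q, w) ∈ WL F T`: choose `c` with `tan F Q c = 1`, `a'` with `tan F Q a' = 0`,
`hes F Q a' ≠ 0`, `b' = w`, `t = 0`: `a = a'`, `b = w`, `φ_z` has the leading coefficient `hes F Q a' ≠ 0`, `φ_z (0) = hes F Q w = 0`.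

`stP`: `f ∘ π`, `π (y) = y - tan F (pt P) y • pt c`, vanishes at the points over `K`, so it is zero (`eq_zero_of_pt`); `π (w) = w`.
-/

set_option autoImplicit false

open MvPolynomial

namespace Pool.Agent.H3.SH

variable {K L : Type} [Field K] [Field L] [Algebra K L] {ι : Type} [Fintype ι]

private theorem stc_ev {σ' ρ : Type} (z : σ' → L) (v : ρ → Polynomial (MvPolynomial σ' L))
    (f : MvPolynomial ρ L) (t : L) :
    ((aeval v f : Polynomial (MvPolynomial σ' L)).map (eval z)).eval t =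
      eval (fun i => ((v i).map (eval z)).eval t) f := by
  have h := eval₂_comp_left ((Polynomial.evalRingHom t).comp (Polynomial.mapRingHom (eval z)))
    (algebraMap L (Polynomial (MvPolynomial σ' L))) v f
  have h1 : ((Polynomial.evalRingHom t).comp (Polynomial.mapRingHom (eval z))).comp
      (algebraMap L (Polynomial (MvPolynomial σ' L))) = RingHom.id L := by
    ext l
    rw [RingHom.comp_apply, RingHom.comp_apply, Polynomial.algebraMap_apply,
      Polynomial.coe_mapRingHom, Polynomial.map_C, MvPolynomial.algebraMap_eq, eval_C,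
      Polynomial.coe_evalRingHom, Polynomial.eval_C, RingHom.id_apply]
  rw [h1] at h
  exact h

private theorem stc_algA {σ' : Type} (z : σ' → L) (c : K) :
    eval z (algebraMap K (MvPolynomial σ' L) c) = algebraMap K L c := by
  rw [IsScalarTower.algebraMap_apply K L (MvPolynomial σ' L), MvPolynomial.algebraMap_eq, eval_C]

private theorem stc_tan_sub {A : Type} [CommRing A] [Algebra K A] {F : MvPolynomial ι K}
    (hF : F.IsHomogeneous 7) (x a b : ι → A) (s t : A) :
    tan F x (fun i => s * a i - t * b i) = s * tan F x a - t * tan F x b := by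
  rw [tan_eq hF, tan_eq hF, tan_eq hF, Finset.mul_sum, Finset.mul_sum, ← Finset.sum_sub_distrib]
  refine Finset.sum_congr rfl fun i _ => ?_
  ring

private theorem stc_pt_tan (F : MvPolynomial ι K) (x y : ι → K) :
    algebraMap K L (tan F x y) = tan F (pt L x) (pt L y) :=
  map_tan (algebraMap K L) (fun _ => rfl) F x y

private theorem stc_pt_hes (F : MvPolynomial ι K) (x y : ι → K) :
    algebraMap K L (hes F x y) = hes F (pt L x) (pt L y) :=
  map_hes (algebraMap K L) (fun _ => rfl) F x y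

private theorem stc_pt_pol (F : MvPolynomial ι K) (x a b : ι → K) :
    algebraMap K L (pol F x a b) = pol F (pt L x) (pt L a) (pt L b) :=
  map_pol (algebraMap K L) (fun _ => rfl) F x a b

/-- The quadratic polynomial `F_2 (x; s a + b)` in `s`. -/
private noncomputable def stc_q {A : Type} [CommRing A] [Algebra K A] (F : MvPolynomial ι K) (x a b : ι → A) :
    Polynomial A :=
  Polynomial.C (hes F x a) * Polynomial.X ^ 2 + Polynomial.C (pol F x a b) * Polynomial.X +
    Polynomial.C (hes F x b)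

private theorem stc_q_map {A B : Type} [CommRing A] [Algebra K A] [CommRing B] [Algebra K B] (f : A →+* B)
    (hf : ∀ c : K, f (algebraMap K A c) = algebraMap K B c) (F : MvPolynomial ι K) (x a b : ι → A) :
    (stc_q F x a b).map f = stc_q F (fun i => f (x i)) (fun i => f (a i)) (fun i => f (b i)) := by
  unfold stc_q
  rw [Polynomial.map_add, Polynomial.map_add, Polynomial.map_mul, Polynomial.map_mul, Polynomial.map_pow,
    Polynomial.map_X, Polynomial.map_C, Polynomial.map_C, Polynomial.map_C, map_hes f hf, map_hes f hf,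
    map_pol f hf]

private theorem stc_q_eval {A : Type} [CommRing A] [Algebra K A] [IsDomain A] [CharZero A] {F : MvPolynomial ι K}
    (hF : F.IsHomogeneous 7) (x a b : ι → A) (s : A) :
    (stc_q F x a b).eval s = hes F x (fun i => s * a i + b i) := by
  unfold stc_q
  rw [hes_add hF]
  simp only [Polynomial.eval_add, Polynomial.eval_mul, Polynomial.eval_C, Polynomial.eval_pow, Polynomial.eval_X]
  ring

private theorem stc_q_deg {A : Type} [CommRing A] [Algebra K A] (F : MvPolynomial ι K) (x a b : ι → A) :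
    (stc_q F x a b).natDegree ≤ 4 := by
  unfold stc_q
  exact (Polynomial.natDegree_quadratic_le).trans (by norm_num)

theorem stC [CharZero K] [IsAlgClosed L] (hR : Roots K L) {F : MvPolynomial ι K} (hF : F.IsHomogeneous 7) {S T : Set (ι → L)}
    (hS : ∀ Q ∈ S, ∃ q : ι → K, Q = pt L q) (h : Dense S T)
    (hT : ∀ Q ∈ T, (∃ c, tan F Q c = 1) ∧ ∃ a, tan F Q a = 0 ∧ hes F Q a ≠ 0) : Dense (WK L F S) (WL F T) := by
  haveI : CharZero L := charZero_of_injective_algebraMap (algebraMap K L).injective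
  have hinj := (algebraMap K L).injective
  intro f hf
  -- the generic points
  obtain ⟨Qg, hQg⟩ : ∃ Qg : ι → MvPolynomial (ι ⊕ (ι ⊕ (ι ⊕ ι))) L, ∀ i, Qg i = X (Sum.inl i) :=
    ⟨_, fun _ => rfl⟩
  obtain ⟨cg, hcg⟩ : ∃ cg : ι → MvPolynomial (ι ⊕ (ι ⊕ (ι ⊕ ι))) L, ∀ i, cg i = X (Sum.inr (Sum.inl i)) :=
    ⟨_, fun _ => rfl⟩
  obtain ⟨ag', hag'⟩ : ∃ ag' : ι → MvPolynomial (ι ⊕ (ι ⊕ (ι ⊕ ι))) L,
      ∀ i, ag' i = X (Sum.inr (Sum.inr (Sum.inl i))) := ⟨_, fun _ => rfl⟩
  obtain ⟨bg', hbg'⟩ : ∃ bg' : ι → MvPolynomial (ι ⊕ (ι ⊕ (ι ⊕ ι))) L,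
      ∀ i, bg' i = X (Sum.inr (Sum.inr (Sum.inr i))) := ⟨_, fun _ => rfl⟩
  obtain ⟨ag, hag⟩ : ∃ ag : ι → MvPolynomial (ι ⊕ (ι ⊕ (ι ⊕ ι))) L,
      ∀ i, ag i = tan F Qg cg * ag' i - tan F Qg ag' * cg i := ⟨_, fun _ => rfl⟩
  obtain ⟨bg, hbg⟩ : ∃ bg : ι → MvPolynomial (ι ⊕ (ι ⊕ (ι ⊕ ι))) L,
      ∀ i, bg i = tan F Qg cg * bg' i - tan F Qg bg' * cg i := ⟨_, fun _ => rfl⟩
  -- evaluation
  have hev : ∀ (z : ι ⊕ (ι ⊕ (ι ⊕ ι)) → L) (Q c a' b' : ι → L), (∀ i, z (Sum.inl i) = Q i) →
      (∀ i, z (Sum.inr (Sum.inl i)) = c i) → (∀ i, z (Sum.inr (Sum.inr (Sum.inl i))) = a' i) →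
      (∀ i, z (Sum.inr (Sum.inr (Sum.inr i))) = b' i) →
      (∀ i, eval z (Qg i) = Q i) ∧ (∀ i, eval z (ag i) = tan F Q c * a' i - tan F Q a' * c i) ∧
        (∀ i, eval z (bg i) = tan F Q c * b' i - tan F Q b' * c i) := by
    intro z Q c a' b' h1 h2 h3 h4
    have e1 : (fun i => eval z (Qg i)) = Q := by
      funext i
      rw [hQg, eval_X, h1]
    have e2 : (fun i => eval z (cg i)) = c := by
      funext i
      rw [hcg, eval_X, h2]
    have e3 : (fun i => eval z (ag' i)) = a' := by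
      funext i
      rw [hag', eval_X, h3]
    have e4 : (fun i => eval z (bg' i)) = b' := by
      funext i
      rw [hbg', eval_X, h4]
    have t1 : ∀ y : ι → MvPolynomial (ι ⊕ (ι ⊕ (ι ⊕ ι))) L,
        eval z (tan F Qg y) = tan F Q (fun i => eval z (y i)) := by
      intro y
      rw [map_tan (eval z) (stc_algA z) F Qg y, e1]
    refine ⟨fun i => congrFun e1 i, fun i => ?_, fun i => ?_⟩
    · rw [hag, map_sub, map_mul, map_mul, t1, t1, e2, e3, congrFun e3 i, congrFun e2 i]
    · rw [hbg, map_sub, map_mul, map_mul, t1, t1, e2, e4, congrFun e4 i, congrFun e2 i]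
  obtain ⟨v, hv⟩ : ∃ v : ι ⊕ ι → Polynomial (MvPolynomial (ι ⊕ (ι ⊕ (ι ⊕ ι))) L),
      v = Sum.elim (fun i => Polynomial.C (Qg i)) (fun i => Polynomial.X * Polynomial.C (ag i) + Polynomial.C (bg i)) :=
    ⟨_, rfl⟩
  have hgev : ∀ (z : ι ⊕ (ι ⊕ (ι ⊕ ι)) → L) (Q a b : ι → L) (t : L), (∀ i, eval z (Qg i) = Q i) →
      (∀ i, eval z (ag i) = a i) → (∀ i, eval z (bg i) = b i) →
      ((aeval v f : Polynomial (MvPolynomial (ι ⊕ (ι ⊕ (ι ⊕ ι))) L)).map (eval z)).eval t =
        eval (Sum.elim Q (fun i => t * a i + b i)) f := by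
    intro z Q a b t h1 h2 h3
    rw [stc_ev]
    have h4 : (fun i => ((v i).map (eval z)).eval t) = Sum.elim Q (fun i => t * a i + b i) := by
      funext i
      rw [hv]
      rcases i with i | i
      · rw [Sum.elim_inl, Sum.elim_inl, Polynomial.map_C, Polynomial.eval_C, h1]
      · rw [Sum.elim_inr, Sum.elim_inr, Polynomial.map_add, Polynomial.map_mul, Polynomial.map_X,
          Polynomial.map_C, Polynomial.map_C, Polynomial.eval_add, Polynomial.eval_mul, Polynomial.eval_X,
          Polynomial.eval_C, Polynomial.eval_C, h2, h3]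
    rw [h4]
  have hqev : ∀ (z : ι ⊕ (ι ⊕ (ι ⊕ ι)) → L) (Q a b : ι → L), (∀ i, eval z (Qg i) = Q i) →
      (∀ i, eval z (ag i) = a i) → (∀ i, eval z (bg i) = b i) →
      (stc_q F Qg ag bg).map (eval z) = stc_q F Q a b := by
    intro z Q a b h1 h2 h3
    rw [stc_q_map (eval z) (stc_algA z)]
    have e1 : (fun i => eval z (Qg i)) = Q := funext h1
    have e2 : (fun i => eval z (ag i)) = a := funext h2
    have e3 : (fun i => eval z (bg i)) = b := funext h3
    rw [e1, e2, e3]
  haveI : Infinite K := inferInstance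
  have key := lemD (dense_prod (K := K) (τ := ι ⊕ (ι ⊕ ι)) h) (stc_q F Qg ag bg) (aeval v f) (by
    rintro z ⟨hz1, cc, hz2⟩ t hne hroot
    obtain ⟨q, hq⟩ := hS _ hz1
    obtain ⟨c, hc⟩ : ∃ c : ι → K, c = fun i => cc (Sum.inl i) := ⟨_, rfl⟩
    obtain ⟨a', ha'⟩ : ∃ a' : ι → K, a' = fun i => cc (Sum.inr (Sum.inl i)) := ⟨_, rfl⟩
    obtain ⟨b', hb'⟩ : ∃ b' : ι → K, b' = fun i => cc (Sum.inr (Sum.inr i)) := ⟨_, rfl⟩
    obtain ⟨a, ha⟩ : ∃ a : ι → K, a = fun i => tan F q c * a' i - tan F q a' * c i := ⟨_, rfl⟩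
    obtain ⟨b, hb⟩ : ∃ b : ι → K, b = fun i => tan F q c * b' i - tan F q b' * c i := ⟨_, rfl⟩
    obtain ⟨h1, h2, h3⟩ := hev z (pt L q) (pt L c) (pt L a') (pt L b')
      (fun i => congrFun hq i)
      (fun i => by
        have := congrFun hz2 (Sum.inl i)
        rw [hc]
        exact this)
      (fun i => by
        have := congrFun hz2 (Sum.inr (Sum.inl i))
        rw [ha']
        exact this)
      (fun i => by
        have := congrFun hz2 (Sum.inr (Sum.inr i))
        rw [hb']
        exact this)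
    have h2' : ∀ i, eval z (ag i) = pt L a i := by
      intro i
      rw [h2, ← stc_pt_tan, ← stc_pt_tan, ha]
      show _ = algebraMap K L (tan F q c * a' i - tan F q a' * c i)
      rw [map_sub, map_mul, map_mul]
      rfl
    have h3' : ∀ i, eval z (bg i) = pt L b i := by
      intro i
      rw [h3, ← stc_pt_tan, ← stc_pt_tan, hb]
      show _ = algebraMap K L (tan F q c * b' i - tan F q b' * c i)
      rw [map_sub, map_mul, map_mul]
      rfl
    have hmap := hqev z (pt L q) (pt L a) (pt L b) h1 h2' h3'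
    have hmap' : (stc_q F q a b).map (algebraMap K L) = stc_q F (pt L q) (pt L a) (pt L b) :=
      stc_q_map (algebraMap K L) (fun _ => rfl) F q a b
    rw [hmap] at hne hroot
    have hp : stc_q F q a b ≠ 0 := by
      intro h0
      rw [h0, Polynomial.map_zero] at hmap'
      exact hne hmap'.symm
    obtain ⟨x, hx⟩ := hR (stc_q F q a b) hp (stc_q_deg F q a b) t (by rw [hmap']; exact hroot)
    obtain ⟨w, hw⟩ : ∃ w : ι → K, w = fun i => x * a i + b i := ⟨_, rfl⟩
    have hwt : (fun i => t * pt L a i + pt L b i) = pt L w := by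
      funext i
      rw [hw, ← hx]
      show algebraMap K L x * algebraMap K L (a i) + algebraMap K L (b i) = algebraMap K L (x * a i + b i)
      rw [map_add, map_mul]
    rw [hgev z (pt L q) (pt L a) (pt L b) t h1 h2' h3', hwt]
    refine hf _ ⟨q, w, by rw [← hq]; exact hz1, ?_, ?_, rfl⟩
    · have ta : tan F q a = 0 := by
        rw [ha, stc_tan_sub hF]
        ring
      have tb : tan F q b = 0 := by
        rw [hb, stc_tan_sub hF]
        ring
      rw [hw, tan_add hF, ta, tb]
      ring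
    · apply hinj
      rw [stc_pt_hes, map_zero, ← hwt, ← stc_q_eval hF]
      exact hroot)
  rintro _ ⟨Q, w, hQ, htw, hhw, rfl⟩
  obtain ⟨⟨c, hc⟩, a', ha1, ha2⟩ := hT Q hQ
  obtain ⟨z, hz⟩ : ∃ z : ι ⊕ (ι ⊕ (ι ⊕ ι)) → L, z = Sum.elim Q (Sum.elim c (Sum.elim a' w)) := ⟨_, rfl⟩
  obtain ⟨h1, h2, h3⟩ := hev z Q c a' w (fun i => by rw [hz]; rfl) (fun i => by rw [hz]; rfl)
    (fun i => by rw [hz]; rfl) (fun i => by rw [hz]; rfl)
  have h2' : ∀ i, eval z (ag i) = a' i := by
    intro i
    rw [h2, hc, ha1]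
    ring
  have h3' : ∀ i, eval z (bg i) = w i := by
    intro i
    rw [h3, hc, htw]
    ring
  have hmap := hqev z Q a' w h1 h2' h3'
  have hk := key z (by rw [hz]; exact hQ) 0 (by
    rw [hmap]
    intro h0
    have h4 := congrArg (fun p => Polynomial.coeff p 2) h0
    unfold stc_q at h4
    simp only [Polynomial.coeff_add, Polynomial.coeff_C_mul, Polynomial.coeff_X_pow, Polynomial.coeff_X,
      Polynomial.coeff_C, Polynomial.coeff_zero] at h4
    norm_num at h4
    exact ha2 h4) (by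
    rw [hmap, stc_q_eval hF]
    have h4 : (fun i => (0 : L) * a' i + w i) = w := by
      funext i
      ring
    rw [h4]
    exact hhw)
  rw [hgev z Q a' w 0 h1 h2' h3'] at hk
  have h4 : (fun i => (0 : L) * a' i + w i) = w := by
    funext i
    ring
  rw [h4] at hk
  exact hk

theorem stP [CharZero K] {F : MvPolynomial ι K} (hF : F.IsHomogeneous 7) {P : ι → K} (hc : ∃ c : ι → K, tan F P c = 1)
    (hflat : ∀ a : ι → L, tan F (pt L P) a = 0 → hes F (pt L P) a = 0) : Dense (WK L F {pt L P}) (WL F {pt L P}) := by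
  obtain ⟨c, hc⟩ := hc
  have hinj := (algebraMap K L).injective
  intro f hf
  obtain ⟨Pg, hPg⟩ : ∃ Pg : ι → MvPolynomial ι L, ∀ i, Pg i = C (pt L P i) := ⟨_, fun _ => rfl⟩
  obtain ⟨v, hv⟩ : ∃ v : ι ⊕ ι → MvPolynomial ι L,
      v = Sum.elim Pg (fun i => X i - tan F Pg X * C (pt L c i)) := ⟨_, rfl⟩
  have hev : ∀ y : ι → L, eval y (aeval v f) =
      eval (Sum.elim (pt L P) (fun i => y i - tan F (pt L P) y * pt L c i)) f := by
    intro y
    have h := eval₂_comp_left (eval y) (algebraMap L (MvPolynomial ι L)) v f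
    have h1 : (eval y).comp (algebraMap L (MvPolynomial ι L)) = RingHom.id L := by
      ext l
      rw [RingHom.comp_apply, MvPolynomial.algebraMap_eq, eval_C, RingHom.id_apply]
    rw [h1] at h
    have h2 : (fun i => eval y (v i)) =
        Sum.elim (pt L P) (fun i => y i - tan F (pt L P) y * pt L c i) := by
      have e1 : (fun i => eval y (Pg i)) = pt L P := by
        funext i
        rw [hPg, eval_C]
      have e2 : (fun i => eval y (X i : MvPolynomial ι L)) = y := by
        funext i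
        rw [eval_X]
      have t1 : eval y (tan F Pg X) = tan F (pt L P) y := by
        rw [map_tan (eval y) (stc_algA y) F Pg X, e1, e2]
      funext i
      rw [hv]
      rcases i with i | i
      · rw [Sum.elim_inl, Sum.elim_inl]
        exact congrFun e1 i
      · rw [Sum.elim_inr, Sum.elim_inr, map_sub, map_mul, t1, eval_X, eval_C]
    have h3 : eval y (aeval v f) = eval (fun i => eval y (v i)) f := h
    rw [h3, h2]
  haveI : Infinite K := inferInstance
  have hzero : (aeval v f : MvPolynomial ι L) = 0 := by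
    refine eq_zero_of_pt (K := K) fun y => ?_
    rw [hev]
    obtain ⟨w, hw⟩ : ∃ w : ι → K, w = fun i => 1 * y i - tan F P y * c i := ⟨_, rfl⟩
    have h1 : (fun i => pt L y i - tan F (pt L P) (pt L y) * pt L c i) = pt L w := by
      funext i
      rw [hw, ← stc_pt_tan]
      show algebraMap K L (y i) - algebraMap K L (tan F P y) * algebraMap K L (c i) =
        algebraMap K L (1 * y i - tan F P y * c i)
      rw [one_mul, map_sub, map_mul]
    rw [h1]
    have h2 : tan F P w = 0 := by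
      rw [hw, stc_tan_sub hF, hc]
      ring
    refine hf _ ⟨P, w, rfl, h2, ?_, rfl⟩
    apply hinj
    rw [stc_pt_hes, map_zero]
    refine hflat _ ?_
    rw [← stc_pt_tan, h2, map_zero]
  rintro _ ⟨Q, w, hQ, htw, -, rfl⟩
  have hQ' : Q = pt L P := hQ
  have h1 := hev w
  rw [hzero, map_zero] at h1
  rw [hQ'] at htw ⊢
  have h2 : (fun i => w i - tan F (pt L P) w * pt L c i) = w := by
    funext i
    rw [htw]
    ring
  rw [h2] at h1
  exact h1.symm

end Pool.Agent.H3.SH
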