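import Pool.Agent.H3.SH.StC
import Pool.Agent.H3.SH.StB

/-!
# SH StE: the chain of densities and stage E of note 5648

`stD`: `S₀ = T₀ = {pt P}`; `stC` or `stP` (if `P` is flat), `stB` give `Dense (YK S₀) (YL T₀)`; second components:
`S₁ = {pt r | eval r F = 0, tan F P r = 0, hes F P r = 0}`, `T₁ = {R | aeval R F = 0, tan F p R = hes F p R = 0, ln F p R ≠ 0, R ≠ 0, R not
flat}`; `stC`, `stB` again.

`stE`: the five forms `F (Q)`, `tan F p Q`, `hes F p Q`, `tan F Q R`, `hes F Q R` in `Q` (`exists_zero`, copy of `H8/SD/Zero`).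
-/

set_option autoImplicit false

open MvPolynomial

namespace Pool.Agent.H3.SH

private theorem le_height {L : Type} [Field L] [IsAlgClosed L] (σ : Type) [Finite σ] :
    (Nat.card σ : ℕ∞) ≤ (vanishingIdeal L ({0} : Set (σ → L))).height := by
  classical
  have hdim : ringKrullDim (MvPolynomial σ L) = (Nat.card σ : WithBot ℕ∞) := by
    rw [MvPolynomial.ringKrullDim_of_isNoetherianRing]
    simp
  have : FiniteRingKrullDim (MvPolynomial σ L) := by
    rw [finiteRingKrullDim_iff_ne_bot_and_top, hdim]
    constructor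
    · exact WithBot.coe_ne_bot
    · intro h
      have := WithBot.coe_injective h
      exact absurd this (by simp)
  obtain ⟨p, hp, hh⟩ := Ideal.exists_isMaximal_height (R := MvPolynomial σ L)
  obtain ⟨x, hx⟩ := isMaximal_iff_eq_vanishingIdeal_singleton.mp hp
  let e : MvPolynomial σ L ≃ₐ[L] MvPolynomial σ L :=
    AlgEquiv.ofAlgHom (aeval (fun i => X i + C (x i))) (aeval (fun i => X i - C (x i)))
      (by ext i; simp) (by ext i; simp)
  have hcomap : Ideal.comap (e : MvPolynomial σ L ≃+* MvPolynomial σ L)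
      (vanishingIdeal L ({0} : Set (σ → L))) = p := by
    rw [hx]
    ext q
    rw [Ideal.mem_comap, mem_vanishingIdeal_singleton_iff, mem_vanishingIdeal_singleton_iff]
    have : aeval (0 : σ → L) ((e : MvPolynomial σ L ≃+* MvPolynomial σ L) q) = aeval x q := by
      have h1 : (aeval (0 : σ → L)).comp (e : MvPolynomial σ L →ₐ[L] MvPolynomial σ L)
          = aeval x := by
        ext i
        simp [e]
      exact DFunLike.congr_fun h1 q
    rw [this]
  have h2 := RingEquiv.height_comap (e : MvPolynomial σ L ≃+* MvPolynomial σ L)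
    (vanishingIdeal L ({0} : Set (σ → L)))
  rw [hcomap] at h2
  rw [← h2]
  have h3 : ((p.height : ℕ∞) : WithBot ℕ∞) = (Nat.card σ : WithBot ℕ∞) := by
    rw [hh, hdim]
  have h4 : p.height = (Nat.card σ : ℕ∞) := by
    exact_mod_cast h3
  rw [h4]

/-- Krull: fewer polynomials without constant term than variables have a common zero `≠ 0` (copy of the private theorem of
`Pool.Agent.H8.SD.Zero`) -/
theorem exists_zero {L : Type} [Field L] [IsAlgClosed L] (σ : Type) [Finite σ] (κ : Type) [Finite κ]
    (hcard : Nat.card κ < Nat.card σ) (f : κ → MvPolynomial σ L)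
    (hf : ∀ k, eval (0 : σ → L) (f k) = 0) :
    ∃ x : σ → L, x ≠ 0 ∧ ∀ k, eval x (f k) = 0 := by
  classical
  by_contra hcon
  push Not at hcon
  have : Fintype κ := Fintype.ofFinite κ
  set s : Finset (MvPolynomial σ L) := Finset.univ.image f with hs
  set I : Ideal (MvPolynomial σ L) := Ideal.span (s : Set (MvPolynomial σ L)) with hI
  have hzero : zeroLocus L I = {(0 : σ → L)} := by
    ext x
    rw [hI, zeroLocus_span]
    constructor
    · intro hx
      by_contra hne
      obtain ⟨k, hk⟩ := hcon x hne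
      apply hk
      have := hx (f k) (by simp [hs])
      simpa [MvPolynomial.aeval_eq_eval] using this
    · rintro rfl
      intro p hp
      simp only [hs, Finset.coe_image, Finset.coe_univ, Set.image_univ, Set.mem_range] at hp
      obtain ⟨k, rfl⟩ := hp
      simpa [MvPolynomial.aeval_eq_eval] using hf k
  have hrad : I.radical = vanishingIdeal L ({0} : Set (σ → L)) := by
    rw [← vanishingIdeal_zeroLocus_eq_radical (K := L) I, hzero]
  have hmax : (vanishingIdeal L ({0} : Set (σ → L))).IsMaximal :=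
    isMaximal_iff_eq_vanishingIdeal_singleton.mpr ⟨0, rfl⟩
  have hmin : vanishingIdeal L ({0} : Set (σ → L)) ∈ I.minimalPrimes := by
    refine ⟨⟨hmax.isPrime, ?_⟩, ?_⟩
    · rw [← hrad]; exact Ideal.le_radical
    · rintro J ⟨hJ, hIJ⟩ _
      rw [← hrad]
      exact (Ideal.IsPrime.radical_le_iff hJ).mpr hIJ
  have h1 := Ideal.height_le_card_of_mem_minimalPrimes_span_finset (s := s) hmin
  have h2 := le_height (L := L) σ
  have h3 : s.card ≤ Nat.card κ := by
    rw [hs, Nat.card_eq_fintype_card]
    exact Finset.card_image_le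
  have h4 : (Nat.card σ : ℕ∞) ≤ (s.card : ℕ∞) := h2.trans h1
  have h5 : Nat.card σ ≤ s.card := by exact_mod_cast h4
  omega

variable {K L : Type} [Field K] [Field L] [Algebra K L] {n : ℕ}

private theorem aeval_hom {ι A : Type} [CommRing A] [Algebra K A] {F : MvPolynomial ι K} (hF : F.IsHomogeneous 7) (x : ι → A) (s : A) :
    aeval (fun i => s * x i) F = s ^ 7 * aeval x F := by
  rw [aeval_def, eval₂_eq, aeval_def, eval₂_eq, Finset.mul_sum]
  refine Finset.sum_congr rfl fun d hd => ?_
  have h1 : ∑ i ∈ d.support, d i = 7 := by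
    have := hF (mem_support_iff.1 hd)
    simpa [Finsupp.weight_apply, Finsupp.sum] using this
  have h2 : ∏ i ∈ d.support, (s * x i) ^ d i = s ^ 7 * ∏ i ∈ d.support, x i ^ d i := by
    simp only [mul_pow]
    rw [Finset.prod_mul_distrib, Finset.prod_pow_eq_pow_sum, h1]
  rw [h2]
  ring

private theorem pt_inj {ι : Type} {p q : ι → K} (h : pt L p = pt L q) : p = q := by
  funext i
  exact (algebraMap K L).injective (congrFun h i)

private theorem aeval_pt {ι : Type} (q : ι → K) (F : MvPolynomial ι K) : aeval (pt L q) F = algebraMap K L (eval q F) := by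
  have h : (aeval (pt L q) : MvPolynomial ι K →ₐ[K] L) = (Algebra.ofId K L).comp (aeval q) := by
    ext i
    simp [pt, Algebra.ofId_apply]
  rw [h]
  simp [Algebra.ofId_apply, MvPolynomial.aeval_eq_eval]

private theorem exists_tan {A : Type} [Field A] [Algebra K A] {F : MvPolynomial (Fin n) K} (hF : F.IsHomogeneous 7) {x : Fin n → A}
    (h : ∃ i, aeval x (pderiv i F) ≠ 0) : ∃ c : Fin n → A, tan F x c = 1 := by
  classical
  obtain ⟨i, hi⟩ := h
  refine ⟨Pi.single i (aeval x (pderiv i F))⁻¹, ?_⟩
  rw [tan_eq hF, Finset.sum_eq_single i]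
  · rw [Pi.single_eq_same, mul_inv_cancel₀ hi]
  · intro j _ hj
    rw [Pi.single_eq_of_ne hj, mul_zero]
  · intro h; exact absurd (Finset.mem_univ i) h

theorem stD [CharZero K] [IsAlgClosed L] (hR : Roots K L) {F : MvPolynomial (Fin n) K} (hF : F.IsHomogeneous 7)
    (hsm : Pool.Agent.H8.SD.Smooth L F) {P : Fin n → K} (hP0 : P ≠ 0) (hP : eval P F = 0) {G : MvPolynomial (Fin n) L}
    (hG : ∀ q : Fin n → K, eval q F = 0 → eval (pt L q) G = 0) {Q R : Fin n → L} (hQ0 : Q ≠ 0) (hQ : aeval Q F = 0)
    (h1 : tan F (pt L P) Q = 0) (h2 : hes F (pt L P) Q = 0) (h3 : ln F (pt L P) Q ≠ 0) (h4 : ¬ Flat F Q) (hRF : aeval R F = 0)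
    (h5 : tan F Q R = 0) (h6 : hes F Q R = 0) (h7 : ln F Q R ≠ 0) : eval R G = 0 := by
  have hp0 : pt L P ≠ 0 := by
    intro h
    apply hP0
    apply pt_inj (L := L)
    rw [h]
    funext i
    simp [pt]
  -- a vector with `tan = 1`
  have hc : ∃ c : Fin n → K, tan F P c = 1 := by
    apply exists_tan hF
    obtain ⟨i, hi⟩ := hsm (pt L P) hp0
    refine ⟨i, ?_⟩
    rw [aeval_pt] at hi
    intro h
    apply hi
    rw [MvPolynomial.aeval_eq_eval] at h
    rw [show eval P (pderiv i F) = 0 from h, map_zero]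
  have hcL : ∃ c : Fin n → L, tan F (pt L P) c = 1 := exists_tan hF (hsm _ hp0)
  -- the asymptotic cone at `P`
  have d0 : Dense (WK L F {pt L P}) (WL F {pt L P}) := by
    by_cases hfl : ∀ a : Fin n → L, tan F (pt L P) a = 0 → hes F (pt L P) a = 0
    · exact stP hF hc hfl
    · push Not at hfl
      apply stC hR hF
      · rintro Q rfl
        exact ⟨P, rfl⟩
      · intro f hf z hz
        exact hf z hz
      · rintro Q rfl
        exact ⟨hcL, hfl⟩
  have d1 : Dense (YK L F {pt L P}) (YL F {pt L P}) := by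
    apply stB hR hF _ d0
    intro q hq
    rw [pt_inj (L := L) (show pt L q = pt L P from hq)]
    exact hP
  set S₁ : Set (Fin n → L) := {x | ∃ r : Fin n → K, x = pt L r ∧ eval r F = 0 ∧ tan F P r = 0 ∧ hes F P r = 0} with hS₁
  set T₁ : Set (Fin n → L) := {x | aeval x F = 0 ∧ tan F (pt L P) x = 0 ∧ hes F (pt L P) x = 0 ∧ ln F (pt L P) x ≠ 0 ∧ x ≠ 0 ∧
    ¬ Flat F x} with hT₁
  have ev : ∀ (f : MvPolynomial (Fin n) L) (a b : Fin n → L), eval (Sum.elim a b) (rename Sum.inr f) = eval b f := by
    intro f a b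
    rw [eval_rename]
    rfl
  have d2 : Dense S₁ T₁ := by
    intro f hf x hx
    obtain ⟨hx1, hx2, hx3, hx4, -, -⟩ := hx
    rw [← ev f (pt L P) x]
    refine d1 (rename Sum.inr f) ?_ _ ⟨pt L P, x, rfl, hx2, hx3, hx1, hx4, rfl⟩
    rintro z ⟨q, u, hq, hu1, hu2, hu3, rfl⟩
    rw [ev]
    apply hf
    rw [pt_inj (L := L) (show pt L q = pt L P from hq)] at hu1 hu2
    exact ⟨u, rfl, hu3, hu1, hu2⟩
  have d3 : Dense (WK L F S₁) (WL F T₁) := by
    apply stC hR hF _ d2
    · rintro x ⟨hx1, -, -, -, hx5, hx6⟩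
      refine ⟨exists_tan hF (hsm x hx5), ?_⟩
      by_contra hcon
      push Not at hcon
      exact hx6 ⟨hx5, hx1, hcon⟩
    · rintro x ⟨r, hr, -⟩
      exact ⟨r, hr⟩
  have d4 : Dense (YK L F S₁) (YL F T₁) := by
    apply stB hR hF _ d3
    rintro q ⟨r, hr, hr2, -⟩
    rw [pt_inj (L := L) hr]
    exact hr2
  rw [← ev G Q R]
  refine d4 (rename Sum.inr G) ?_ _ ⟨Q, R, ⟨hQ, h1, h2, h3, hQ0, h4⟩, h5, h6, hRF, h7, rfl⟩
  rintro z ⟨q, u, -, -, -, hu3, rfl⟩
  rw [ev]
  exact hG u hu3

private theorem ln_zero_left {F : MvPolynomial (Fin n) K} [Infinite L] (y : Fin n → L) (h : aeval y F = 0) : ln F (fun _ => (0 : L)) y = 0 := by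
  apply Polynomial.funext
  intro s
  rw [eval_ln]
  simpa using h

private theorem onLine_of {F : MvPolynomial (Fin n) K} [Infinite L] (hF : F.IsHomogeneous 7) {x y : Fin n → L} (hx : aeval x F = 0)
    (h : ln F x y = 0) (a b : L) : aeval (a • x + b • y) F = 0 := by
  by_cases hb : b = 0
  · subst hb
    have h1 : a • x + (0 : L) • y = fun i => a * x i := by
      funext i
      simp
    rw [h1, aeval_hom hF, hx, mul_zero]
  · have h1 : a • x + b • y = fun i => b * ((a / b) * x i + y i) := by
      funext i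
      simp only [Pi.add_apply, Pi.smul_apply, smul_eq_mul]
      field_simp
    rw [h1, aeval_hom hF]
    have h2 := eval_ln F x y (a / b)
    rw [h, Polynomial.eval_zero] at h2
    rw [← h2, mul_zero]

theorem stE [CharZero K] [IsAlgClosed L] (hn : 6 ≤ n) (hR : Roots K L) {F : MvPolynomial (Fin n) K} (hF : F.IsHomogeneous 7)
    (hsm : Pool.Agent.H8.SD.Smooth L F) {P : Fin n → K} (hP : eval P F = 0) (hl : ¬ OnLine F (pt L P)) {G : MvPolynomial (Fin n) L}
    (hG : ∀ q : Fin n → K, eval q F = 0 → eval (pt L q) G = 0) {R : Fin n → L} (hRF : aeval R F = 0)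
    (h1 : tan F (pt L P) R ≠ 0) (h2 : ¬ OnLine F R) (h3 : ∀ Q, Flat F Q → tan F Q R ≠ 0) : eval R G = 0 := by
  have : Infinite L := IsAlgClosed.instInfinite
  have hPL : aeval (pt L P) F = 0 := by rw [aeval_pt, hP, map_zero]
  -- `tan` is linear in the second argument
  have tlin : ∀ (x y : Fin n → L) (c : L), tan F x (fun i => c * y i) = c * tan F x y := by
    intro x y c
    rw [tan_eq hF, tan_eq hF, Finset.mul_sum]
    exact Finset.sum_congr rfl fun i _ => by ring
  have hp0 : pt L P ≠ 0 := by
    intro h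
    apply h1
    have h4 : pt L P = fun i => (0 : L) * R i := by
      rw [h]; funext i; simp
    rw [h4, tan_smul_left hF]
    simp
  have hP0 : P ≠ 0 := by
    intro h
    apply hp0
    rw [h]
    funext i
    simp [pt]
  have hR0 : R ≠ 0 := by
    intro h
    apply h1
    have h4 : R = fun i => (0 : L) * R i := by
      rw [h]; funext i; simp
    rw [h4, tlin]
    simp
  -- the five forms
  let A := MvPolynomial (Fin n) L
  have hA : ∀ (x : Fin n → L) (c : K), eval x (algebraMap K A c) = algebraMap K L c := by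
    intro x c
    rw [IsScalarTower.algebraMap_apply K L A, MvPolynomial.algebraMap_eq, eval_C]
  let g : Fin 5 → MvPolynomial (Fin n) L := ![map (algebraMap K L) F, tan F (fun i => (C (pt L P i) : A)) (fun i => (X i : A)),
    hes F (fun i => (C (pt L P i) : A)) (fun i => (X i : A)), tan F (fun i => (X i : A)) (fun i => (C (R i) : A)),
    hes F (fun i => (X i : A)) (fun i => (C (R i) : A))]
  have e0 : ∀ x : Fin n → L, eval x (g 0) = aeval x F := by
    intro x
    simp [g, eval_map, aeval_def]
  have e1 : ∀ x : Fin n → L, eval x (g 1) = tan F (pt L P) x := by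
    intro x
    have := map_tan (K := K) (eval x : A →+* L) (hA x) F (fun i => (C (pt L P i) : A)) (fun i => (X i : A))
    simpa [g] using this
  have e2 : ∀ x : Fin n → L, eval x (g 2) = hes F (pt L P) x := by
    intro x
    have := map_hes (K := K) (eval x : A →+* L) (hA x) F (fun i => (C (pt L P i) : A)) (fun i => (X i : A))
    simpa [g] using this
  have e3 : ∀ x : Fin n → L, eval x (g 3) = tan F x R := by
    intro x
    have := map_tan (K := K) (eval x : A →+* L) (hA x) F (fun i => (X i : A)) (fun i => (C (R i) : A))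
    simpa [g] using this
  have e4 : ∀ x : Fin n → L, eval x (g 4) = hes F x R := by
    intro x
    have := map_hes (K := K) (eval x : A →+* L) (hA x) F (fun i => (X i : A)) (fun i => (C (R i) : A))
    simpa [g] using this
  have z1 : ln F (fun _ => (0 : L)) (pt L P) = 0 := ln_zero_left _ hPL
  have z2 : ln F (fun _ => (0 : L)) R = 0 := ln_zero_left _ hRF
  obtain ⟨Q, hQ0, hQ⟩ := exists_zero (L := L) (Fin n) (Fin 5) (by simpa using by omega) g (by
    intro k
    fin_cases k
    · show eval (0 : Fin n → L) (g 0) = 0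
      rw [e0]
      have := coeff_ln_swap hF (fun _ => (0 : L)) (pt L P) (k := 7) le_rfl
      rw [z1, Polynomial.coeff_zero, Nat.sub_self, coeff_ln_zero] at this
      exact this.symm
    · show eval (0 : Fin n → L) (g 1) = 0
      rw [e1]
      have := coeff_ln_swap hF (pt L P) (fun _ => (0 : L)) (k := 6) (by norm_num)
      rw [z1, Polynomial.coeff_zero] at this
      exact this
    · show eval (0 : Fin n → L) (g 2) = 0
      rw [e2]
      have := coeff_ln_swap hF (pt L P) (fun _ => (0 : L)) (k := 5) (by norm_num)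
      rw [z1, Polynomial.coeff_zero] at this
      exact this
    · show eval (0 : Fin n → L) (g 3) = 0
      rw [e3]
      show (ln F (fun _ => (0 : L)) R).coeff 6 = 0
      rw [z2, Polynomial.coeff_zero]
    · show eval (0 : Fin n → L) (g 4) = 0
      rw [e4]
      show (ln F (fun _ => (0 : L)) R).coeff 5 = 0
      rw [z2, Polynomial.coeff_zero])
  have q0 : aeval Q F = 0 := by rw [← e0]; exact hQ 0
  have q1 : tan F (pt L P) Q = 0 := by rw [← e1]; exact hQ 1
  have q2 : hes F (pt L P) Q = 0 := by rw [← e2]; exact hQ 2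
  have q3 : tan F Q R = 0 := by rw [← e3]; exact hQ 3
  have q4 : hes F Q R = 0 := by rw [← e4]; exact hQ 4
  -- the line `P Q` is not in `X`
  have q5 : ln F (pt L P) Q ≠ 0 := by
    intro h
    apply hl
    refine ⟨Q, ?_, fun a b => onLine_of hF hPL h a b⟩
    intro a b hab
    have hb : b = 0 := by
      by_contra hb
      have h4 : Q = fun i => (-(a / b)) * pt L P i := by
        funext i
        have := congrFun hab i
        simp only [Pi.add_apply, Pi.smul_apply, smul_eq_mul, Pi.zero_apply] at this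
        field_simp
        linear_combination this
      have h5 := q3
      rw [h4, tan_smul_left hF] at h5
      rcases mul_eq_zero.1 h5 with h6 | h6
      · apply hQ0
        rw [h4, pow_eq_zero_iff (by norm_num) |>.1 h6]
        funext i
        simp
      · exact h1 h6
    refine ⟨?_, hb⟩
    rw [hb, zero_smul, add_zero] at hab
    rcases smul_eq_zero.1 hab with h4 | h4
    · exact h4
    · exact absurd h4 hp0
  -- the line `Q R` is not in `X`
  have q6 : ln F Q R ≠ 0 := by
    intro h
    apply h2
    refine ⟨Q, ?_, fun a b => by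
      rw [add_comm]
      exact onLine_of hF q0 h b a⟩
    intro a b hab
    have hb : b = 0 := by
      by_contra hb
      have h4 : Q = fun i => (-(a / b)) * R i := by
        funext i
        have := congrFun hab i
        simp only [Pi.add_apply, Pi.smul_apply, smul_eq_mul, Pi.zero_apply] at this
        field_simp
        linear_combination this
      have h5 := q1
      rw [h4, tlin] at h5
      rcases mul_eq_zero.1 h5 with h6 | h6
      · apply hQ0
        rw [h4, h6]
        funext i
        simp
      · exact h1 h6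
    refine ⟨?_, hb⟩
    rw [hb, zero_smul, add_zero] at hab
    rcases smul_eq_zero.1 hab with h4 | h4
    · exact h4
    · exact absurd h4 hR0
  exact stD hR hF hsm hP0 hP hG hQ0 q0 q1 q2 q5 (fun h => h3 Q h q3) hRF q3 q4 q6

end Pool.Agent.H3.SH
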