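import Pool.Agent.H3.SH.StE

/-!
# SH StF: stage F of note 5648 (Nullstellensatz)

`G * tan F p X * h1 * h2` vanishes at the zeros of `F` over `L`, `F` is irreducible over `L` (`Pool.Agent.H8.SD.irreducible_of_smooth` for
`map (algebraMap K L) F`), so `F` divides one factor; not `tan F p X` (a linear form `≠ 0`), not `h1`, not `h2`.
-/

set_option autoImplicit false

open MvPolynomial

namespace Pool.Agent.H3.SH

variable {K L : Type} [Field K] [Field L] [Algebra K L] {n : ℕ}

/-- an irreducible polynomial divides every polynomial which vanishes at its zeros -/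
theorem dvd_of_zeros [IsAlgClosed L] {F G : MvPolynomial (Fin n) L} (hF : Irreducible F) (h : ∀ x, eval x F = 0 → eval x G = 0) : F ∣ G := by
  have hp : Prime F := UniqueFactorizationMonoid.irreducible_iff_prime.1 hF
  have : (Ideal.span {F}).IsPrime := (Ideal.span_singleton_prime hF.ne_zero).2 hp
  have h1 := MvPolynomial.IsPrime.vanishingIdeal_zeroLocus (k := L) (K := L) (Ideal.span {F})
  rw [← Ideal.mem_span_singleton, ← h1, mem_vanishingIdeal_iff]
  intro x hx
  rw [mem_zeroLocus_iff] at hx
  have h2 := hx F (Ideal.mem_span_singleton_self F)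
  rw [aeval_eq_eval] at h2 ⊢
  exact h x h2

private theorem eval_map' (F : MvPolynomial (Fin n) K) (x : Fin n → L) :
    eval x (map (algebraMap K L) F) = aeval x F := by
  rw [eval_map, aeval_def]

theorem stF [CharZero K] [IsAlgClosed L] (hn : 6 ≤ n) (hR : Roots K L) {F : MvPolynomial (Fin n) K} (hF : F.IsHomogeneous 7)
    (hsm : Pool.Agent.H8.SD.Smooth L F) {P : Fin n → K} (hP0 : P ≠ 0) (hP : eval P F = 0) (hl : ¬ OnLine F (pt L P))
    {h1 h2 : MvPolynomial (Fin n) L} (hd1 : ¬ map (algebraMap K L) F ∣ h1)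
    (hh1 : ∀ R : Fin n → L, aeval R F = 0 → OnLine F R → eval R h1 = 0) (hd2 : ¬ map (algebraMap K L) F ∣ h2)
    (hh2 : ∀ R Q : Fin n → L, aeval R F = 0 → Flat F Q → tan F Q R = 0 → eval R h2 = 0) {G : MvPolynomial (Fin n) L}
    (hG : ∀ q : Fin n → K, eval q F = 0 → eval (pt L q) G = 0) : map (algebraMap K L) F ∣ G := by
  set F' : MvPolynomial (Fin n) L := map (algebraMap K L) F with hF'
  have hhom : F'.IsHomogeneous 7 := hF.map _
  have hsm' : Pool.Agent.H8.SD.Smooth L F' := by
    intro x hx
    obtain ⟨i, hi⟩ := hsm x hx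
    refine ⟨i, ?_⟩
    rw [hF', pderiv_map, aeval_map_algebraMap]
    exact hi
  have hirr : Irreducible F' := Pool.Agent.H8.SD.irreducible_of_smooth (K := L) (L := L) (by omega) hhom hsm'
  have hpr : Prime F' := UniqueFactorizationMonoid.irreducible_iff_prime.1 hirr
  have hP0' : pt L P ≠ 0 := by
    intro h
    apply hP0
    funext i
    have h3 := congrFun h i
    exact (map_eq_zero_iff (algebraMap K L) (algebraMap K L).injective).1 h3
  set T : MvPolynomial (Fin n) L := ∑ i, C (aeval (pt L P) (pderiv i F)) * X i with hT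
  have hTe : ∀ x : Fin n → L, eval x T = tan F (pt L P) x := by
    intro x
    rw [tan_eq hF, hT, map_sum]
    refine Finset.sum_congr rfl fun i _ => ?_
    rw [map_mul, eval_C, eval_X]
  have hT0 : T ≠ 0 := by
    obtain ⟨i, hi⟩ := hsm (pt L P) hP0'
    intro h
    apply hi
    have h3 : eval (Pi.single i (1 : L)) T = 0 := by rw [h, map_zero]
    rw [hT, map_sum, Finset.sum_eq_single i] at h3
    · rwa [map_mul, eval_C, eval_X, Pi.single_eq_same, mul_one] at h3
    · intro j _ hj
      simp [Pi.single_eq_of_ne hj]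
    · intro h4
      exact absurd (Finset.mem_univ i) h4
  have hTh : T.IsHomogeneous 1 := by
    refine IsHomogeneous.sum _ _ _ fun i _ => ?_
    have h3 := (isHomogeneous_C (Fin n) (aeval (pt L P) (pderiv i F))).mul (isHomogeneous_X L i)
    simpa using h3
  have hdT : ¬ F' ∣ T := by
    intro h
    have h3 := totalDegree_le_of_dvd_of_isDomain h hT0
    rw [hhom.totalDegree hirr.ne_zero, hTh.totalDegree hT0] at h3
    omega
  have hdvd : F' ∣ G * T * h1 * h2 := by
    refine dvd_of_zeros hirr fun x hx => ?_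
    have hx' : aeval x F = 0 := by rw [← eval_map', ← hF']; exact hx
    rw [map_mul, map_mul, map_mul]
    by_cases c1 : tan F (pt L P) x = 0
    · rw [hTe, c1]; simp
    by_cases c2 : OnLine F x
    · rw [hh1 x hx' c2]; simp
    by_cases c3 : ∃ Q, Flat F Q ∧ tan F Q x = 0
    · obtain ⟨Q, hQ1, hQ2⟩ := c3
      rw [hh2 x Q hx' hQ1 hQ2]; simp
    · have h3 : eval x G = 0 :=
        stE hn hR hF hsm hP hl hG hx' c1 c2 fun Q hQ h4 => c3 ⟨Q, hQ, h4⟩
      rw [h3]; simp
  rcases hpr.dvd_or_dvd hdvd with h | h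
  · rcases hpr.dvd_or_dvd h with h | h
    · rcases hpr.dvd_or_dvd h with h | h
      · exact h
      · exact absurd h hdT
    · exact absurd h hd1
  · exact absurd h hd2

end Pool.Agent.H3.SH
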