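import Pool.Agent.H3.SH.StF

/-!
# SH StG: `stE`, `stF` for a point `P` on finitely many lines (same proofs)

`stE'`: if `ln F (pt P) Q = 0`, then `P, Q` are independent and span a line of `X`, and `hl` gives the contradiction (`tan F Q R = 0 = hes F Q R`).
-/

set_option autoImplicit false

open MvPolynomial

namespace Pool.Agent.H3.SH

variable {K L : Type} [Field K] [Field L] [Algebra K L] {n : ℕ}

private theorem stg_aeval_hom {ι A : Type} [CommRing A] [Algebra K A] {F : MvPolynomial ι K} (hF : F.IsHomogeneous 7) (x : ι → A) (s : A) :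
    aeval (fun i => s * x i) F = s ^ 7 * aeval x F := by
  rw [aeval_def, eval₂_eq, aeval_def, eval₂_eq, Finset.mul_sum]
  refine Finset.sum_congr rfl fun d hd => ?_
  have h1 : ∑ i ∈ d.support, d i = 7 := by
    have := hF (mem_support_iff.1 hd)
    simpa [Finsupp.weight_apply, Finsupp.sum] using this
  have h2 : ∏ i ∈ d.support, (s * x i) ^ d i = s ^ 7 * ∏ i ∈ d.support, x i ^ d i := by
    simp only [mul_pow]
    rw [Finset.prod_mul_distrib, Finset.prod_pow_eq_pow_sum, h1]
  rw [h2]
  ring

private theorem stg_aeval_pt {ι : Type} (q : ι → K) (F : MvPolynomial ι K) : aeval (pt L q) F = algebraMap K L (eval q F) := by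
  have h : (aeval (pt L q) : MvPolynomial ι K →ₐ[K] L) = (Algebra.ofId K L).comp (aeval q) := by
    ext i
    simp [pt, Algebra.ofId_apply]
  rw [h]
  simp [Algebra.ofId_apply, MvPolynomial.aeval_eq_eval]

private theorem stg_ln_zero_left {F : MvPolynomial (Fin n) K} [Infinite L] (y : Fin n → L) (h : aeval y F = 0) : ln F (fun _ => (0 : L)) y = 0 := by
  apply Polynomial.funext
  intro s
  rw [eval_ln]
  simpa using h

private theorem stg_onLine_of {F : MvPolynomial (Fin n) K} [Infinite L] (hF : F.IsHomogeneous 7) {x y : Fin n → L} (hx : aeval x F = 0)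
    (h : ln F x y = 0) (a b : L) : aeval (a • x + b • y) F = 0 := by
  by_cases hb : b = 0
  · subst hb
    have h1 : a • x + (0 : L) • y = fun i => a * x i := by
      funext i
      simp
    rw [h1, stg_aeval_hom hF, hx, mul_zero]
  · have h1 : a • x + b • y = fun i => b * ((a / b) * x i + y i) := by
      funext i
      simp only [Pi.add_apply, Pi.smul_apply, smul_eq_mul]
      field_simp
    rw [h1, stg_aeval_hom hF]
    have h2 := eval_ln F x y (a / b)
    rw [h, Polynomial.eval_zero] at h2
    rw [← h2, mul_zero]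

private theorem stg_eval_map' (F : MvPolynomial (Fin n) K) (x : Fin n → L) :
    eval x (map (algebraMap K L) F) = aeval x F := by
  rw [eval_map, aeval_def]

theorem stE' [CharZero K] [IsAlgClosed L] (hn : 6 ≤ n) (hR : Roots K L) {F : MvPolynomial (Fin n) K} (hF : F.IsHomogeneous 7)
    (hsm : Pool.Agent.H8.SD.Smooth L F) {P : Fin n → K} (hP : eval P F = 0) {G : MvPolynomial (Fin n) L}
    (hG : ∀ q : Fin n → K, eval q F = 0 → eval (pt L q) G = 0) {R : Fin n → L} (hRF : aeval R F = 0)
    (hl : ∀ Q : Fin n → L, (∀ a b : L, a • pt L P + b • Q = 0 → a = 0 ∧ b = 0) → (∀ a b : L, aeval (a • pt L P + b • Q) F = 0) →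
      tan F Q R = 0 → hes F Q R ≠ 0)
    (h1 : tan F (pt L P) R ≠ 0) (h2 : ¬ OnLine F R) (h3 : ∀ Q, Flat F Q → tan F Q R ≠ 0) : eval R G = 0 := by
  have : Infinite L := IsAlgClosed.instInfinite
  have hPL : aeval (pt L P) F = 0 := by rw [stg_aeval_pt, hP, map_zero]
  -- `tan` is linear in the second argument
  have tlin : ∀ (x y : Fin n → L) (c : L), tan F x (fun i => c * y i) = c * tan F x y := by
    intro x y c
    rw [tan_eq hF, tan_eq hF, Finset.mul_sum]
    exact Finset.sum_congr rfl fun i _ => by ring
  have hp0 : pt L P ≠ 0 := by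
    intro h
    apply h1
    have h4 : pt L P = fun i => (0 : L) * R i := by
      rw [h]; funext i; simp
    rw [h4, tan_smul_left hF]
    simp
  have hP0 : P ≠ 0 := by
    intro h
    apply hp0
    rw [h]
    funext i
    simp [pt]
  have hR0 : R ≠ 0 := by
    intro h
    apply h1
    have h4 : R = fun i => (0 : L) * R i := by
      rw [h]; funext i; simp
    rw [h4, tlin]
    simp
  -- the five forms
  let A := MvPolynomial (Fin n) L
  have hA : ∀ (x : Fin n → L) (c : K), eval x (algebraMap K A c) = algebraMap K L c := by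
    intro x c
    rw [IsScalarTower.algebraMap_apply K L A, MvPolynomial.algebraMap_eq, eval_C]
  let g : Fin 5 → MvPolynomial (Fin n) L := ![map (algebraMap K L) F, tan F (fun i => (C (pt L P i) : A)) (fun i => (X i : A)),
    hes F (fun i => (C (pt L P i) : A)) (fun i => (X i : A)), tan F (fun i => (X i : A)) (fun i => (C (R i) : A)),
    hes F (fun i => (X i : A)) (fun i => (C (R i) : A))]
  have e0 : ∀ x : Fin n → L, eval x (g 0) = aeval x F := by
    intro x
    simp [g, eval_map, aeval_def]
  have e1 : ∀ x : Fin n → L, eval x (g 1) = tan F (pt L P) x := by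
    intro x
    have := map_tan (K := K) (eval x : A →+* L) (hA x) F (fun i => (C (pt L P i) : A)) (fun i => (X i : A))
    simpa [g] using this
  have e2 : ∀ x : Fin n → L, eval x (g 2) = hes F (pt L P) x := by
    intro x
    have := map_hes (K := K) (eval x : A →+* L) (hA x) F (fun i => (C (pt L P i) : A)) (fun i => (X i : A))
    simpa [g] using this
  have e3 : ∀ x : Fin n → L, eval x (g 3) = tan F x R := by
    intro x
    have := map_tan (K := K) (eval x : A →+* L) (hA x) F (fun i => (X i : A)) (fun i => (C (R i) : A))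
    simpa [g] using this
  have e4 : ∀ x : Fin n → L, eval x (g 4) = hes F x R := by
    intro x
    have := map_hes (K := K) (eval x : A →+* L) (hA x) F (fun i => (X i : A)) (fun i => (C (R i) : A))
    simpa [g] using this
  have z1 : ln F (fun _ => (0 : L)) (pt L P) = 0 := stg_ln_zero_left _ hPL
  have z2 : ln F (fun _ => (0 : L)) R = 0 := stg_ln_zero_left _ hRF
  obtain ⟨Q, hQ0, hQ⟩ := exists_zero (L := L) (Fin n) (Fin 5) (by simpa using by omega) g (by
    intro k
    fin_cases k
    · show eval (0 : Fin n → L) (g 0) = 0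
      rw [e0]
      have := coeff_ln_swap hF (fun _ => (0 : L)) (pt L P) (k := 7) le_rfl
      rw [z1, Polynomial.coeff_zero, Nat.sub_self, coeff_ln_zero] at this
      exact this.symm
    · show eval (0 : Fin n → L) (g 1) = 0
      rw [e1]
      have := coeff_ln_swap hF (pt L P) (fun _ => (0 : L)) (k := 6) (by norm_num)
      rw [z1, Polynomial.coeff_zero] at this
      exact this
    · show eval (0 : Fin n → L) (g 2) = 0
      rw [e2]
      have := coeff_ln_swap hF (pt L P) (fun _ => (0 : L)) (k := 5) (by norm_num)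
      rw [z1, Polynomial.coeff_zero] at this
      exact this
    · show eval (0 : Fin n → L) (g 3) = 0
      rw [e3]
      show (ln F (fun _ => (0 : L)) R).coeff 6 = 0
      rw [z2, Polynomial.coeff_zero]
    · show eval (0 : Fin n → L) (g 4) = 0
      rw [e4]
      show (ln F (fun _ => (0 : L)) R).coeff 5 = 0
      rw [z2, Polynomial.coeff_zero])
  have q0 : aeval Q F = 0 := by rw [← e0]; exact hQ 0
  have q1 : tan F (pt L P) Q = 0 := by rw [← e1]; exact hQ 1
  have q2 : hes F (pt L P) Q = 0 := by rw [← e2]; exact hQ 2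
  have q3 : tan F Q R = 0 := by rw [← e3]; exact hQ 3
  have q4 : hes F Q R = 0 := by rw [← e4]; exact hQ 4
  -- the line `P Q` is not in `X`
  have q5 : ln F (pt L P) Q ≠ 0 := by
    intro h
    refine hl Q ?_ (fun a b => stg_onLine_of hF hPL h a b) q3 q4
    intro a b hab
    have hb : b = 0 := by
      by_contra hb
      have h4 : Q = fun i => (-(a / b)) * pt L P i := by
        funext i
        have := congrFun hab i
        simp only [Pi.add_apply, Pi.smul_apply, smul_eq_mul, Pi.zero_apply] at this
        field_simp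
        linear_combination this
      have h5 := q3
      rw [h4, tan_smul_left hF] at h5
      rcases mul_eq_zero.1 h5 with h6 | h6
      · apply hQ0
        rw [h4, pow_eq_zero_iff (by norm_num) |>.1 h6]
        funext i
        simp
      · exact h1 h6
    refine ⟨?_, hb⟩
    rw [hb, zero_smul, add_zero] at hab
    rcases smul_eq_zero.1 hab with h4 | h4
    · exact h4
    · exact absurd h4 hp0
  -- the line `Q R` is not in `X`
  have q6 : ln F Q R ≠ 0 := by
    intro h
    apply h2
    refine ⟨Q, ?_, fun a b => by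
      rw [add_comm]
      exact stg_onLine_of hF q0 h b a⟩
    intro a b hab
    have hb : b = 0 := by
      by_contra hb
      have h4 : Q = fun i => (-(a / b)) * R i := by
        funext i
        have := congrFun hab i
        simp only [Pi.add_apply, Pi.smul_apply, smul_eq_mul, Pi.zero_apply] at this
        field_simp
        linear_combination this
      have h5 := q1
      rw [h4, tlin] at h5
      rcases mul_eq_zero.1 h5 with h6 | h6
      · apply hQ0
        rw [h4, h6]
        funext i
        simp
      · exact h1 h6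
    refine ⟨?_, hb⟩
    rw [hb, zero_smul, add_zero] at hab
    rcases smul_eq_zero.1 hab with h4 | h4
    · exact h4
    · exact absurd h4 hR0
  exact stD hR hF hsm hP0 hP hG hQ0 q0 q1 q2 q5 (fun h => h3 Q h q3) hRF q3 q4 q6

theorem stF' [CharZero K] [IsAlgClosed L] (hn : 6 ≤ n) (hR : Roots K L) {F : MvPolynomial (Fin n) K} (hF : F.IsHomogeneous 7)
    (hsm : Pool.Agent.H8.SD.Smooth L F) {P : Fin n → K} (hP0 : P ≠ 0) (hP : eval P F = 0)
    {h1 h2 h3 : MvPolynomial (Fin n) L} (hd1 : ¬ map (algebraMap K L) F ∣ h1)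
    (hh1 : ∀ R : Fin n → L, aeval R F = 0 → OnLine F R → eval R h1 = 0) (hd2 : ¬ map (algebraMap K L) F ∣ h2)
    (hh2 : ∀ R Q : Fin n → L, aeval R F = 0 → Flat F Q → tan F Q R = 0 → eval R h2 = 0) (hd3 : ¬ map (algebraMap K L) F ∣ h3)
    (hh3 : ∀ R Q : Fin n → L, aeval R F = 0 → (∀ a b : L, a • pt L P + b • Q = 0 → a = 0 ∧ b = 0) →
      (∀ a b : L, aeval (a • pt L P + b • Q) F = 0) → tan F Q R = 0 → hes F Q R = 0 → eval R h3 = 0)
    {G : MvPolynomial (Fin n) L} (hG : ∀ q : Fin n → K, eval q F = 0 → eval (pt L q) G = 0) : map (algebraMap K L) F ∣ G := by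
  set F' : MvPolynomial (Fin n) L := map (algebraMap K L) F with hF'
  have hhom : F'.IsHomogeneous 7 := hF.map _
  have hsm' : Pool.Agent.H8.SD.Smooth L F' := by
    intro x hx
    obtain ⟨i, hi⟩ := hsm x hx
    refine ⟨i, ?_⟩
    rw [hF', pderiv_map, aeval_map_algebraMap]
    exact hi
  have hirr : Irreducible F' := Pool.Agent.H8.SD.irreducible_of_smooth (K := L) (L := L) (by omega) hhom hsm'
  have hpr : Prime F' := UniqueFactorizationMonoid.irreducible_iff_prime.1 hirr
  have hP0' : pt L P ≠ 0 := by
    intro h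
    apply hP0
    funext i
    have e3 := congrFun h i
    exact (map_eq_zero_iff (algebraMap K L) (algebraMap K L).injective).1 e3
  set T : MvPolynomial (Fin n) L := ∑ i, C (aeval (pt L P) (pderiv i F)) * X i with hT
  have hTe : ∀ x : Fin n → L, eval x T = tan F (pt L P) x := by
    intro x
    rw [tan_eq hF, hT, map_sum]
    refine Finset.sum_congr rfl fun i _ => ?_
    rw [map_mul, eval_C, eval_X]
  have hT0 : T ≠ 0 := by
    obtain ⟨i, hi⟩ := hsm (pt L P) hP0'
    intro h
    apply hi
    have e3 : eval (Pi.single i (1 : L)) T = 0 := by rw [h, map_zero]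
    rw [hT, map_sum, Finset.sum_eq_single i] at e3
    · rwa [map_mul, eval_C, eval_X, Pi.single_eq_same, mul_one] at e3
    · intro j _ hj
      simp [Pi.single_eq_of_ne hj]
    · intro e4
      exact absurd (Finset.mem_univ i) e4
  have hTh : T.IsHomogeneous 1 := by
    refine IsHomogeneous.sum _ _ _ fun i _ => ?_
    have e3 := (isHomogeneous_C (Fin n) (aeval (pt L P) (pderiv i F))).mul (isHomogeneous_X L i)
    simpa using e3
  have hdT : ¬ F' ∣ T := by
    intro h
    have e3 := totalDegree_le_of_dvd_of_isDomain h hT0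
    rw [hhom.totalDegree hirr.ne_zero, hTh.totalDegree hT0] at e3
    omega
  have hdvd : F' ∣ G * T * h1 * h2 * h3 := by
    refine dvd_of_zeros hirr fun x hx => ?_
    have hx' : aeval x F = 0 := by rw [← stg_eval_map', ← hF']; exact hx
    rw [map_mul, map_mul, map_mul, map_mul]
    by_cases c1 : tan F (pt L P) x = 0
    · rw [hTe, c1]; simp
    by_cases c2 : OnLine F x
    · rw [hh1 x hx' c2]; simp
    by_cases c3 : ∃ Q, Flat F Q ∧ tan F Q x = 0
    · obtain ⟨Q, hQ1, hQ2⟩ := c3
      rw [hh2 x Q hx' hQ1 hQ2]; simp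
    by_cases c4 : eval x h3 = 0
    · rw [c4]; simp
    · have h4 : eval x G = 0 :=
        stE' hn hR hF hsm hP hG hx' (fun Q hQ1 hQ2 hQ3 hQ4 => c4 (hh3 x Q hx' hQ1 hQ2 hQ3 hQ4)) c1 c2
          fun Q hQ h5 => c3 ⟨Q, hQ, h5⟩
      rw [h4]; simp
  rcases hpr.dvd_or_dvd hdvd with h | h
  · rcases hpr.dvd_or_dvd h with h | h
    · rcases hpr.dvd_or_dvd h with h | h
      · rcases hpr.dvd_or_dvd h with h | h
        · exact h
        · exact absurd h hdT
      · exact absurd h hd1
    · exact absurd h hd2
  · exact absurd h hd3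

end Pool.Agent.H3.SH
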